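import Pool.Agent.Lib.MP_2e4b78_lc.Mod.Stm
import Pool.Agent.Lib.MP_764a00_al.P.DT

set_option autoImplicit false

/-!
# MP_2e4b78_lc : few dense sets have a common element in the exact order
-/

open scoped Ordinal Cardinal

namespace Pool.Agent.NST

/-- the conditions below `p` in the exact order -/
private structure al_T (p : Cp) : Type where
  c : Cp
  h : Ee c p

theorem p_AL (lb : S_LB) (e1 : S_E1) : S_AL := by
  intro p A E hA hd hE
  obtain ⟨h1, h2, -, -⟩ := e1
  let _ : Preorder (al_T p) :=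
    { le := fun r q => Ee r.c q.c
      le_refl := fun q => h1 q.c
      le_trans := fun r q s h3 h4 => h2 s.c q.c r.c h3 h4 }
  obtain ⟨q, _, hq⟩ := Pool.Agent.CN.p_DT (al_T p) (ℵ_ 1) (Cardinal.aleph0_le_aleph 1) (by
    intro J _ _ f hJ hf
    obtain ⟨q, hq, _⟩ := lb J (fun j => (f j).c) hJ (fun i j hij => hf hij)
    obtain ⟨j⟩ := (inferInstance : Nonempty J)
    exact ⟨⟨q, h2 p (f j).c q (hq j) (f j).h⟩, fun j => hq j⟩) ⟨p, h1 p⟩ A
    (fun a => {q | q.c ∈ E a}) hA (by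
      rintro a q _
      obtain ⟨r, hr, hr'⟩ := hd a q.c q.h
      exact ⟨⟨r, h2 p q.c r hr q.h⟩, hr, hr'⟩) (by
      rintro a q hq r hr
      exact hE a q.c r.c hq hr)
  exact ⟨q.c, q.h, hq⟩

end Pool.Agent.NST
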