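import Pool.Agent.Lib.MP_2e4b78_lc.Mod.Stm

set_option autoImplicit false

/-!
# MP_2e4b78_lc : one more closed pair (piece AP)
-/

open Cardinal Set Order
open scoped Ordinal

namespace Pool.Agent.NST

open Pool.Agent.MP2e4b78 (W1 W2 Lim exists_gt_of_mk_le)
open Nd

private theorem ap_not_lim (i : W1) : ¬ Lim (Order.succ i) := fun h => by
  obtain ⟨k, hk1, hk2⟩ := h.2 i (Order.lt_succ i)
  exact absurd hk2 (not_lt.2 (Order.succ_le_of_lt hk1))

private theorem ap_append (t : Nd) (δ : W1) (M : Set W2) (hM : M.Countable)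
    (hclo : Clo δ M) (hδ : t.dt < δ) (hsub : t.mt ⊆ M) (hζ : ∃ ζ ∈ M, ∀ η ∈ t.mt, η < ζ) :
    ∃ t' : Nd, t ≤ t' ∧ t'.len = Order.succ t.len ∧ t'.dt = δ ∧ t'.mt = M := by
  classical
  let d : W1 → W1 := fun i => if i ≤ t.len then t.d i else δ
  let m : W1 → Set W2 := fun i => if i ≤ t.len then t.m i else M
  have hs : t.len < Order.succ t.len := Order.lt_succ _
  have hst : ∀ i ≤ Order.succ t.len, St d m i := by
    intro i hi
    rcases le_or_gt i t.len with h | h
    · exact (t.st i h).congr (fun j hj => (if_pos (hj.trans h)).symm)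
        (fun j hj => (if_pos (hj.trans h)).symm)
    · have hi' : i = Order.succ t.len := le_antisymm hi (Order.succ_le_of_lt h)
      have e1 : d i = δ := if_neg (not_le.2 h)
      have e2 : m i = M := if_neg (not_le.2 h)
      refine ⟨fun h0 => ?_, by rw [e2]; exact hM, by rw [e1, e2]; exact hclo, fun j hj => ?_,
        fun hl => ?_⟩
      · rw [h0] at h; exact absurd h not_lt_bot
      · have hj' : j ≤ t.len := by rw [hi'] at hj; exact Order.lt_succ_iff.1 hj
        rw [e1, e2]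
        have e3 : d j = t.d j := if_pos hj'
        have e4 : m j = t.m j := if_pos hj'
        rw [e3, e4]
        refine ⟨(d_le hj' le_rfl).trans_lt hδ, (m_le hj' le_rfl).trans hsub, ?_⟩
        obtain ⟨ζ, hζ1, hζ2⟩ := hζ
        exact ⟨ζ, hζ1, fun η hη => hζ2 η (m_le hj' le_rfl hη)⟩
      · rw [hi'] at hl; exact absurd hl (ap_not_lim _)
  refine ⟨mk' (Order.succ t.len) d m hst, ?_, rfl, ?_, ?_⟩
  · refine le_def.2 ⟨hs.le, fun i hi => ?_⟩
    rw [mk'_d hst (hi.trans hs.le), mk'_m hst (hi.trans hs.le)]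
    exact ⟨(if_pos hi).symm, (if_pos hi).symm⟩
  · exact (mk'_d hst le_rfl).trans (if_neg (not_le.2 hs))
  · exact (mk'_m hst le_rfl).trans (if_neg (not_le.2 hs))

theorem p_AP (md : S_MD) : S_AP := by
  intro t y β
  have hct : t.mt.Countable := (t.st t.len le_rfl).cnt
  obtain ⟨ζ, hζ⟩ := exists_gt_of_mk_le (s := t.mt)
    ((le_aleph0_iff_set_countable.2 hct).trans Cardinal.aleph0_lt_aleph_one.le)
  obtain ⟨δ, M, hM, hclo, hδ, hA⟩ := md (insert y (insert ζ t.mt)) (max β t.dt)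
    ((hct.insert ζ).insert y)
  obtain ⟨t', h1, h2, h3, h4⟩ := ap_append t δ M hM hclo ((le_max_right _ _).trans_lt hδ)
    (fun η hη => hA (Or.inr (Or.inr hη))) ⟨ζ, hA (Or.inr (Or.inl rfl)), hζ⟩
  refine ⟨t', h1, h2, ?_, ?_⟩
  · rw [h4]
    exact hA (Or.inl rfl)
  · rw [h3]
    exact (le_max_left _ _).trans_lt hδ

end Pool.Agent.NST
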