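import Pool.Agent.Lib.MP_2e4b78_lc.Mod.Stm

set_option autoImplicit false

/-!
# MP_2e4b78_lc : the set of the nodes in the model (piece AV)
-/

open Cardinal Set Order
open scoped Ordinal

namespace Pool.Agent.NST

open Pool.Agent.MP2e4b78 (W1 W2 Lim IsNormalIdeal exists_inj)
open Pool.Agent.CR (Nm V nat natN Memf Eqf)

private def av_n : List Ob → Nm Cn
  | [.nm ν] => ν
  | _ => Nm.emp

theorem p_AV (bg : S_BG) (el : S_EL) : S_AV := by
  refine ((bg Nd Ob.nd (fun _ _ h => by simpa using h) (fun _ => elN)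
    (fun l t => {p | Ok (av_n l) p t})).and el).mono ?_
  rintro M G ⟨h1, -, h3⟩ ν hν
  obtain ⟨k1, -, k3⟩ := h1 [.nm ν] (by
    intro x hx
    simp only [List.mem_cons, List.not_mem_nil, or_false] at hx
    rw [hx]
    exact hν)
  have k4 : ∀ z, z ∈ Av ν M G ↔ ∃ t ∈ TG ν M G, z = pp.vl M G (elN t) := by
    intro z
    constructor
    · intro hz
      obtain ⟨t, ht, hp, he⟩ := (k3 z).1 hz
      exact ⟨t, ⟨ht, hp⟩, he⟩
    · rintro ⟨t, ⟨ht, hp⟩, he⟩
      exact (k3 z).2 ⟨t, ht, hp, he⟩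
  refine ⟨⟨_, k1, rfl⟩, k4, ?_⟩
  intro U x t ht hx
  constructor
  · rintro ⟨t', hU, ht', he⟩
    have h4 : t' = t := h3 _ _ ht'.1 ht.1 (he.symm.trans hx)
    rwa [h4] at hU
  · intro hU
    exact ⟨t, hU, ht, hx⟩

end Pool.Agent.NST
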