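import Pool.Agent.Lib.MP_2e4b78_lc.Mod.Stm

set_option autoImplicit false

/-!
# MP_2e4b78_lc : values of the names of sets
-/

namespace Pool.Agent.NST


open Pool.Agent.CR (V Nm nat natN Memf Eqf IsTransModelZFC mem_val)
open Pool.Agent.FW (Ev ev_fun ev_rel ev_sub)

theorem p_BG : S_BG := by
  intro ι ob hob a D
  refine ((ev_fun (π := pp) fun l => Ob.nm (bag (a l) (D l))).and
    ((ev_rel (π := pp) fun L y => ∃ i, L.head? = some (ob i) ∧ y = Ob.nm (a L.tail i)).and
    ((ev_rel (π := pp) fun L x => ∃ σ p i, L.head? = some (Ob.nm σ) ∧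
      L.tail.head? = some (Ob.cn p) ∧ x = ob i ∧ a L.tail.tail i = σ ∧
      p ∈ D L.tail.tail i).and ev_sub))).mono ?_
  rintro M G ⟨h1, h2, h3, h4⟩ l hl
  have hA : ∀ i, ob i ∈ M → a l i ∈ pp.H M := by
    intro i hi
    obtain ⟨x, hx, i', h5, h6⟩ := h2 (ob i :: l) (by
      intro x hx
      rcases List.mem_cons.1 hx with rfl | hx
      · exact hi
      · exact hl x hx) ⟨_, i, rfl, rfl⟩
    obtain rfl := hob (Option.some.inj h5)
    subst h6
    exact hx
  refine ⟨h1 l hl, hA, fun z => ?_⟩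
  unfold FW.Pr.vl
  rw [bag, mem_val]
  constructor
  · rintro ⟨⟨⟨p, i⟩, hp⟩, h5, h6, h7⟩
    change a l i ∈ pp.H M at h5
    change p ∈ G at h6
    change p ∈ D l i at hp
    obtain ⟨x, hx, σ, p', i', h8, h9, h10, h11, h12⟩ := h3 (Ob.nm (a l i) :: Ob.cn p :: l) (by
      intro x hx
      rcases List.mem_cons.1 hx with rfl | hx
      · exact h5
      · rcases List.mem_cons.1 hx with rfl | hx
        · exact h4 h6
        · exact hl x hx) ⟨_, a l i, p, i, rfl, rfl, rfl, rfl, hp⟩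
    have e1 : a l i = σ := Ob.nm.inj (Option.some.inj h8)
    have e2 : p = p' := Ob.cn.inj (Option.some.inj h9)
    subst h10
    refine ⟨i', hx, ⟨p, h6, ?_⟩, ?_⟩
    · rw [e2]
      exact h12
    · have h13 : a l i' = a l i := h11.trans e1.symm
      rw [h13]
      exact h7
  · rintro ⟨i, hi, ⟨p, h5, h6⟩, h7⟩
    exact ⟨⟨(p, i), h6⟩, hA i hi, h5, h7⟩

end Pool.Agent.NST
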