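import Pool.Agent.Lib.MP_2e4b78_lc.Mod.Stm

set_option autoImplicit false

open Cardinal Set Order
open scoped Ordinal

namespace Pool.Agent.NST

open Pool.Agent.MP2e4b78 (W1 W2 Lim IsNormalIdeal)
open Pool.Agent.CR (V Nm nat natN Memf Eqf IsTransModelZFC)
open Pool.Agent.FW (Ev)

open Classical in
/-- one step of the recursion -/
private noncomputable def ch_st (p0 : Cp) (N0 : Set Ob) (nxp : Cp → Set Ob → Cp)
    (nxN : Cp → Set Ob → Set Ob) (i : W1) (f : ∀ j, j < i → Cp × Set Ob) : Cp × Set Ob :=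
  if h : ∃ j, j < i ∧ i = Order.succ j then
    (nxp (f h.choose h.choose_spec.1).1 (f h.choose h.choose_spec.1).2,
      nxN (f h.choose h.choose_spec.1).1 (f h.choose h.choose_spec.1).2)
  else if i = ⊥ then (p0, N0)
  else (if h2 : ∃ q : Cp, (∀ j (hj : j < i), Ee q (f j hj).1) ∧
      ∀ ξ < q.p.top, ∃ j, ∃ hj : j < i, ξ < (f j hj).1.p.top then h2.choose else p0,
    {a | ∃ j, ∃ hj : j < i, a ∈ (f j hj).2})

private noncomputable def ch_F (p0 : Cp) (N0 : Set Ob) (nxp : Cp → Set Ob → Cp)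
    (nxN : Cp → Set Ob → Set Ob) (i : W1) : Cp × Set Ob :=
  (wellFounded_lt (α := W1)).fix (C := fun _ => Cp × Set Ob) (ch_st p0 N0 nxp nxN) i

private theorem ch_F_eq (p0 : Cp) (N0 : Set Ob) (nxp : Cp → Set Ob → Cp)
    (nxN : Cp → Set Ob → Set Ob) (i : W1) : ch_F p0 N0 nxp nxN i =
      ch_st p0 N0 nxp nxN i (fun j _ => ch_F p0 N0 nxp nxN j) := by
  unfold ch_F
  rw [WellFounded.fix_eq]

private theorem ch_F_bot (p0 : Cp) (N0 : Set Ob) (nxp : Cp → Set Ob → Cp)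
    (nxN : Cp → Set Ob → Set Ob) : ch_F p0 N0 nxp nxN ⊥ = (p0, N0) := by
  rw [ch_F_eq, ch_st, dif_neg (by
    rintro ⟨j, hj, -⟩
    exact not_lt_bot hj), if_pos rfl]

private theorem ch_F_succ (p0 : Cp) (N0 : Set Ob) (nxp : Cp → Set Ob → Cp)
    (nxN : Cp → Set Ob → Set Ob) (j : W1) : ch_F p0 N0 nxp nxN (Order.succ j) =
      (nxp (ch_F p0 N0 nxp nxN j).1 (ch_F p0 N0 nxp nxN j).2,
        nxN (ch_F p0 N0 nxp nxN j).1 (ch_F p0 N0 nxp nxN j).2) := by
  have h : ∃ k, k < Order.succ j ∧ Order.succ j = Order.succ k := ⟨j, Order.lt_succ j, rfl⟩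
  have e : h.choose = j := (Order.succ_injective h.choose_spec.2).symm
  rw [ch_F_eq, ch_st, dif_pos h, e]

private theorem ch_F_lim (p0 : Cp) (N0 : Set Ob) (nxp : Cp → Set Ob → Cp)
    (nxN : Cp → Set Ob → Set Ob) (i : W1) (hi : Lim i) :
    (ch_F p0 N0 nxp nxN i).2 = {a | ∃ j < i, a ∈ (ch_F p0 N0 nxp nxN j).2} ∧
    ((∃ q : Cp, (∀ j < i, Ee q (ch_F p0 N0 nxp nxN j).1) ∧
      ∀ ξ < q.p.top, ∃ j < i, ξ < (ch_F p0 N0 nxp nxN j).1.p.top) →
      (∀ j < i, Ee (ch_F p0 N0 nxp nxN i).1 (ch_F p0 N0 nxp nxN j).1) ∧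
      ∀ ξ < (ch_F p0 N0 nxp nxN i).1.p.top, ∃ j < i, ξ < (ch_F p0 N0 nxp nxN j).1.p.top) := by
  have h1 : ¬ ∃ j, j < i ∧ i = Order.succ j := by
    rintro ⟨j, hj, rfl⟩
    obtain ⟨k, hk1, hk2⟩ := hi.2 j hj
    exact absurd (Order.lt_succ_iff.1 hk2) (not_le.2 hk1)
  have h2 : i ≠ ⊥ := by
    rintro rfl
    obtain ⟨j, hj⟩ := hi.1
    exact not_lt_bot hj
  have key := ch_F_eq p0 N0 nxp nxN i
  rw [ch_st, dif_neg h1, if_neg h2] at key
  refine ⟨?_, fun hq => ?_⟩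
  · rw [key]
    ext a
    simp only [mem_setOf_eq, exists_prop]
  · have hq' : ∃ q : Cp, (∀ j (hj : j < i), Ee q (ch_F p0 N0 nxp nxN j).1) ∧
      ∀ ξ < q.p.top, ∃ j, ∃ hj : j < i, ξ < (ch_F p0 N0 nxp nxN j).1.p.top := by
      obtain ⟨q, a, b⟩ := hq
      exact ⟨q, a, fun ξ hξ => by
        obtain ⟨j, hj, h⟩ := b ξ hξ
        exact ⟨j, hj, h⟩⟩
    rw [dif_pos hq'] at key
    have e1 : (ch_F p0 N0 nxp nxN i).1 = hq'.choose := by rw [key]
    rw [e1]
    obtain ⟨a, b⟩ := hq'.choose_spec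
    exact ⟨a, fun ξ hξ => by
      obtain ⟨j, hj, h⟩ := b ξ hξ
      exact ⟨j, hj, h⟩⟩

theorem p_CH (lb : S_LB) (e1 : S_E1) : S_CH := by
  intro Φ hstep p0 N0 hN0
  obtain ⟨hrefl, htrans, -, -, -⟩ := e1
  haveI : Nonempty Cp := ⟨p0⟩
  choose! nxp nxN hs1 hs2 hs3 hs4 using hstep
  set F := ch_F p0 N0 nxp nxN with hF
  have Fb : F ⊥ = (p0, N0) := ch_F_bot _ _ _ _
  have Fs : ∀ j, F (Order.succ j) = (nxp (F j).1 (F j).2, nxN (F j).1 (F j).2) := fun j =>
    ch_F_succ _ _ _ _ j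
  have main : ∀ i : W1, (∀ j ≤ i, Ee (F i).1 (F j).1 ∧ (F j).2 ⊆ (F i).2) ∧ (F i).2.Countable ∧
      (Lim i → (∀ ξ < (F i).1.p.top, ∃ j < i, ξ < (F j).1.p.top)) := by
    intro i
    induction i using WellFoundedLT.induction with
    | _ i ih =>
      by_cases hl : Lim i
      · obtain ⟨k1, k2⟩ := ch_F_lim p0 N0 nxp nxN i hl
        rw [← hF] at k1 k2
        obtain ⟨j0, hj0⟩ := hl.1
        haveI : Nonempty (Iio i) := ⟨⟨j0, hj0⟩⟩
        haveI : Countable (Iio i) := (MP2e4b78.countable_Iio i).to_subtype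
        obtain ⟨q, hq1, hq2⟩ := lb (Iio i) (fun j => (F j.1).1)
          ((Cardinal.mk_le_aleph0).trans Cardinal.aleph0_lt_aleph_one.le)
          (fun a b hab => ((ih b.1 b.2).1 a.1 hab).1)
        obtain ⟨k3, k4⟩ := k2 ⟨q, fun j hj => hq1 ⟨j, hj⟩, fun ξ hξ => by
          obtain ⟨j, hj⟩ := hq2 ξ hξ
          exact ⟨j.1, j.2, hj⟩⟩
        refine ⟨fun j hj => ?_, ?_, fun _ => k4⟩
        · rcases hj.lt_or_eq with h | rfl
          · refine ⟨k3 j h, ?_⟩
            rw [k1]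
            intro a ha
            exact ⟨j, h, ha⟩
          · exact ⟨hrefl _, Subset.rfl⟩
        · rw [k1]
          have : {a | ∃ j < i, a ∈ (F j).2} = ⋃ j : Iio i, (F j.1).2 := by
            ext a
            simp only [mem_setOf_eq, mem_iUnion, Subtype.exists, mem_Iio, exists_prop]
          rw [this]
          exact countable_iUnion fun j => (ih j.1 j.2).2.1
      · rcases MP2e4b78.not_lim_eq hl with rfl | ⟨k, hk, rfl⟩
        · refine ⟨fun j hj => ?_, ?_, fun h => absurd h hl⟩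
          · rw [le_bot_iff.1 hj]
            exact ⟨hrefl _, Subset.rfl⟩
          · rw [Fb]
            exact hN0
        · obtain ⟨i1, i2, -⟩ := ih k hk
          have a1 := hs1 (F k).1 (F k).2 i2
          have a2 := hs2 (F k).1 (F k).2 i2
          have a3 := hs3 (F k).1 (F k).2 i2
          refine ⟨fun j hj => ?_, ?_, fun h => absurd h hl⟩
          · rcases hj.lt_or_eq with h | rfl
            · have h' := Order.lt_succ_iff.1 h
              obtain ⟨b1, b2⟩ := i1 j h'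
              rw [Fs]
              exact ⟨htrans _ _ _ a1 b1, b2.trans a2⟩
            · exact ⟨hrefl _, Subset.rfl⟩
          · rw [Fs]
            exact a3
  obtain ⟨q, hq, -⟩ := lb W1 (fun i => (F i).1) MP2e4b78.mk_W1.le
    (fun i j hij => ((main j).1 i hij).1)
  refine ⟨fun i => (F i).1, fun i => (F i).2, q, ?_, ?_, fun i => (main i).2.1,
    fun i j hij => (main j).1 i hij, fun i => ?_, fun i hi => ⟨(main i).2.2 hi, ?_⟩, hq⟩
  · simp only [Fb]
  · simp only [Fb]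
  · simp only [Fs]
    exact hs4 _ _ (main i).2.1
  · obtain ⟨k1, -⟩ := ch_F_lim p0 N0 nxp nxN i hi
    rw [← hF] at k1
    intro a ha
    simp only at ha
    rw [k1] at ha
    exact ha

end Pool.Agent.NST
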