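import Pool.Agent.Lib.MP_2e4b78_lc.Mod.Stm

set_option autoImplicit false

/-!
# MP_2e4b78_lc : closure properties of the set of objects
-/

open scoped Ordinal Cardinal

namespace Pool.Agent.NST

open Pool.Agent.MP2e4b78 (W1 W2 countable_Iio)
open Pool.Agent.FW (Ev)

private theorem cl_one {M : Set Ob} {a : Ob} (h : a ∈ M) : ∀ x ∈ [a], x ∈ M := by
  intro x hx
  rw [List.mem_singleton] at hx
  rw [hx]
  exact h

private theorem cl_two {M : Set Ob} {a b : Ob} (h : a ∈ M) (h' : b ∈ M) :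
    ∀ x ∈ [a, b], x ∈ M := by
  intro x hx
  rcases List.mem_cons.1 hx with rfl | hx
  · exact h
  · exact cl_one h' x hx

private theorem cl_nil {M : Set Ob} : ∀ x ∈ ([] : List Ob), x ∈ M :=
  fun _ hx => absurd hx List.not_mem_nil

/-- an enumeration of a set which contains the initial segment, if this is possible -/
private theorem cl_en (i : W1) : ∃ f : ℕ → W1, ∀ j < i, ∃ n, f n = j := by
  rcases (Set.Iio i).eq_empty_or_nonempty with h | h
  · exact ⟨fun _ => i, fun j hj => absurd (show j ∈ Set.Iio i from hj) (h ▸ Set.notMem_empty j)⟩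
  · obtain ⟨f, hf⟩ := (countable_Iio i).exists_eq_range h
    refine ⟨f, fun j hj => ?_⟩
    have : j ∈ Set.range f := hf ▸ (show j ∈ Set.Iio i from hj)
    exact this

private noncomputable def cl_e (i : W1) : ℕ → W1 := (cl_en i).choose

private theorem cl_e_spec (i : W1) : ∀ j < i, ∃ n, cl_e i n = j := (cl_en i).choose_spec

private def cl_f1 (l : List Ob) : Ob := match l with | [a, b] => Ob.pr a b | _ => Ob.no
private def cl_f2 (l : List Ob) : Ob := match l with | [Ob.pr a _] => a | _ => Ob.no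
private def cl_f3 (l : List Ob) : Ob := match l with | [Ob.pr _ b] => b | _ => Ob.no
private def cl_f4 (n : ℕ) (l : List Ob) : Ob := match l with | [Ob.sq f] => f n | _ => Ob.no
private def cl_f5 (l : List Ob) : Ob := match l with | [Ob.f1 F, Ob.w1 i] => F i | _ => Ob.no
private def cl_f6 (l : List Ob) : Ob := match l with | [Ob.nd t] => Ob.w1 t.len | _ => Ob.no
private noncomputable def cl_f7 (l : List Ob) : Ob :=
  match l with | [Ob.nd t, Ob.w1 β] => Ob.nd (t.res β) | _ => Ob.no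
private noncomputable def cl_f8 (n : ℕ) (l : List Ob) : Ob :=
  match l with | [Ob.w1 i] => Ob.w1 (cl_e i n) | _ => Ob.no
private def cl_f9 (l : List Ob) : Ob :=
  match l with | [Ob.gf g, Ob.nd t] => Ob.w1 (g t) | _ => Ob.no

theorem p_CL : S_CL := by
  refine ((FW.ev_fun (π := pp) cl_f1).and ((FW.ev_fun (π := pp) cl_f2).and
    ((FW.ev_fun (π := pp) cl_f3).and ((Ev.all fun n => FW.ev_fun (π := pp) (cl_f4 n)).and
    ((FW.ev_fun (π := pp) cl_f5).and ((Ev.all fun k => FW.ev_fun (π := pp) fun _ => Ob.kk k).and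
    ((FW.ev_fun (π := pp) fun _ => Ob.no).and ((FW.ev_fun (π := pp) cl_f6).and
    ((FW.ev_fun (π := pp) cl_f7).and ((FW.ev_fun (π := pp) fun _ => Ob.nd Nd.root).and
    ((FW.ev_fun (π := pp) fun _ => Ob.w1 ⊥).and
    ((Ev.all fun n => FW.ev_fun (π := pp) (cl_f8 n)).and
    (FW.ev_fun (π := pp) cl_f9))))))))))))).mono ?_
  rintro M - ⟨h1, h2, h3, h4, h5, h6, h7, h8, h9, h10, h11, h12, h13⟩
  refine ⟨fun a b => ⟨fun h => ⟨h2 _ (cl_one h), h3 _ (cl_one h)⟩,
      fun h => h1 _ (cl_two h.1 h.2)⟩,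
    fun f hf n => h4 n _ (cl_one hf), fun F i hF hi => h5 _ (cl_two hF hi),
    fun k => h6 k _ cl_nil, h7 _ cl_nil, fun t ht => h8 _ (cl_one ht),
    fun t β ht hβ => h9 _ (cl_two ht hβ), h10 _ cl_nil, h11 _ cl_nil, fun i j hi hj => ?_,
    fun g t hg ht => h13 _ (cl_two hg ht)⟩
  obtain ⟨n, hn⟩ := cl_e_spec i j hj
  rw [← hn]
  exact h12 n _ (cl_one hi)

end Pool.Agent.NST
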