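import Pool.Agent.Lib.MP_2e4b78_lc.Mod.Stm

set_option autoImplicit false

/-!
# MP_2e4b78_lc : the auxiliary order
-/

open Cardinal Set Order
open scoped Ordinal

namespace Pool.Agent.NST

open Pool.Agent.MP2e4b78 (W1 W2 Lim)

theorem p_E1 : S_E1 := by
  refine ⟨fun p => ⟨le_rfl, fun _ _ => Iff.rfl⟩, fun p q r h1 h2 => ?_, fun p r hr => ?_,
    fun r => ?_, fun p α S => ?_⟩
  · exact ⟨h1.1.trans h2.1, fun γ hγ => (h1.2 γ (hγ.trans h2.1.1)).trans (h2.2 γ hγ)⟩
  · refine ⟨⟨r, p.C ∪ {r.top}, ?_, Or.inr rfl, ?_, ?_⟩, rfl, hr, ?_⟩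
    · rintro γ (h | h)
      · exact (p.C_le γ h).trans hr.1
      · exact (show γ = r.top from h).le
    · rintro γ (h | h) hE
      · exact p.disj γ h ((hr.2.2.1 γ (p.C_le γ h)).1 hE)
      · have e : γ = r.top := h
        have := r.E_lt γ hE
        rw [e] at this
        exact lt_irrefl _ this
    · intro γ hγ hl hc
      rcases le_or_gt γ p.p.top with h | h
      · refine Or.inl (p.closed γ h hl fun y hy => ?_)
        obtain ⟨z, hz, h1, h2⟩ := hc y hy
        rcases hz with hz | hz
        · exact ⟨z, hz, h1, h2⟩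
        · have e : z = r.top := hz
          rw [e] at h2
          exact absurd (h2.trans_le hγ) (lt_irrefl _)
      · obtain ⟨z, hz, h1, h2⟩ := hc _ h
        rcases hz with hz | hz
        · exact absurd (h1.trans_le (p.C_le z hz)) (lt_irrefl _)
        · have e : z = r.top := hz
          rw [e] at h2
          exact absurd (h2.trans_le hγ) (lt_irrefl _)
    · intro γ hγ
      refine ⟨?_, fun h => Or.inl h⟩
      rintro (h | h)
      · exact h
      · have e : γ = r.top := h
        have e2 : γ = p.p.top := le_antisymm hγ (by rw [e]; exact hr.1)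
        rw [e2]
        exact p.top_mem
  · refine ⟨⟨r, {r.top}, ?_, rfl, ?_, ?_⟩, rfl⟩
    · intro γ h
      exact (show γ = r.top from h).le
    · intro γ h hE
      have e : γ = r.top := h
      have := r.E_lt γ hE
      rw [e] at this
      exact lt_irrefl _ this
    · intro γ hγ hl hc
      obtain ⟨y, hy⟩ := hl.1
      obtain ⟨z, hz, h1, h2⟩ := hc y hy
      have e : z = r.top := hz
      rw [e] at h2
      exact absurd (h2.trans_le hγ) (lt_irrefl _)
  · classical
    obtain ⟨b, hb⟩ := exists_gt (max α p.top)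
    have hα : α < b := (le_max_left _ _).trans_lt hb
    have hp : p.top < b := (le_max_right _ _).trans_lt hb
    refine ⟨⟨b, Function.update p.x p.top S, p.E, p.c, fun γ hγ => (p.E_lt γ hγ).trans hp, p.c1,
      p.c2, p.c3, p.free⟩, ⟨hp.le, fun ξ hξ => ?_, fun _ _ => Iff.rfl, fun _ _ => rfl⟩, hα, hp,
      p.top, hp, ?_⟩
    · exact Function.update_of_ne hξ.ne _ _
    · exact Function.update_self _ _ _

end Pool.Agent.NST
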