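import Pool.Agent.Lib.MP_2e4b78_lc.Mod.Stm

set_option autoImplicit false

/-!
# MP_2e4b78_lc : the names of the elements
-/

namespace Pool.Agent.NST

open Pool.Agent.CR (V Nm nat natN Memf Eqf IsTransModelZFC mem_val)
open Pool.Agent.FW (Ev ev_fun ev_rel ev_sub ev_ne)

/-- a name is not one of its own elements -/
private theorem el_irr {P : Type} (τ : Nm P) : ∀ b : τ.Ix, τ.fn b ≠ τ := by
  induction τ with
  | mk α A c ih =>
    intro b h
    have h1 : A b = Nm.mk α A c := h
    have h2 : ∀ b' : (Nm.mk α A c).Ix, (Nm.mk α A c).fn b' ≠ Nm.mk α A c := by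
      have h3 := ih b
      exact h1 ▸ h3
    exact h2 b h1

theorem el_eq (x : Nd) : elN x =
    .mk {z : Nd × Cn // WellOrderingRel z.1 x} (fun z => elN z.1.1) (fun z => z.1.2) := by
  conv_lhs => rw [elN, WellFounded.fix_eq]
  rfl

/-- smaller elements have names which are elements of the name -/
private theorem el_child {x y : Nd} (h : WellOrderingRel x y) (p : Cn) :
    ∃ b : (elN y).Ix, (elN y).fn b = elN x ∧ (elN y).cd b = p := by
  rw [el_eq y]
  exact ⟨⟨(x, p), h⟩, rfl, rfl⟩

theorem p_EL : S_EL := by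
  refine ((ev_ne (π := pp)).and
    (ev_rel fun l o => ∃ x : Nd, l = [Ob.nd x] ∧ o = Ob.nm (elN x))).mono ?_
  rintro M G ⟨⟨p, hp⟩, h2⟩
  have hto : ∀ x : Nd, Ob.nd x ∈ M → elN x ∈ pp.H M := by
    intro x hx
    obtain ⟨o, ho, x', e, e'⟩ := h2 [Ob.nd x] (by simpa using hx) ⟨_, x, rfl, rfl⟩
    obtain rfl : x = x' := by simpa using e
    subst e'
    exact ho
  refine ⟨hto, ?_⟩
  have key : ∀ x y : Nd, Ob.nd x ∈ M → WellOrderingRel x y →
      pp.vl M G (elN x) = pp.vl M G (elN y) → False := by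
    intro x y hx h hv
    obtain ⟨b, hb1, hb2⟩ := el_child h p
    have hmem : pp.vl M G (elN x) ∈ pp.vl M G (elN y) := by
      unfold FW.Pr.vl
      rw [mem_val]
      exact ⟨b, by rw [hb1]; exact hto x hx, by rw [hb2]; exact hp, by rw [hb1]⟩
    rw [hv] at hmem
    exact ZFSet.mem_irrefl _ hmem
  intro x y hx hy hv
  rcases trichotomous_of (WellOrderingRel : Nd → Nd → Prop) x y with h | h | h
  · exact (key x y hx h hv).elim
  · exact h
  · exact (key y x hy h hv.symm).elim

end Pool.Agent.NST
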