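import Pool.Agent.Lib.MP_2e4b78_lc.Mod.Stm

set_option autoImplicit false

open Cardinal Set Order
open scoped Ordinal

namespace Pool.Agent.NST

open Pool.Agent.MP2e4b78 (W1 W2 Lim IsNormalIdeal countable_Iic)

theorem p_FB : S_FB := by
  intro p ξ h hfree s
  have hB : (({⊥, Order.succ s.len} : Set W1) ∪ Iic s.dt ∪ ⋃ η ∈ s.mt, Iic (e η ξ)).Countable := by
    refine ((Set.toFinite _).countable.union (countable_Iic _)).union ?_
    exact Set.Countable.biUnion (s.st _ le_rfl).cnt fun η _ => countable_Iic _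
  obtain ⟨f, hf⟩ := Set.countable_iff_exists_subset_range.1 hB
  obtain ⟨g, hg⟩ : ∃ g : ℕ → W2, s.mt ⊆ range g := by
    have : Nonempty W2 := ⟨ξ⟩
    exact Set.countable_iff_exists_subset_range.1 (s.st _ le_rfl).cnt
  refine ⟨fun n => if n % 2 = 0 then {t | t.len = f (n / 2)} else
    {t | ∃ γ, γ ≤ ξ ∧ Tp p t.mt γ ∧ ∃ k ≥ h γ, p.c γ k = g (n / 2)}, ?_, ?_⟩
  · intro n t ht t' ht' hlt
    dsimp only at ht ht'
    split_ifs at ht ht' with hn
    · have h1 : t.len = f (n / 2) := ht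
      have h2 : t'.len = f (n / 2) := ht'
      exact absurd (Nd.len_lt hlt) (by rw [h1, h2]; exact lt_irrefl _)
    · obtain ⟨γ, -, hT, k, hk, hck⟩ := ht
      obtain ⟨γ', -, hT', k', hk', hck'⟩ := ht'
      have hγ : γ = γ' := by
        by_contra hne
        exact hfree γ hT.1 γ' hT'.1 hne k hk k' hk' (hck.trans hck'.symm)
      subst hγ
      obtain ⟨-, -, ζ, hζ, hall⟩ := (t'.st _ le_rfl).lt t.len (Nd.len_lt hlt)
      have hmt : t.mt = t'.m t.len := (hlt.le.2 _ le_rfl).2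
      obtain ⟨j, hj, hj'⟩ := hT.2.2 ζ (hT'.2.1 ζ hζ)
      rw [hmt] at hj'
      exact absurd hj (not_lt.2 (hall _ hj').le)
  · intro t hst hc
    have hd : t.d s.len = s.dt := (hst.2 _ le_rfl).1.symm
    have hm : t.m s.len = s.mt := (hst.2 _ le_rfl).2.symm
    have key1 : ∀ β, t.len = β → β ∈ (({⊥, Order.succ s.len} : Set W1) ∪ Iic s.dt ∪ ⋃ η ∈ s.mt, Iic (e η ξ)) →
        ∃ n : ℕ, t ∈ (fun n : ℕ => if n % 2 = 0 then {t : Nd | t.len = f (n / 2)} else
          {t | ∃ γ, γ ≤ ξ ∧ Tp p t.mt γ ∧ ∃ k ≥ h γ, p.c γ k = g (n / 2)}) n := by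
      intro β hβ hmem
      obtain ⟨n, hn⟩ := hf hmem
      refine ⟨2 * n, ?_⟩
      have e1 : (2 * n) % 2 = 0 := by omega
      have e2 : (2 * n) / 2 = n := by omega
      simp only [e1, e2, if_true]
      show t.len = f n
      rw [hβ, hn]
    rcases hc with h0 | h0 | h0
    · exact key1 _ h0 (Or.inl (Or.inl (Or.inl rfl)))
    · exact key1 _ h0 (Or.inl (Or.inl (Or.inr rfl)))
    · rcases h0 with h0 | ⟨η, hη, -, hle⟩ | ⟨γ, hγ, hT, k, hk, hmem⟩
      · rw [hd] at h0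
        exact key1 _ rfl (Or.inl (Or.inr h0.le))
      · rw [hm] at hη
        exact key1 _ rfl (Or.inr (mem_biUnion hη hle))
      · rw [hm] at hmem
        obtain ⟨n, hn⟩ := hg hmem
        refine ⟨2 * n + 1, ?_⟩
        have e1 : ¬ ((2 * n + 1) % 2 = 0) := by omega
        have e2 : (2 * n + 1) / 2 = n := by omega
        simp only [e1, e2, if_false]
        exact ⟨γ, hγ, hT, k, hk, hn.symm⟩

end Pool.Agent.NST
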