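import Pool.Agent.Lib.MP_2e4b78_lc.Mod.Stm

set_option autoImplicit false

/-!
# MP_2e4b78_lc : the theorem
-/

open Cardinal Set Order
open scoped Ordinal

namespace Pool.Agent.NST

open Pool.Agent.MP2e4b78 (W1 W2 Lim IsNormalIdeal)
open Pool.Agent.CR (V Nm nat natN Memf Eqf IsTransModelZFC)
open Pool.Agent.FW (Ev ev_cnt ev_zfc)

/-- the trivial condition -/
private noncomputable def fi_one : Cn where
  top := ⊥
  x := fun _ => ∅
  E := ∅
  c := fun _ _ => ⊥
  E_lt := fun _ h => absurd h (notMem_empty _)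
  c1 := fun _ h => absurd h (notMem_empty _)
  c2 := fun _ h => absurd h (notMem_empty _)
  c3 := fun _ h => absurd h (notMem_empty _)
  free := ⟨fun _ => 0, fun _ h => absurd h (notMem_empty _)⟩

theorem p_FI (ij : S_IJ) (io : S_IO) (wv : S_WV) (su : S_SU) (ii : S_II) (ni : S_NI)
    (av : S_AV) (ht : S_HT) (tr : S_TR) (po : S_PO) (ng : S_NG) : S_FI := by
  obtain ⟨M, G, -, -, h1, h2, hio, -, hsu, hii, hni, hav, hht, htr, hpo, hng⟩ :=
    ((ev_cnt (π := pp)).and ((ev_zfc (π := pp)).and (Ev.and io (Ev.and wv (Ev.and su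
      (Ev.and ii (Ev.and ni (Ev.and av (Ev.and ht (Ev.and tr
        (Ev.and po ng))))))))))).exists ∅ Set.countable_empty fi_one
  have _ := ij
  refine ⟨pp.N M G, Set.Countable.image ?_ _, h2, Wv M G, hio, fun I hI => ?_⟩
  · refine h1.preimage_of_injOn fun x _ y _ h => ?_
    have h : Ob.nm x = Ob.nm y := h
    simpa using h
  · obtain ⟨ν, hν, hνI⟩ := hI.mem
    have hνI : pp.vl M G ν = fam I := hνI
    have hp := hni ν hν I hνI hI
    obtain ⟨ht, h3, h4⟩ := hht ν hν
    refine ⟨Av ν M G, (hav ν hν).1, RR ν M G, ht, htr ν hν hp ht h3 h4, fun X hX => ?_⟩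
    obtain ⟨S, hS, rfl⟩ := hsu X hX
    have h5 := hii ν hν I hνI S hS
    constructor
    · intro h
      exact hpo ν hν ht h3 h4 S hS (h5.1.1 h)
    · intro h
      by_contra hn
      exact hng ν hν hp ht h4 S hS (h5.2.1 hn) h

end Pool.Agent.NST
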