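import Pool.Agent.Lib.MP_2e4b78_lc.Mod.Stm

set_option autoImplicit false

/-!
# MP_2e4b78_lc : fusion
-/

open Cardinal Set Order
open scoped Ordinal

namespace Pool.Agent.NST

open Pool.Agent.MP2e4b78 (W1 W2 Lim succ_lt_of_lim countable_Iio)
open Pool.Agent.CR (V Nm nat natN Memf Eqf IsTransModelZFC)

private theorem fu_chain {A : Set Nd} {ι : Type} [Countable ι] (D : ι → Set Nd)
    (hD : ∀ i, ∀ s ∈ A, ∃ s' ∈ A, s ≤ s' ∧ s' ∈ D i) (s0 : Nd) (hs0 : s0 ∈ A) :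
    ∃ s : ℕ → Nd, s 0 = s0 ∧ (∀ n, s n ∈ A) ∧ (∀ n, s n ≤ s (n + 1)) ∧ ∀ i, ∃ n, s n ∈ D i := by
  classical
  rcases isEmpty_or_nonempty ι with hi | hi
  · exact ⟨fun _ => s0, rfl, fun _ => hs0, fun _ => le_rfl, fun i => (hi.false i).elim⟩
  · obtain ⟨g, hg⟩ := exists_surjective_nat ι
    choose! nx h1 h2 h3 using hD
    let s : ℕ → Nd := fun n => Nat.rec s0 (fun n sn => nx (g n) sn) n
    have hA : ∀ n, s n ∈ A := by
      intro n
      induction n with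
      | zero => exact hs0
      | succ n ih => exact h1 _ _ ih
    refine ⟨s, rfl, hA, fun n => h2 _ _ (hA n), fun i => ?_⟩
    obtain ⟨n, rfl⟩ := hg i
    exact ⟨n + 1, h3 _ _ (hA n)⟩

theorem p_FU (ok : S_OK) (li : S_LI) : S_FU := by
  classical
  intro ν q N δ γ H α hα hαδ hext D hD s0 hs0 hok0 hlen0
  obtain ⟨okm, okr, oks, -⟩ := ok
  let A : Set Nd := {s | Ob.nd s ∈ N ∧ Ok ν q s ∧ s.len < α}
  have hcM : Countable (N2 N) := (H.cnt.preimage (fun a b h => Ob.od.inj h)).to_subtype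
  have hcδ := (countable_Iio δ).to_subtype
  have hcα := (countable_Iio α).to_subtype
  let J : Type := N2 N ⊕ Iio δ ⊕ Iio α ⊕ ℕ
  let D' : J → Set Nd := fun j => match j with
    | .inl x => {s | x.1 ∈ s.mt}
    | .inr (.inl β) => {s | β.1 < s.dt}
    | .inr (.inr (.inl β)) => {s | β.1 < s.len}
    | .inr (.inr (.inr i)) => D i
  have hD' : ∀ j, ∀ s ∈ A, ∃ s' ∈ A, s ≤ s' ∧ s' ∈ D' j := by
    rintro (x | β | β | i) s ⟨hs, hok, hsα⟩
    · obtain ⟨t', h1, h2, h3, h4⟩ := H.appx s hs x.1 x.2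
      exact ⟨t', ⟨h1, oks _ _ _ _ h2 h3 hok, by rw [h3]; exact succ_lt_of_lim hα hsα⟩, h2, h4⟩
    · obtain ⟨t', h1, h2, h3, h4⟩ := H.appb s hs β.1 β.2
      exact ⟨t', ⟨h1, oks _ _ _ _ h2 h3 hok, by rw [h3]; exact succ_lt_of_lim hα hsα⟩, h2, h4⟩
    · have hβ : Order.succ β.1 < α := succ_lt_of_lim hα β.2
      rcases le_or_gt s.len (Order.succ β.1) with h | h
      · obtain ⟨t', h1, h2, h3, h4⟩ := hext s hs hok _ hβ h
        exact ⟨t', ⟨h1, h2, by rw [h4]; exact hβ⟩, h3, by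
          show β.1 < t'.len
          rw [h4]
          exact Order.lt_succ _⟩
      · exact ⟨s, ⟨hs, hok, hsα⟩, le_rfl, (Order.lt_succ β.1).trans h⟩
    · obtain ⟨s', h1, h2, h3, h4, h5⟩ := hD i s hs hok hsα
      exact ⟨s', ⟨h1, h2, h3⟩, h4, h5⟩
  obtain ⟨s, e0, e1, e2, e3⟩ := fu_chain D' hD' s0 ⟨hs0, hok0, hlen0⟩
  have hM : N2 N = ⋃ n, (s n).mt := by
    apply Subset.antisymm
    · intro x hx
      obtain ⟨n, hn⟩ := e3 (.inl ⟨x, hx⟩)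
      exact mem_iUnion.2 ⟨n, hn⟩
    · exact iUnion_subset fun n => (H.dt _ (e1 n).1).2
  obtain ⟨t, h1, h2, h3, h4⟩ := li α δ hα (N2 N) s e2 (fun n => (e1 n).2.2)
    (fun x hx => e3 (.inr (.inr (.inl ⟨x, hx⟩)))) hM (fun n => (H.dt _ (e1 n).1).1)
    (fun β hβ => e3 (.inr (.inl ⟨β, hβ⟩)))
  refine ⟨t, e0 ▸ h2 0, h1, ?_, fun β hβ => ?_, fun i => ?_⟩
  · intro i hi hl
    rcases hi.lt_or_eq with hi' | hi'
    · rw [h1] at hi'
      obtain ⟨n, hn⟩ := e3 (.inr (.inr (.inl ⟨i, hi'⟩)))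
      have hn' : i ≤ (s n).len := le_of_lt hn
      have h5 := (e1 n).2.1 i hn' hl
      have h6 := (h2 n).2 i hn'
      rw [← h6.1, ← h6.2]
      exact h5
    · subst hi'
      have h5 : t.m t.len = N2 N := h4
      have h6 : t.d t.len = δ := h3
      rw [h5, h6]
      exact ⟨⟨γ, H.top⟩, H.good⟩
  · obtain ⟨n, hn⟩ := e3 (.inr (.inr (.inl ⟨β, hβ⟩)))
    exact ⟨s n, (e1 n).1, (e1 n).2.1, h2 n, hn⟩
  · obtain ⟨n, hn⟩ := e3 (.inr (.inr (.inr i)))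
    exact ⟨s n, (e1 n).1, (e1 n).2.1, h2 n, (e1 n).2.2, hn⟩

end Pool.Agent.NST
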