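import Pool.Agent.Lib.MP_2e4b78_lc.Mod.Stm

set_option autoImplicit false

/-!
# MP_2e4b78_lc : the selection (piece GS)
-/

open Cardinal Set Order
open scoped Ordinal

namespace Pool.Agent.NST

open Pool.Agent.MP2e4b78 (W1 W2 Lim not_lim_eq)

theorem p_GS : S_GS := by
  intro p ξ h
  have key : ∀ t : Nd, ∃ g : W1, g ≤ t.len ∧
      (t.len ≠ ⊥ → g < t.len) ∧ (Lim t.len → (∃ j < t.len, Qr p ξ h t j) → Qr p ξ h t g) ∧
      (¬ Lim t.len → t.len ≠ ⊥ → t.len = Order.succ g) := by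
    intro t
    by_cases hl : Lim t.len
    · by_cases hj : ∃ j < t.len, Qr p ξ h t j
      · obtain ⟨j, hj1, hj2⟩ := hj
        exact ⟨j, hj1.le, fun _ => hj1, fun _ _ => hj2, fun h' => absurd hl h'⟩
      · obtain ⟨j, hj1⟩ := hl.1
        exact ⟨j, hj1.le, fun _ => hj1, fun _ h' => absurd h' hj, fun h' => absurd hl h'⟩
    · rcases not_lim_eq hl with h0 | ⟨α, hα, he⟩
      · exact ⟨⊥, bot_le, fun h' => absurd h0 h', fun h' => absurd h' hl,
          fun _ h' => absurd h0 h'⟩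
      · exact ⟨α, hα.le, fun _ => hα, fun h' => absurd h' hl, fun _ _ => he⟩
  choose g hg using key
  exact ⟨g, hg⟩

end Pool.Agent.NST
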