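import Pool.Agent.Lib.MP_2e4b78_lc.Mod.Stm

set_option autoImplicit false

/-!
# MP_2e4b78_lc : families of choices of length ω₁ are decided
-/

open scoped Ordinal Cardinal

namespace Pool.Agent.NST

open Pool.Agent.MP2e4b78 (W1 W2)
open Pool.Agent.CR (V Nm nat natN Memf Eqf IsTransModelZFC)
open Pool.Agent.FW (Ev)

private theorem gw_card : #W1 ≤ ℵ_ 1 := Pool.Agent.MP2e4b78.mk_W1.le

private theorem gw_dense (e1 : S_E1) (gn : S_GN) (R : List Ob → W1 → Ob → Cn → Prop)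
    (hR : ∀ l n x p q, q ≤ p → R l n x p → R l n x q) (l : List Ob) (p : Cn) :
    ∃ q ≤ p, q ∈ {q : Cn | (∃ F : W1 → Ob, ∀ n, R l n (F n) q) ∨
      ∃ n, ∀ x, ∀ r ≤ q, ¬ R l n x r} := by
  by_cases h : ∃ n, ∃ q ≤ p, ∀ x, ∀ r ≤ q, ¬ R l n x r
  · obtain ⟨n, q, hq, hn⟩ := h
    exact ⟨q, hq, Or.inr ⟨n, hn⟩⟩
  · have h' : ∀ n, ∀ q ≤ p, ∃ r ≤ q, ∃ x, R l n x r := by
      intro n q hq
      by_contra hc
      apply h
      exact ⟨n, q, hq, fun x r hr hx => hc ⟨r, hr, x, hx⟩⟩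
    obtain ⟨p', rfl⟩ := e1.2.2.2.1 p
    obtain ⟨q, hq, F, hF⟩ := gn W1 Ob (R l) gw_card (fun n x p q => hR l n x p q) p' h'
    exact ⟨q.p, hq.1, Or.inl ⟨F, hF⟩⟩

theorem p_GW (e1 : S_E1) (gn : S_GN) : S_GW := by
  intro R hR
  refine ((FW.ev_dense (π := pp) (fun l => {q : Cn | (∃ F : W1 → Ob, ∀ n, R l n (F n) q) ∨
      ∃ n, ∀ x, ∀ r ≤ q, ¬ R l n x r})).and ((FW.ev_rel (π := pp) (fun l y => ∃ (s : Cn) (n : W1),
      l.head? = some (Ob.cn s) ∧ y = Ob.w1 n ∧ ∀ x, ∀ r ≤ s, ¬ R l.tail n x r)).and (FW.ev_dir.and (FW.ev_sub.and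
      (FW.ev_rel (fun l y => ∃ (s : Cn) (F : W1 → Ob), l.head? = some (Ob.cn s) ∧ y = Ob.f1 F ∧
        ∀ n, R l.tail n (F n) s)))))).mono ?_
  rintro M G ⟨h1, h5, h2, h3, h4⟩ l hl hx
  obtain ⟨s, hs, hs'⟩ := h1 l hl (gw_dense e1 gn R hR l)
  rcases hs' with ⟨F, hF⟩ | ⟨n, hn⟩
  · obtain ⟨y, hy, s', F', e1, e2, e3⟩ := h4 (Ob.cn s :: l) (by
      intro x hx
      rcases List.mem_cons.1 hx with rfl | hx
      · exact h3 hs
      · exact hl x hx) ⟨Ob.f1 F, s, F, rfl, rfl, hF⟩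
    have e4 : s = s' := by simpa using e1
    subst e4
    subst e2
    exact ⟨F', hy, s, hs, e3⟩
  · obtain ⟨y, hy, s', n', e1, e2, e3⟩ := h5 (Ob.cn s :: l) (by
      intro x hx
      rcases List.mem_cons.1 hx with rfl | hx
      · exact h3 hs
      · exact hl x hx) ⟨Ob.w1 n, s, n, rfl, rfl, hn⟩
    have e4 : s = s' := by simpa using e1
    subst e4
    subst e2
    obtain ⟨x, p, hp, hxp⟩ := hx n' hy
    obtain ⟨r, hr, hr1, hr2⟩ := h2 s hs p hp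
    exact absurd (hR _ _ _ _ _ hr2 hxp) (e3 x r hr1)

end Pool.Agent.NST
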