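import Pool.Agent.Lib.MP_2e4b78_lc.Mod.Stm

set_option autoImplicit false

/-!
# MP_2e4b78_lc : piece HL, countable hulls
-/

open Cardinal Set Order
open scoped Ordinal

namespace Pool.Agent.NST

open Pool.Agent.MP2e4b78 (W1 W2 Lim IsNormalIdeal mk_W1 countable_Iio countable_Iic
  exists_gt_of_countable exists_gt_of_mk_le isClub_closurePoints₁ cof_W1_ne exists_seq_W1)
open Pool.Agent.CR (V Nm nat natN Memf Eqf IsTransModelZFC)
open Pool.Agent.FW (Ev)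

/-- the requirements of one step -/
private structure hl_Phi (Rq : ℕ → List Ob → Cn → Ob → Prop) (ν : Nm Cn) (p : Cp) (N : Set Ob)
    (p' : Cp) (N' : Set Ob) : Prop where
  top : p.p.top < p'.p.top
  od : Ob.od p.p.top ∈ N'
  w1 : ∀ β, (∀ β' < β, Ob.w1 β' ∈ N) → Ob.w1 β ∈ N'
  dec : ∀ ξ ∈ N2 N, ξ < p'.p.top ∧ (In ν p'.p (p'.p.x ξ) ∨ Ou ν p'.p (p'.p.x ξ))
  req : ∀ k l, (∀ a ∈ l, a ∈ N) →
    (∃ b ∈ N', Rq k l p'.p b) ∨ ∀ r ≤ p'.p, ∀ b, ¬ Rq k l r b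

private theorem hl_w1_inj : Function.Injective Ob.w1 := fun a b h => by simpa using h

private theorem hl_od_inj : Function.Injective Ob.od := fun a b h => by simpa using h

private theorem hl_list {N : Set Ob} (l : List Ob) (hl : ∀ a ∈ l, a ∈ N) :
    ∃ l' : List N, l'.map Subtype.val = l := by
  induction l with
  | nil => exact ⟨[], rfl⟩
  | cons a l ih =>
    obtain ⟨l', h⟩ := ih fun b hb => hl b (List.mem_cons_of_mem _ hb)
    exact ⟨⟨a, hl a (List.mem_cons_self ..)⟩ :: l', by rw [List.map_cons, h]⟩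

private theorem hl_step (e1 : S_E1) (gn : S_GN) (ok : S_OK)
    (Rq : ℕ → List Ob → Cn → Ob → Prop)
    (hRq : ∀ k l p q b, q ≤ p → Rq k l p b → Rq k l q b) (ν : Nm Cn) (p : Cp) (N : Set Ob)
    (hN : N.Countable) :
    ∃ p' N', Ee p' p ∧ N ⊆ N' ∧ N'.Countable ∧ hl_Phi Rq ν p N p' N' := by
  classical
  obtain ⟨e1a, e1b, e1c, e1d, e1e⟩ := e1
  obtain ⟨-, -, -, -, okI, okO, -, -, -⟩ := ok
  -- the first extension
  have hN2 : (N2 N).Countable := hN.preimage hl_od_inj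
  obtain ⟨b, hb⟩ := exists_gt_of_mk_le (s := N2 N)
    ((le_aleph0_iff_set_countable.2 hN2).trans Cardinal.aleph0_lt_aleph_one.le)
  obtain ⟨q1, hq1, hq2, hq3, -⟩ := e1e p.p b ∅
  obtain ⟨p1, hp1, hp2⟩ := e1c p q1 hq1
  subst hp1
  -- the tasks
  have hcN : Countable N := hN.to_subtype
  obtain ⟨enc⟩ : Nonempty (Encodable (ℕ × List N)) := ⟨Encodable.ofCountable _⟩
  let R : ℕ ⊕ (N2 N) → Ob → Cn → Prop := fun a x r =>
    match a with
    | .inl n => ∀ k (l : List N), enc.decode n = some (k, l) →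
        Rq k (l.map Subtype.val) r x ∨ ∀ r' ≤ r, ∀ b, ¬ Rq k (l.map Subtype.val) r' b
    | .inr ξ => In ν r (p1.p.x ξ.1) ∨ Ou ν r (p1.p.x ξ.1)
  have hR1 : ∀ a x p q, q ≤ p → R a x p → R a x q := by
    intro a x p q hqp h
    cases a with
    | inl n =>
      intro k l hkl
      rcases h k l hkl with h1 | h1
      · exact Or.inl (hRq _ _ _ _ _ hqp h1)
      · exact Or.inr fun r' hr' => h1 r' (hr'.trans hqp)
    | inr ξ =>
      rcases h with h1 | h1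
      · exact Or.inl (okI _ _ _ _ hqp h1)
      · exact Or.inr (okO _ _ _ _ hqp h1)
  have hR2 : ∀ a, ∀ q ≤ p1.p, ∃ r ≤ q, ∃ x, R a x r := by
    intro a q _
    cases a with
    | inl n =>
      by_cases h : ∃ k l, enc.decode n = some (k, l) ∧ ∃ r ≤ q, ∃ b,
        Rq k (l.map Subtype.val) r b
      · obtain ⟨k, l, hkl, r, hr, b, hb⟩ := h
        refine ⟨r, hr, b, fun k' l' hkl' => ?_⟩
        rw [hkl] at hkl'
        obtain ⟨rfl, rfl⟩ := Prod.mk.injEq .. |>.mp (Option.some.inj hkl')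
        exact Or.inl hb
      · push Not at h
        exact ⟨q, le_rfl, Ob.no, fun k l hkl => Or.inr fun r' hr' b => h k l hkl r' hr' b⟩
    | inr ξ =>
      by_cases h : ∃ r ≤ q, In ν r (p1.p.x ξ.1)
      · obtain ⟨r, hr, h⟩ := h
        exact ⟨r, hr, Ob.no, Or.inl h⟩
      · push Not at h
        exact ⟨q, le_rfl, Ob.no, Or.inr h⟩
  have hA : #(ℕ ⊕ (N2 N)) ≤ ℵ_ 1 := by
    have : Countable (N2 N) := hN2.to_subtype
    exact (Cardinal.mk_le_aleph0).trans Cardinal.aleph0_lt_aleph_one.le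
  obtain ⟨p', hp', F, hF⟩ := gn (ℕ ⊕ (N2 N)) Ob R hA hR1 p1 hR2
  -- the countable ordinals
  have hβ : {β : W1 | ∀ β' < β, Ob.w1 β' ∈ N}.Countable := by
    obtain ⟨c, hc⟩ := exists_gt_of_countable (hN.preimage hl_w1_inj)
    refine (countable_Iic c).mono fun β hβ => ?_
    by_contra h
    have h1 : Ob.w1 c ∈ N := hβ c (not_le.1 h)
    exact absurd (hc c h1) (lt_irrefl c)
  refine ⟨p', N ∪ (range (fun n => F (.inl n)) ∪ ({Ob.od p.p.top} ∪
    Ob.w1 '' {β : W1 | ∀ β' < β, Ob.w1 β' ∈ N})), e1b _ _ _ hp' hp2, subset_union_left,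
    hN.union ((countable_range _).union ((countable_singleton _).union (hβ.image _))), ?_⟩
  have hle : p'.p ≤ p1.p := hp'.1
  have htop : p1.p.top ≤ p'.p.top := hle.1
  refine ⟨hq3.trans_le htop, Or.inr (Or.inr (Or.inl rfl)), fun β hβ => Or.inr (Or.inr (Or.inr
    ⟨β, hβ, rfl⟩)), fun ξ hξ => ?_, fun k l hl => ?_⟩
  · have h1 : ξ < p1.p.top := (hb ξ hξ).trans hq2
    refine ⟨h1.trans_le htop, ?_⟩
    rw [hle.2.1 ξ h1]
    exact hF (.inr ⟨ξ, hξ⟩)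
  · obtain ⟨l', rfl⟩ := hl_list l hl
    rcases hF (.inl (enc.encode (k, l'))) k l' (enc.encodek _) with h1 | h1
    · exact Or.inl ⟨_, Or.inr (Or.inl ⟨_, rfl⟩), h1⟩
    · exact Or.inr h1

private theorem hl_enum (NN : W1 → Set Ob) (hc : ∀ i, (NN i).Countable) :
    ∃ u : W1 → Ob, ∀ i, ∀ x ∈ NN i, ∃ j, u j = x := by
  have h1 : ∀ i, ∃ f : ℕ → Ob, insert Ob.no (NN i) = range f := fun i =>
    ((hc i).insert Ob.no).exists_eq_range (insert_nonempty _ _)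
  choose f hf using h1
  have h2 : #(W1 × ℕ) ≤ #W1 := by
    rw [Cardinal.mk_prod, Cardinal.lift_id, Cardinal.lift_id, mk_W1, Cardinal.mk_nat]
    rw [Cardinal.mul_eq_left (Cardinal.aleph0_le_aleph 1) (Cardinal.aleph0_le_aleph 1)
      Cardinal.aleph0_ne_zero]
  obtain ⟨g⟩ := Cardinal.le_def _ _ |>.1 h2
  refine ⟨fun j => f (Function.invFun g j).1 (Function.invFun g j).2, fun i x hx => ?_⟩
  have h3 : x ∈ range (f i) := by
    rw [← hf i]
    exact Or.inr hx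
  obtain ⟨n, hn⟩ := h3
  refine ⟨g (i, n), ?_⟩
  beta_reduce
  rw [Function.leftInverse_invFun g.injective (i, n)]
  exact hn

theorem p_HL (e1 : S_E1) (ld : S_LD) (gn : S_GN) (ch : S_CH) (ok : S_OK) : S_HL := by
  classical
  intro Rq hRq ν p hnorm S hS A₀ hA₀
  obtain ⟨p0, hp0⟩ := e1.2.2.2.1 p
  obtain ⟨P, NN, qi, hP0, hN0, hc, hmono, hsucc, hlim, hqi⟩ := ch (hl_Phi Rq ν)
    (fun p N hN => hl_step e1 gn ok Rq hRq ν p N hN) p0 A₀ hA₀
  obtain ⟨-, -, -, -, okI, okO, -, -, -⟩ := ok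
  have hqp : qi.p ≤ p := by
    have := (hqi ⊥).1
    rw [hP0, hp0] at this
    exact this
  have hI : IsNormalIdeal {X : Set W1 | In ν qi.p X} := hnorm qi.p hqp
  have hSI : S ∉ {X : Set W1 | In ν qi.p X} := hS qi.p hqp
  -- the countable ordinals
  have hw : ∀ β, Ob.w1 β ∈ NN (Order.succ β) := by
    intro β
    induction β using WellFoundedLT.induction with
    | _ β ih =>
      exact (hsucc β).w1 β fun β' hβ' => (hmono _ _ (Order.succ_le_of_lt hβ')).2 (ih β' hβ')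
  obtain ⟨u, hu⟩ := hl_enum NN hc
  have hg : ∀ i, ∃ g, (∀ x ∈ NN i, ∃ j < g, u j = x) ∧ ∀ β, Ob.w1 β ∈ NN i → β < g := by
    intro i
    have hj : ∀ x, ∃ j, x ∈ NN i → u j = x := by
      intro x
      by_cases hx : x ∈ NN i
      · obtain ⟨j, hj⟩ := hu i x hx
        exact ⟨j, fun _ => hj⟩
      · exact ⟨⊥, fun h => absurd h hx⟩
    choose J hJ using hj
    obtain ⟨g, hg⟩ := exists_gt_of_countable
      (((hc i).image J).union ((hc i).preimage hl_w1_inj))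
    refine ⟨g, fun x hx => ⟨J x, hg _ (Or.inl ⟨x, hx, rfl⟩), hJ x hx⟩, fun β hβ => ?_⟩
    exact hg _ (Or.inr hβ)
  choose g hg1 hg2 using hg
  -- the bad set
  let Z : W1 → Set W1 := fun j =>
    {β' | ∃ ξ, u j = Ob.od ξ ∧ In ν qi.p (qi.p.x ξ) ∧ β' ∈ qi.p.x ξ}
  have hZ : ∀ j, Z j ∈ {X : Set W1 | In ν qi.p X} := by
    intro j
    by_cases h : ∃ ξ, u j = Ob.od ξ ∧ In ν qi.p (qi.p.x ξ)
    · obtain ⟨ξ, hξ, hξ2⟩ := h
      refine hI.subset_mem _ _ hξ2 ?_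
      rintro β' ⟨ξ', hξ', -, hβ'⟩
      rw [hξ] at hξ'
      rwa [hl_od_inj hξ']
    · refine hI.subset_mem _ _ hI.empty_mem ?_
      rintro β' ⟨ξ', hξ', h2, _⟩
      exact absurd ⟨ξ', hξ', h2⟩ h
  have hclub : IsClub ({δ : W1 | ∀ x < δ, g x < δ} ∩ {δ : W1 | ∀ x < δ, Order.succ x < δ}) :=
    (isClub_closurePoints₁ g).inter cof_W1_ne (isClub_closurePoints₁ _)
  obtain ⟨δ, hδS, ⟨hδ1, hδ2⟩, hδY⟩ := hI.nonempty_of_not_mem hSI hclub
    (hI.union_mem _ _ (hI.diag_mem Z hZ) (hI.singleton_mem ⊥))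
  have hδY1 : ¬ ∃ α < δ, δ ∈ Z α := fun h => hδY (Or.inl h)
  have hδ0 : δ ≠ ⊥ := fun h => hδY (Or.inr h)
  have hδb : ⊥ < δ := bot_lt_iff_ne_bot.2 hδ0
  have hδl : Lim δ :=
    ⟨⟨⊥, hδb⟩, fun j hj => ⟨Order.succ j, Order.lt_succ j, hδ2 j hj⟩⟩
  obtain ⟨hl1, hl2⟩ := hlim δ hδl
  -- the tops
  have htop : ∀ i j, i < j → (P i).p.top < (P j).p.top := fun i j hij =>
    (hsucc i).top.trans_le (hmono _ _ (Order.succ_le_of_lt hij)).1.1.1
  obtain ⟨b, hb1, hb2, hb3⟩ := exists_seq_W1 hδl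
  obtain ⟨q, hq1, hq2, hq3, hq4, hq5⟩ := ld (P δ).p (fun n => (P (b n)).p.top)
    (fun m n hmn => htop _ _ (hb2 hmn)) (fun n => htop _ _ (hb1 n)) (fun y hy => by
      obtain ⟨j, hj, hyj⟩ := hl1 y hy
      obtain ⟨n, hn⟩ := hb3 j hj
      exact ⟨n, hyj.trans (htop _ _ hn)⟩)
  have hqle : ∀ i < δ, q ≤ (P i).p := fun i hi =>
    hq1 _ (hmono _ _ hi.le).1.1 (htop _ _ hi)
  have hmem : ∀ i < δ, NN (Order.succ i) ⊆ NN δ := fun i hi =>
    (hmono _ _ (Order.succ_le_of_lt hi)).2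
  have hlist : ∀ l : List Ob, (∀ a ∈ l, a ∈ NN δ) → ∃ i < δ, ∀ a ∈ l, a ∈ NN i := by
    intro l
    induction l with
    | nil => exact fun _ => ⟨⊥, hδb, fun a ha => absurd ha (by simp)⟩
    | cons a l ih =>
      intro h
      obtain ⟨i, hi, hi2⟩ := ih fun b hb => h b (List.mem_cons_of_mem _ hb)
      obtain ⟨j, hj, hj2⟩ := hl2 a (h a (List.mem_cons_self ..))
      refine ⟨max i j, max_lt hi hj, fun c hcm => ?_⟩
      rcases List.mem_cons.1 hcm with rfl | hcm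
      · exact (hmono _ _ (le_max_right i j)).2 hj2
      · exact (hmono _ _ (le_max_left i j)).2 (hi2 c hcm)
  refine ⟨q, NN δ, δ, (P δ).p.top, ?_, hc δ, ?_, hδS, hδl, fun β => ⟨?_, ?_⟩, ⟨hq3, ?_, ?_⟩, ?_, ?_⟩
  · have := hqle ⊥ hδb
    rw [hP0, hp0] at this
    exact this
  · rw [← hN0]
    exact (hmono _ _ bot_le).2
  · intro hβ
    obtain ⟨j, hj, hj2⟩ := hl2 _ hβ
    exact (hg2 j β hj2).trans (hδ1 j hj)
  · intro hβ
    exact hmem β hβ (hw β)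
  · intro η hη
    obtain ⟨i, hi, hi2⟩ := hl2 _ hη
    exact ((hsucc i).dec η hi2).1.trans (htop _ _ (hδ2 i hi))
  · intro y hy
    rw [hq4]
    obtain ⟨j, hj, hyj⟩ := hl1 y hy
    obtain ⟨n, hn⟩ := hb3 j hj
    exact ⟨n, hyj.trans (htop _ _ hn), hmem _ (hb1 n) (hsucc (b n)).od⟩
  · intro ξ hξ hδξ
    obtain ⟨i, hi, hi2⟩ := hl2 _ hξ
    obtain ⟨h1, h2⟩ := (hsucc i).dec ξ hi2
    have e2 : q.x ξ = (P (Order.succ i)).p.x ξ := (hqle _ (hδ2 i hi)).2.1 ξ h1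
    have e3 : qi.p.x ξ = (P (Order.succ i)).p.x ξ := (hqi (Order.succ i)).1.2.1 ξ h1
    rcases h2 with h2 | h2
    · exfalso
      have h3 : In ν qi.p (qi.p.x ξ) := by
        rw [e3]
        exact okI _ _ _ _ (hqi (Order.succ i)).1 h2
      obtain ⟨j, hj, hj2⟩ := hg1 i _ hi2
      exact hδY1 ⟨j, hj.trans (hδ1 i hi), ξ, hj2, h3, by rw [e3, ← e2]; exact hδξ⟩
    · rw [e2]
      exact okO _ _ _ _ (hqle _ (hδ2 i hi)) h2
  · intro k l hl
    obtain ⟨i, hi, hi2⟩ := hlist l hl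
    rcases (hsucc i).req k l hi2 with ⟨c, hc1, hc2⟩ | h
    · exact Or.inl ⟨c, hmem i hi hc1, hRq _ _ _ _ _ (hqle _ (hδ2 i hi)) hc2⟩
    · exact Or.inr fun r hr => h r (hr.trans (hqle _ (hδ2 i hi)))

end Pool.Agent.NST
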