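import Pool.Agent.Lib.MP_2e4b78_lc.Mod.Stm

set_option autoImplicit false

open Cardinal Set Order
open scoped Ordinal

namespace Pool.Agent.NST

open Pool.Agent.MP2e4b78 (W1 W2 Lim IsNormalIdeal)
open Pool.Agent.CR (V Nm nat natN Memf Eqf IsTransModelZFC)
open Pool.Agent.FW (Ev)

private noncomputable def hu_R (Rq : ℕ → List Ob → Cn → Ob → Prop) (ap : Nd → W2 → W1 → Nd)
    (enu : Nd → ℕ → W2) : ℕ → List Ob → Cn → Ob → Prop
  | 0, l, _, b => ∃ t : Nd, l = [.nd t] ∧ b = .w1 t.dt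
  | 1, l, _, b => ∃ (t : Nd) (y : W2), l = [.nd t, .od y] ∧ b = .nd (ap t y ⊥)
  | 2, l, _, b => ∃ (t : Nd) (β : W1), l = [.nd t, .w1 β] ∧ b = .nd (ap t ⊥ β)
  | 3, l, _, b => ∃ (t : Nd) (β : W1), l = [.nd t, .w1 β] ∧ b = .nd (t.res β)
  | n + 4, l, p, b => (n % 2 = 0 ∧ ∃ t : Nd, l = [.nd t] ∧ b = .od (enu t (n / 2))) ∨
      (n % 2 = 1 ∧ Rq (n / 2) l p b)

theorem p_HU (ok : S_OK) (hl : S_HL) (ap : S_AP) : S_HU := by
  intro Rq hmono ν p hN S hS A₀ hA₀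
  choose ap hap1 hap2 hap3 hap4 using ap
  have henu : ∀ t : Nd, ∃ f : ℕ → W2, t.mt.Nonempty → t.mt = range f := by
    intro t
    by_cases h : t.mt.Nonempty
    · obtain ⟨f, hf⟩ := (t.st _ le_rfl).cnt.exists_eq_range h
      exact ⟨f, fun _ => hf⟩
    · exact ⟨fun _ => ⊥, fun h' => absurd h' h⟩
  choose enu henu using henu
  obtain ⟨q, N, δ, γ, hq, hNc, hAN, hδ, hlim, hw1, hTp, hgood, hcl⟩ :=
    hl (hu_R Rq ap enu) (by
      intro k l p q b hqp h
      rcases k with _ | _ | _ | _ | n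
      · exact h
      · exact h
      · exact h
      · exact h
      · rcases h with h | ⟨h1, h2⟩
        · exact Or.inl h
        · exact Or.inr ⟨h1, hmono _ _ _ _ _ hqp h2⟩) ν p hN S hS A₀ hA₀
  -- requests which do not depend on the condition
  have c0 : ∀ t, Ob.nd t ∈ N → Ob.w1 t.dt ∈ N := by
    intro t ht
    rcases hcl 0 [.nd t] (by simpa using ht) with ⟨b, hb, t', e1, e2⟩ | h
    · simp only [List.cons.injEq, Ob.nd.injEq, and_true] at e1
      subst e1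
      exact e2 ▸ hb
    · exact (h q le_rfl _ ⟨t, rfl, rfl⟩).elim
  have c1 : ∀ t y, Ob.nd t ∈ N → Ob.od y ∈ N → Ob.nd (ap t y ⊥) ∈ N := by
    intro t y ht hy
    rcases hcl 1 [.nd t, .od y] (by
      intro a ha
      simp only [List.mem_cons, List.not_mem_nil, or_false] at ha
      rcases ha with rfl | rfl
      · exact ht
      · exact hy) with ⟨b, hb, t', y', e1, e2⟩ | h
    · simp only [List.cons.injEq, Ob.nd.injEq, Ob.od.injEq, and_true] at e1
      obtain ⟨rfl, rfl⟩ := e1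
      exact e2 ▸ hb
    · exact (h q le_rfl _ ⟨t, y, rfl, rfl⟩).elim
  have c2 : ∀ t β, Ob.nd t ∈ N → Ob.w1 β ∈ N → Ob.nd (ap t ⊥ β) ∈ N := by
    intro t β ht hy
    rcases hcl 2 [.nd t, .w1 β] (by
      intro a ha
      simp only [List.mem_cons, List.not_mem_nil, or_false] at ha
      rcases ha with rfl | rfl
      · exact ht
      · exact hy) with ⟨b, hb, t', y', e1, e2⟩ | h
    · simp only [List.cons.injEq, Ob.nd.injEq, Ob.w1.injEq, and_true] at e1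
      obtain ⟨rfl, rfl⟩ := e1
      exact e2 ▸ hb
    · exact (h q le_rfl _ ⟨t, β, rfl, rfl⟩).elim
  have c3 : ∀ t β, Ob.nd t ∈ N → Ob.w1 β ∈ N → Ob.nd (t.res β) ∈ N := by
    intro t β ht hy
    rcases hcl 3 [.nd t, .w1 β] (by
      intro a ha
      simp only [List.mem_cons, List.not_mem_nil, or_false] at ha
      rcases ha with rfl | rfl
      · exact ht
      · exact hy) with ⟨b, hb, t', y', e1, e2⟩ | h
    · simp only [List.cons.injEq, Ob.nd.injEq, Ob.w1.injEq, and_true] at e1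
      obtain ⟨rfl, rfl⟩ := e1
      exact e2 ▸ hb
    · exact (h q le_rfl _ ⟨t, β, rfl, rfl⟩).elim
  have c4 : ∀ t n, Ob.nd t ∈ N → Ob.od (enu t n) ∈ N := by
    intro t n ht
    have h2 : (2 * n) / 2 = n := by omega
    rcases hcl (2 * n + 4) [.nd t] (by simpa using ht) with ⟨b, hb, h | ⟨h, -⟩⟩ | h
    · obtain ⟨-, t', e1, e2⟩ := h
      simp only [List.cons.injEq, Ob.nd.injEq, and_true] at e1
      subst e1
      rw [h2] at e2
      exact e2 ▸ hb
    · omega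
    · refine (h q le_rfl (.od (enu t n)) (Or.inl ⟨by omega, t, rfl, ?_⟩)).elim
      rw [h2]
  have hdt : ∀ t, Ob.nd t ∈ N → t.dt < δ := fun t ht => (hw1 _).1 (c0 t ht)
  refine ⟨q, N, δ, γ, hq, hAN, hδ, ⟨hNc, hlim, hw1, hTp, hgood, fun t ht => ⟨hdt t ht, ?_⟩,
    fun t ht y hy => ⟨_, c1 t y ht hy, hap1 _ _ _, hap2 _ _ _, hap3 _ _ _⟩,
    fun t ht β hβ => ⟨_, c2 t β ht ((hw1 _).2 hβ), hap1 _ _ _, hap2 _ _ _, hap4 _ _ _⟩,
    fun t ht β hβ => c3 t β ht ((hw1 _).2 ?_)⟩, ?_⟩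
  · intro η hη
    rw [henu t ⟨η, hη⟩] at hη
    obtain ⟨n, rfl⟩ := hη
    exact c4 t n ht
  · exact (hβ.trans (Nd.le_d _ le_rfl)).trans_lt (hdt t ht)
  · intro k l hlN
    have h2 : (2 * k + 1) / 2 = k := by omega
    rcases hcl (2 * k + 1 + 4) l hlN with ⟨b, hb, ⟨h, -⟩ | ⟨-, h⟩⟩ | h
    · omega
    · rw [h2] at h
      exact Or.inl ⟨b, hb, h⟩
    · refine Or.inr fun r hr b hb => h r hr b (Or.inr ⟨by omega, ?_⟩)
      rw [h2]
      exact hb

end Pool.Agent.NST
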