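import Pool.Agent.Lib.MP_2e4b78_lc.Mod.Stm

set_option autoImplicit false

/-!
# MP_2e4b78_lc : truth for In and Ou
-/

open Set Order

namespace Pool.Agent.NST

open Pool.Agent.MP2e4b78 (W1 W2 Lim)
open Pool.Agent.CR (V Nm nat natN Memf Eqf IsTransModelZFC)
open Pool.Agent.FW (Ev ev_dense ev_dir ev_mem)

private def ii_D (l : List Ob) : Set Cn :=
  {p | ∀ ν S, l = [.nm ν, .s1 S] → In ν p S ∨ Ou ν p S}

private theorem ii_dense (ν : Nm Cn) (S : Set W1) (p : Cn) :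
    ∃ q ≤ p, q ∈ ii_D [.nm ν, .s1 S] := by
  by_cases h : ∃ q ≤ p, In ν q S
  · obtain ⟨q, hq, hq'⟩ := h
    refine ⟨q, hq, fun ν' S' e => ?_⟩
    injection e with e1 e
    injection e with e2 _
    injection e1 with e1
    injection e2 with e2
    subst e1 e2
    exact Or.inl hq'
  · refine ⟨p, le_rfl, fun ν' S' e => ?_⟩
    injection e with e1 e
    injection e with e2 _
    injection e1 with e1
    injection e2 with e2
    subst e1 e2
    exact Or.inr fun q hq hq' => h ⟨q, hq, hq'⟩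

theorem p_II (ij : S_IJ) (wv : S_WV) : S_II := by
  refine ((wv.and (ev_mem (π := pp))).and ((ev_dense (π := pp) ii_D).and
    (ev_dir (π := pp)))).mono ?_
  rintro M G ⟨⟨hwv, hmem⟩, hden, hdir⟩ ν hν I hI S hS
  obtain ⟨h1, h2⟩ := hwv.2.2.1 S hS
  have h3 : im1 M G S ∈ I ↔ ∃ p ∈ G, In ν p S := by
    rw [← ij.2.2.2.1 _ I (im1 M G S), ← hI, ← h2]
    exact hmem _ h1 _ hν
  refine ⟨h3, ?_, ?_⟩
  · intro h4
    obtain ⟨s, hs, hs'⟩ := hden [.nm ν, .s1 S] (by
      intro x hx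
      simp only [List.mem_cons, List.not_mem_nil, or_false] at hx
      rcases hx with rfl | rfl
      · exact hν
      · exact hS) (ii_dense ν S)
    rcases hs' ν S rfl with h5 | h5
    · exact absurd (h3.2 ⟨s, hs, h5⟩) h4
    · exact ⟨s, hs, h5⟩
  · rintro ⟨p, hp, hou⟩ h4
    obtain ⟨q, hq, hin⟩ := h3.1 h4
    obtain ⟨r, hr, hr1, hr2⟩ := hdir p hp q hq
    exact hou r hr1 (Pool.Agent.CR.Memf_mono hin hr2)

end Pool.Agent.NST
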