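import Pool.Agent.Lib.MP_2e4b78_lc.Mod.Stm

set_option autoImplicit false

/-!
# MP_2e4b78_lc : the first uncountable ordinal of the model
-/

open Cardinal Set Order
open scoped Ordinal

namespace Pool.Agent.NST

open Pool.Agent.MP2e4b78 (W1 W2 Lim countable_Iio)
open Pool.Agent.CR (V Nm nat natN Memf)
open Pool.Agent.FW (Ev ev_rel ev_zfc ev_natN ev_opN ev_ne)

private theorem io_nat_inj {m n : ℕ} (h : nat m = nat n) : m = n := by
  wlog hmn : m ≤ n generalizing m n with H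
  · exact (H h.symm (le_of_not_ge hmn)).symm
  rcases hmn.eq_or_lt with h1 | h1
  · exact h1
  exfalso
  have key : ∀ k, nat m ∈ nat (m + 1 + k) := by
    intro k
    induction k with
    | zero => exact ZFSet.mem_insert _ _
    | succ k ih => exact ZFSet.mem_insert_of_mem _ ih
  obtain ⟨k, rfl⟩ := Nat.exists_eq_add_of_le (Nat.succ_le_of_lt h1)
  have h2 := key k
  have h3 : nat m ∈ nat m := by
    rw [Nat.succ_eq_add_one] at h
    rwa [← h] at h2
  exact ZFSet.mem_irrefl _ h3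

/-- the name of the pair of `n` and the `n`-th ordinal of a sequence -/
private noncomputable def io_a (l : List Ob) (n : ℕ) : Nm Cn :=
  match l with
  | [.sq f] => match f n with
    | .w1 j => FW.opN (natN Cn n) (oN j)
    | _ => Nm.emp
  | _ => Nm.emp

theorem p_IO (bg : S_BG) (cl : S_CL) (on : S_ON) (wv : S_WV) (sq : S_SQ) : S_IO := by
  have h1 := bg ℕ Ob.kk (fun a b h => by simpa using h) io_a (fun _ _ => univ)
  have h2 := ev_rel (π := pp) (fun L x => ∃ i f, L = [.w1 i] ∧ x = .sq f ∧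
    (∀ n, ∃ j < i, f n = .w1 j) ∧ ∀ j < i, ∃ n, f n = .w1 j)
  have h3 := sq (fun _ i => oN i)
  refine (h1.and (h2.and (h3.and (cl.and (on.and (wv.and (ev_zfc.and (ev_natN.and
    (ev_opN.and ev_ne))))))))).mono ?_
  rintro M G ⟨h1, h2, h3, ⟨_, c2, _, c4, _⟩, ⟨o1, o2, o3, _⟩, ⟨w1, w2, _⟩, hz, hn, hp, hne⟩
  refine ⟨w1, ?_, ?_, ?_, ?_⟩
  · intro x hx y hy
    obtain ⟨i, hi, rfl⟩ := (w2 x).1 hx
    obtain ⟨j, _, hj, rfl⟩ := (o2 i hi y).1 hy
    exact (w2 _).2 ⟨j, hj, rfl⟩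
  · intro x hx y hy z hz'
    obtain ⟨i, hi, rfl⟩ := (w2 x).1 hx
    obtain ⟨j, hji, hj, rfl⟩ := (o2 i hi y).1 hy
    obtain ⟨k, hkj, hk, rfl⟩ := (o2 j hj z).1 hz'
    exact (o2 i hi _).2 ⟨k, hkj.trans hji, hk, rfl⟩
  · intro x hx
    have hxN : x ∈ pp.N M G := hz.transitive _ w1 x hx
    obtain ⟨i, hi, rfl⟩ := (w2 x).1 hx
    by_cases he : (Iio i).Nonempty
    · obtain ⟨en, hen⟩ := (countable_Iio i).exists_eq_range he
      obtain ⟨b, hb, i', f, e1, rfl, hf1, hf2⟩ := h2 [.w1 i] (by simpa using hi)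
        ⟨.sq (fun n => .w1 (en n)), i, fun n => .w1 (en n), rfl, rfl,
          fun n => ⟨en n, by
            have : en n ∈ Iio i := hen ▸ mem_range_self n
            exact this, rfl⟩, fun j hj => by
            have : j ∈ range en := hen ▸ (mem_Iio.2 hj)
            obtain ⟨n, rfl⟩ := this
            exact ⟨n, rfl⟩⟩
      simp only [List.cons.injEq, Ob.w1.injEq, and_true] at e1
      subst e1
      obtain ⟨b1, _, b3⟩ := h1 [.sq f] (by simpa using hb)
      have hv : ∀ n j, f n = .w1 j → pp.vl M G (io_a [.sq f] n) =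
          ZFSet.pair (nat n) (pp.vl M G (oN j)) := by
        intro n j hnj
        have hj : Ob.w1 j ∈ M := by rw [← hnj]; exact c2 f hb n
        have e2 : io_a [.sq f] n = FW.opN (natN Cn n) (oN j) := by
          simp only [io_a, hnj]
        rw [e2, (hp _ (hn n).1 _ (o1 j hj)).2, (hn n).2]
      refine ⟨_, ⟨_, b1, rfl⟩, ?_, ?_⟩
      · intro y hy
        obtain ⟨j, hji, hj, rfl⟩ := (o2 i hi y).1 hy
        obtain ⟨n, hnj⟩ := hf2 j hji
        obtain ⟨p, hpG⟩ := hne
        exact ⟨n, (b3 _).2 ⟨n, c4 n, ⟨p, hpG, mem_univ _⟩, (hv n j hnj).symm⟩⟩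
      · have key : ∀ n y, ZFSet.pair (nat n) y ∈
            pp.vl M G (bag (io_a [.sq f]) (fun _ => univ)) →
            ∀ j, f n = .w1 j → y = pp.vl M G (oN j) := by
          intro n y hy j hnj
          obtain ⟨m, _, _, hm⟩ := (b3 _).1 hy
          obtain ⟨j', _, hj'⟩ := hf1 m
          rw [hv m j' hj'] at hm
          obtain ⟨e3, e4⟩ := ZFSet.pair_inj.1 hm
          have e5 := io_nat_inj e3
          subst e5
          rw [hnj] at hj'
          simp only [Ob.w1.injEq] at hj'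
          subst hj'
          exact e4
        intro n y _ z _ hy hz'
        obtain ⟨j, _, hj⟩ := hf1 n
        rw [key n y hy j hj, key n z hz' j hj]
    · have hno : ∀ y, y ∉ pp.vl M G (oN i) := by
        intro y hy
        obtain ⟨j, hji, _, _⟩ := (o2 i hi y).1 hy
        exact he ⟨j, hji⟩
      exact ⟨_, hxN, fun y hy => absurd hy (hno y), fun n y hy => absurd hy (hno y)⟩
  · rintro ⟨w, hw, hw1, hw2⟩
    refine h3 [] (by simp) w hw ?_ ?_
    · intro i hi
      exact hw1 _ ((w2 _).2 ⟨i, hi, rfl⟩)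
    · intro i j hi hj n hni hnj
      exact o3 i j hi hj (hw2 n _ ((w2 _).2 ⟨i, hi, rfl⟩) _ ((w2 _).2 ⟨j, hj, rfl⟩) hni hnj)

end Pool.Agent.NST
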