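import Pool.Agent.Lib.MP_2e4b78_lc.Mod.Stm

set_option autoImplicit false

/-!
# MP_2e4b78_lc : lower bounds of short chains in the auxiliary order
-/

open Cardinal Set Order
open scoped Ordinal

namespace Pool.Agent.NST

open Pool.Agent.MP2e4b78 (W1 W2 Lim exists_gt_of_mk_le)

/-- conditions of a chain with the same top are equivalent -/
private theorem lb_eq {p q : Cp} (h : Ee q p) (ht : q.p.top ≤ p.p.top) : Ee p q := by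
  obtain ⟨⟨h1, h2, h3, h4⟩, h5⟩ := h
  refine ⟨⟨ht, fun ξ hξ => (h2 ξ (hξ.trans_le ht)).symm, fun γ hγ => (h3 γ (hγ.trans ht)).symm,
    fun γ hγ => (h4 γ ?_).symm⟩, fun γ hγ => (h5 γ (hγ.trans ht)).symm⟩
  exact (h3 γ ((q.p.E_lt γ hγ).le.trans ht)).1 hγ

/-- comparable conditions agree -/
private theorem lb_ag {p q : Cp} (h : Ee q p) :
    (∀ ξ, ξ < p.p.top → ξ < q.p.top → p.p.x ξ = q.p.x ξ) ∧
    (∀ γ, γ ≤ p.p.top → γ ≤ q.p.top → (γ ∈ p.p.E ↔ γ ∈ q.p.E)) ∧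
    (∀ γ, γ ∈ p.p.E → γ ∈ q.p.E → p.p.c γ = q.p.c γ) ∧
    (∀ γ, γ ≤ p.p.top → γ ≤ q.p.top → (γ ∈ p.C ↔ γ ∈ q.C)) := by
  obtain ⟨⟨h1, h2, h3, h4⟩, h5⟩ := h
  exact ⟨fun ξ hξ _ => (h2 ξ hξ).symm, fun γ hγ _ => (h3 γ hγ).symm,
    fun γ hγ _ => (h4 γ hγ).symm, fun γ hγ _ => (h5 γ hγ).symm⟩

/-- the ladder system of the union is free -/
private theorem lb_free (E C : Set W2) (c : W2 → ℕ → W2) (b : W2) (hEb : ∀ γ ∈ E, γ < b)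
    (hc1 : ∀ γ ∈ E, StrictMono (c γ)) (hc2 : ∀ γ ∈ E, ∀ n, c γ n < γ)
    (hc3 : ∀ γ ∈ E, ∀ x < γ, ∃ n, x < c γ n) (hdj : ∀ γ ∈ C, γ ∉ E)
    (hcl : ∀ γ ≤ b, Lim γ → (∀ y < γ, ∃ z ∈ C, y < z ∧ z < γ) → γ ∈ C)
    (hcof : ∀ γ < b, ∃ z ∈ C, γ < z ∧ z < b)
    (hfr : ∀ ζ < b, ∃ h : W2 → ℕ, ∀ γ ∈ E, γ < ζ → ∀ γ' ∈ E, γ' < ζ → γ ≠ γ' →
      ∀ n ≥ h γ, ∀ m ≥ h γ', c γ n ≠ c γ' m) :
    ∃ h : W2 → ℕ, ∀ γ ∈ E, ∀ γ' ∈ E, γ ≠ γ' → ∀ n ≥ h γ, ∀ m ≥ h γ', c γ n ≠ c γ' m := by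
  classical
  have hρ : ∀ γ, ∃ ρ, γ < b → ρ ∈ C ∧ γ < ρ ∧ ρ < b ∧ ∀ x ∈ C, γ < x → ρ ≤ x := by
    intro γ
    by_cases hγ : γ < b
    · obtain ⟨x, hx, hγx, hxb⟩ := hcof γ hγ
      have hne : {x | x ∈ C ∧ γ < x}.Nonempty := ⟨x, hx, hγx⟩
      have hm := WellFounded.min_mem (wellFounded_lt (α := W2)) _ hne
      have hmin : ∀ y ∈ C, γ < y → WellFounded.min (wellFounded_lt (α := W2)) _ hne ≤ y :=
        fun y hy hγy => not_lt.1 (WellFounded.not_lt_min (wellFounded_lt (α := W2))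
          {x | x ∈ C ∧ γ < x} ⟨hy, hγy⟩)
      exact ⟨WellFounded.min (wellFounded_lt (α := W2)) _ hne, fun _ =>
        ⟨hm.1, hm.2, (hmin x hx hγx).trans_lt hxb, hmin⟩⟩
    · exact ⟨γ, fun h => absurd h hγ⟩
  choose ρ hρ using hρ
  have hH : ∀ ζ : W2, ∃ h : W2 → ℕ, ζ < b → ∀ γ ∈ E, γ < ζ → ∀ γ' ∈ E, γ' < ζ → γ ≠ γ' →
      ∀ n ≥ h γ, ∀ m ≥ h γ', c γ n ≠ c γ' m := by
    intro ζ
    by_cases hζ : ζ < b
    · obtain ⟨h, hh⟩ := hfr ζ hζ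
      exact ⟨h, fun _ => hh⟩
    · exact ⟨fun _ => 0, fun h => absurd h hζ⟩
  choose H hH using hH
  have hk : ∀ γ, ∃ k, γ ∈ E → ∀ n ≥ k, ∀ x ∈ C, x < γ → x < c γ n := by
    intro γ
    by_cases hγ : γ ∈ E
    · have hl : Lim γ := ⟨⟨c γ 0, hc2 γ hγ 0⟩, fun j hj => by
        obtain ⟨n, hn⟩ := hc3 γ hγ j hj
        exact ⟨c γ n, hn, hc2 γ hγ n⟩⟩
      have h1 : ∃ a < γ, ∀ z ∈ C, z < γ → z ≤ a := by
        by_contra hcon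
        push Not at hcon
        refine hdj γ (hcl γ (hEb γ hγ).le hl fun y hy => ?_) hγ
        obtain ⟨z, hz, hz1, hz2⟩ := hcon y hy
        exact ⟨z, hz, hz2, hz1⟩
      obtain ⟨a, ha, ha2⟩ := h1
      obtain ⟨k, hk⟩ := hc3 γ hγ a ha
      exact ⟨k, fun _ n hn x hx hxγ =>
        lt_of_le_of_lt (ha2 x hx hxγ) (hk.trans_le ((hc1 γ hγ).monotone hn))⟩
    · exact ⟨0, fun h => absurd h hγ⟩
  choose k hk using hk
  refine ⟨fun γ => max (H (ρ γ) γ) (k γ), ?_⟩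
  have main : ∀ γ ∈ E, ∀ γ' ∈ E, γ < γ' → ∀ n ≥ max (H (ρ γ) γ) (k γ),
      ∀ m ≥ max (H (ρ γ') γ') (k γ'), c γ n ≠ c γ' m := by
    intro γ hγ γ' hγ' hlt n hn m hm
    obtain ⟨h2, h3, h3b, h4⟩ := hρ γ (hEb γ hγ)
    obtain ⟨h2', h3', -, h4'⟩ := hρ γ' (hEb γ' hγ')
    by_cases he : ρ γ = ρ γ'
    · have hm' : m ≥ H (ρ γ) γ' := by rw [he]; exact le_trans (le_max_left _ _) hm
      exact hH (ρ γ) h3b γ hγ h3 γ' hγ' (he ▸ h3') hlt.ne n (le_trans (le_max_left _ _) hn) m hm'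
    · have h5 : ρ γ < γ' := by
        by_contra hcon
        push Not at hcon
        rcases hcon.eq_or_lt with h6 | h6
        · exact hdj _ h2 (h6 ▸ hγ')
        · exact he (le_antisymm (h4 _ h2' (hlt.trans h3')) (h4' _ h2 h6))
      have h6 : ρ γ < c γ' m := hk γ' hγ' m (le_trans (le_max_right _ _) hm) _ h2 h5
      have h7 : c γ n < γ := hc2 γ hγ n
      exact (h7.trans (h3.trans h6)).ne
  intro γ hγ γ' hγ' hne n hn m hm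
  rcases lt_or_gt_of_ne hne with h2 | h2
  · exact main γ hγ γ' hγ' h2 n hn m hm
  · exact (main γ' hγ' γ hγ h2 m hm n hn).symm

theorem p_LB : S_LB := by
  classical
  intro J _ _ f hJ hf
  by_cases hmax : ∃ j, ∀ i, (f i).p.top ≤ (f j).p.top
  · obtain ⟨j, hj⟩ := hmax
    refine ⟨f j, fun i => ?_, fun ξ hξ => ⟨j, hξ⟩⟩
    rcases le_total i j with h | h
    · exact hf i j h
    · exact lb_eq (hf j i h) (hj i)
  push Not at hmax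
  -- the elements of the chain agree
  have hag : ∀ i j,
      (∀ ξ, ξ < (f i).p.top → ξ < (f j).p.top → (f i).p.x ξ = (f j).p.x ξ) ∧
      (∀ γ, γ ≤ (f i).p.top → γ ≤ (f j).p.top → (γ ∈ (f i).p.E ↔ γ ∈ (f j).p.E)) ∧
      (∀ γ, γ ∈ (f i).p.E → γ ∈ (f j).p.E → (f i).p.c γ = (f j).p.c γ) ∧
      (∀ γ, γ ≤ (f i).p.top → γ ≤ (f j).p.top → (γ ∈ (f i).C ↔ γ ∈ (f j).C)) := by
    intro i j
    rcases le_total i j with h | h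
    · exact lb_ag (hf i j h)
    · obtain ⟨h1, h2, h3, h4⟩ := lb_ag (hf j i h)
      exact ⟨fun ξ a b => (h1 ξ b a).symm, fun γ a b => (h2 γ b a).symm,
        fun γ a b => (h3 γ b a).symm, fun γ a b => (h4 γ b a).symm⟩
  -- the supremum of the tops
  obtain ⟨b0, hb0⟩ := exists_gt_of_mk_le (s := range fun j => (f j).p.top)
    (mk_range_le.trans hJ)
  have hne : {b : W2 | ∀ j, (f j).p.top < b}.Nonempty := ⟨b0, fun j => hb0 _ ⟨j, rfl⟩⟩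
  obtain ⟨b, hb, hbmin⟩ : ∃ b : W2, (∀ j, (f j).p.top < b) ∧
      ∀ ξ < b, ∃ j, ξ < (f j).p.top := by
    refine ⟨WellFounded.min (wellFounded_lt (α := W2)) _ hne,
      WellFounded.min_mem (wellFounded_lt (α := W2)) _ hne, fun ξ hξ => ?_⟩
    have h1 : ¬ ∀ j, (f j).p.top < ξ := fun h =>
      WellFounded.not_lt_min (wellFounded_lt (α := W2)) (s := {b | ∀ j, (f j).p.top < b}) h hξ
    push Not at h1
    obtain ⟨j, hj⟩ := h1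
    obtain ⟨i, hi⟩ := hmax j
    exact ⟨i, hj.trans_lt hi⟩
  have hg : ∀ ξ, ∃ j, ξ < b → ξ < (f j).p.top := by
    intro ξ
    by_cases h : ξ < b
    · obtain ⟨j, hj⟩ := hbmin ξ h
      exact ⟨j, fun _ => hj⟩
    · exact ⟨Classical.arbitrary J, fun h' => absurd h' h⟩
  choose g hg using hg
  -- the union
  have hE : ∀ j γ, γ ≤ (f j).p.top → (γ < b ∧ γ ∈ (f (g γ)).p.E ↔ γ ∈ (f j).p.E) := by
    intro j γ hγ
    have h1 : γ < b := hγ.trans_lt (hb j)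
    rw [(hag (g γ) j).2.1 γ (hg γ h1).le hγ]
    exact ⟨fun h => h.2, fun h => ⟨h1, h⟩⟩
  have hC : ∀ j γ, γ ≤ (f j).p.top → ((γ < b ∧ γ ∈ (f (g γ)).C) ∨ γ = b ↔ γ ∈ (f j).C) := by
    intro j γ hγ
    have h1 : γ < b := hγ.trans_lt (hb j)
    rw [(hag (g γ) j).2.2.2 γ (hg γ h1).le hγ]
    exact ⟨fun h => h.elim (fun h => h.2) (fun h => absurd h h1.ne), fun h => Or.inl ⟨h1, h⟩⟩
  have hdj : ∀ γ, (γ < b ∧ γ ∈ (f (g γ)).C) ∨ γ = b → ¬ (γ < b ∧ γ ∈ (f (g γ)).p.E) := by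
    rintro γ (h | rfl) h2
    · exact (f (g γ)).disj γ h.2 h2.2
    · exact absurd h2.1 (lt_irrefl _)
  have hcl : ∀ γ ≤ b, Lim γ → (∀ y < γ, ∃ z, ((z < b ∧ z ∈ (f (g z)).C) ∨ z = b) ∧ y < z ∧
      z < γ) → (γ < b ∧ γ ∈ (f (g γ)).C) ∨ γ = b := by
    intro γ hγ hl h
    rcases hγ.eq_or_lt with h1 | h1
    · exact Or.inr h1
    · refine Or.inl ⟨h1, (f (g γ)).closed γ (hg γ h1).le hl fun y hy => ?_⟩
      obtain ⟨z, hz, hz1, hz2⟩ := h y hy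
      exact ⟨z, (hC (g γ) z (hz2.le.trans (hg γ h1).le)).1 hz, hz1, hz2⟩
  let P : Cn := {
    top := b
    x := fun ξ => (f (g ξ)).p.x ξ
    E := {γ | γ < b ∧ γ ∈ (f (g γ)).p.E}
    c := fun γ => (f (g γ)).p.c γ
    E_lt := fun γ hγ => hγ.1
    c1 := fun γ hγ => (f (g γ)).p.c1 γ hγ.2
    c2 := fun γ hγ => (f (g γ)).p.c2 γ hγ.2
    c3 := fun γ hγ => (f (g γ)).p.c3 γ hγ.2
    free := by
      refine lb_free {γ | γ < b ∧ γ ∈ (f (g γ)).p.E} {γ | (γ < b ∧ γ ∈ (f (g γ)).C) ∨ γ = b}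
        (fun γ => (f (g γ)).p.c γ) b (fun γ hγ => hγ.1) (fun γ hγ => (f (g γ)).p.c1 γ hγ.2)
        (fun γ hγ => (f (g γ)).p.c2 γ hγ.2) (fun γ hγ => (f (g γ)).p.c3 γ hγ.2) hdj hcl ?_ ?_
      · intro γ hγ
        exact ⟨(f (g γ)).p.top, (hC (g γ) _ le_rfl).2 (f (g γ)).top_mem, hg γ hγ, hb _⟩
      · intro ζ hζ
        obtain ⟨h, hh⟩ := (f (g ζ)).p.free
        refine ⟨h, fun γ hγ hγζ γ' hγ' hγζ' hne' n hn m hm => ?_⟩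
        have e1 := (hE (g ζ) γ (hγζ.le.trans (hg ζ hζ).le)).1 hγ
        have e2 := (hE (g ζ) γ' (hγζ'.le.trans (hg ζ hζ).le)).1 hγ'
        have e3 := (hag (g γ) (g ζ)).2.2.1 γ hγ.2 e1
        have e4 := (hag (g γ') (g ζ)).2.2.1 γ' hγ'.2 e2
        show (f (g γ)).p.c γ n ≠ (f (g γ')).p.c γ' m
        rw [e3, e4]
        exact hh γ e1 γ' e2 hne' n hn m hm }
  refine ⟨{
    p := P
    C := {γ | (γ < b ∧ γ ∈ (f (g γ)).C) ∨ γ = b}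
    C_le := fun γ hγ => hγ.elim (fun h => h.1.le) (fun h => h.le)
    top_mem := Or.inr rfl
    disj := hdj
    closed := hcl }, fun j => ⟨⟨(hb j).le, fun ξ hξ => ?_, fun γ hγ => hE j γ hγ,
      fun γ hγ => ?_⟩, fun γ hγ => hC j γ hγ⟩, hbmin⟩
  · exact (hag (g ξ) j).1 ξ (hg ξ (hξ.trans (hb j))) hξ
  · exact (hag (g γ) j).2.2.1 γ ((hE j γ ((f j).p.E_lt γ hγ).le).2 hγ).2 hγ

end Pool.Agent.NST
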