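import Pool.Agent.Lib.MP_2e4b78_lc.Mod.Stm

set_option autoImplicit false

/-!
# MP_2e4b78_lc : piece LD, the top ordinal can be put into `E`
-/

open Cardinal Set Order
open scoped Ordinal

namespace Pool.Agent.NST

open Pool.Agent.MP2e4b78 (W1 W2 Lim IsNormalIdeal almost_disjoint exists_gt_of_mk_le)

theorem p_LD : S_LD := by
  classical
  intro q0 d hd hd1 hd2
  obtain ⟨b, hb⟩ : ∃ b : W2, ∀ x ∈ ({q0.top} : Set W2), x < b := by
    apply exists_gt_of_mk_le
    rw [Cardinal.mk_singleton]
    exact (Cardinal.one_le_aleph0).trans (Cardinal.aleph0_le_aleph 1)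
  have hb' : q0.top < b := hb _ rfl
  have hnE : q0.top ∉ q0.E := fun h => lt_irrefl _ (q0.E_lt _ h)
  have hne : ∀ γ ∈ q0.E, γ ≠ q0.top := fun γ hγ e => hnE (e ▸ hγ)
  have hk : ∀ γ, ∃ k, γ ∈ q0.E → ∀ n ≥ k, ∀ m, q0.c γ n ≠ d m := by
    intro γ
    by_cases hγ : γ ∈ q0.E
    · obtain ⟨k, hk⟩ := almost_disjoint (q0.c1 γ hγ) (q0.c2 γ hγ) hd hd2 (q0.E_lt γ hγ)
      exact ⟨k, fun _ => hk⟩
    · exact ⟨0, fun h => absurd h hγ⟩
  choose k hk using hk
  obtain ⟨h, hh⟩ := q0.free
  have hc : ∀ γ, γ ≠ q0.top → (if γ = q0.top then d else q0.c γ) = q0.c γ := fun γ hγ => if_neg hγ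
  have hc' : (if q0.top = q0.top then d else q0.c q0.top) = d := if_pos rfl
  let q : Cn :=
    { top := b
      x := q0.x
      E := insert q0.top q0.E
      c := fun γ => if γ = q0.top then d else q0.c γ
      E_lt := by
        rintro γ (rfl | hγ)
        · exact hb'
        · exact (q0.E_lt γ hγ).trans hb'
      c1 := by
        rintro γ (rfl | hγ)
        · show StrictMono (if q0.top = q0.top then d else q0.c q0.top)
          rw [hc']; exact hd
        · show StrictMono (if γ = q0.top then d else q0.c γ)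
          rw [hc γ (hne γ hγ)]; exact q0.c1 γ hγ
      c2 := by
        rintro γ (rfl | hγ) n
        · show (if q0.top = q0.top then d else q0.c q0.top) n < q0.top
          rw [hc']; exact hd1 n
        · show (if γ = q0.top then d else q0.c γ) n < γ
          rw [hc γ (hne γ hγ)]; exact q0.c2 γ hγ n
      c3 := by
        rintro γ (rfl | hγ) y hy
        · show ∃ n, y < (if q0.top = q0.top then d else q0.c q0.top) n
          rw [hc']; exact hd2 y hy
        · show ∃ n, y < (if γ = q0.top then d else q0.c γ) n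
          rw [hc γ (hne γ hγ)]; exact q0.c3 γ hγ y hy
      free := by
        refine ⟨fun γ => max (h γ) (k γ), ?_⟩
        rintro γ (rfl | hγ) γ' (rfl | hγ') hγγ n hn m hm
        · exact absurd rfl hγγ
        · show (if q0.top = q0.top then d else q0.c q0.top) n ≠
            (if γ' = q0.top then d else q0.c γ') m
          rw [hc', hc γ' (hne γ' hγ')]
          exact (hk γ' hγ' m (le_trans (le_max_right _ _) hm) n).symm
        · show (if γ = q0.top then d else q0.c γ) n ≠
            (if q0.top = q0.top then d else q0.c q0.top) m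
          rw [hc', hc γ (hne γ hγ)]
          exact hk γ hγ n (le_trans (le_max_right _ _) hn) m
        · show (if γ = q0.top then d else q0.c γ) n ≠ (if γ' = q0.top then d else q0.c γ') m
          rw [hc γ (hne γ hγ), hc γ' (hne γ' hγ')]
          exact hh γ hγ γ' hγ' hγγ n (le_trans (le_max_left _ _) hn) m
            (le_trans (le_max_left _ _) hm) }
  refine ⟨q, ?_, hb', Or.inl rfl, hc', fun _ _ => rfl⟩
  intro p hp hpt
  rw [Cn.le_def] at hp ⊢
  obtain ⟨h1, h2, h3, h4⟩ := hp
  refine ⟨(hpt.trans hb').le, h2, fun γ hγ => ?_, fun γ hγ => ?_⟩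
  · rw [← h3 γ hγ]
    constructor
    · rintro (rfl | h5)
      · exact absurd hγ (not_le.2 hpt)
      · exact h5
    · exact fun h5 => Or.inr h5
  · show (if γ = q0.top then d else q0.c γ) = p.c γ
    have : γ ≠ q0.top := ((p.E_lt γ hγ).trans hpt).ne
    rw [hc γ this]
    exact h4 γ hγ

end Pool.Agent.NST
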