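import Pool.Agent.Lib.MP_2e4b78_lc.Mod.Stm

set_option autoImplicit false

open Cardinal Set Order
open scoped Ordinal

namespace Pool.Agent.NST

open Pool.Agent.MP2e4b78 (W1 W2 Lim IsNormalIdeal)
open Pool.Agent.CR (V Nm nat natN Memf Eqf IsTransModelZFC)
open Pool.Agent.FW (Ev)

theorem p_LI : S_LI := by
  classical
  intro α δ hα M s hs hlen hcof hM hδ1 hδ2
  have hsm : Monotone s := monotone_nat_of_le_succ hs
  choose! k hk using hcof
  let d : W1 → W1 := fun i => if i < α then (s (k i)).d i else δ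
  let m : W1 → Set W2 := fun i => if i < α then (s (k i)).m i else M
  have hdm : ∀ i < α, ∀ n, i ≤ (s n).len → d i = (s n).d i ∧ m i = (s n).m i := by
    intro i hi n hn
    have e1 : d i = (s (k i)).d i := if_pos hi
    have e2 : m i = (s (k i)).m i := if_pos hi
    rw [e1, e2]
    rcases le_total n (k i) with h | h
    · have := (hsm h).2 i hn
      exact ⟨this.1.symm, this.2.symm⟩
    · exact (hsm h).2 i (hk i hi).le
  have hst : ∀ i ≤ α, St d m i := by
    intro i hi
    rcases hi.lt_or_eq with h | h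
    · refine ((s (k i)).st i (hk i h).le).congr (fun j hj => ?_) (fun j hj => ?_)
      · exact (hdm j (hj.trans_lt h) (k i) (hj.trans (hk i h).le)).1.symm
      · exact (hdm j (hj.trans_lt h) (k i) (hj.trans (hk i h).le)).2.symm
    · subst h
      have e1 : d i = δ := if_neg (lt_irrefl _)
      have e2 : m i = M := if_neg (lt_irrefl _)
      refine ⟨fun h0 => ?_, ?_, ?_, fun j hj => ?_, fun _ => ⟨fun β hβ => ?_, fun η hη => ?_⟩⟩
      · obtain ⟨j, hj⟩ := hα.1
        rw [h0] at hj; exact absurd hj not_lt_bot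
      · rw [e2, hM]
        exact countable_iUnion fun n => ((s n).st _ le_rfl).cnt
      · rw [e1, e2]
        intro ξ hξ η hη
        rw [hM] at hξ
        obtain ⟨n, hn⟩ := mem_iUnion.1 hξ
        constructor
        · intro hη2
          rw [hM] at hη2
          obtain ⟨n', hn'⟩ := mem_iUnion.1 hη2
          have h1 : ξ ∈ (s (max n n')).mt := Nd.mt_mono (hsm (le_max_left _ _)) hn
          have h2 : η ∈ (s (max n n')).mt := Nd.mt_mono (hsm (le_max_right _ _)) hn'
          exact ((((s (max n n')).st _ le_rfl).clo ξ h1 η hη).1 h2).trans (hδ1 _)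
        · intro hη2
          obtain ⟨n', hn'⟩ := hδ2 _ hη2
          have h1 : ξ ∈ (s (max n n')).mt := Nd.mt_mono (hsm (le_max_left _ _)) hn
          have h2 : e ξ η < (s (max n n')).dt :=
            hn'.trans_le (Nd.dt_mono (hsm (le_max_right _ _)))
          rw [hM]
          exact mem_iUnion.2 ⟨_, (((s (max n n')).st _ le_rfl).clo ξ h1 η hη).2 h2⟩
      · obtain ⟨e3, e4⟩ := hdm j hj (k j) (hk j hj).le
        rw [e1, e2, e3, e4]
        have h3 := ((s (k j)).st _ le_rfl).lt j (hk j hj)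
        have h4 : (s (k j)).mt ⊆ M := by rw [hM]; exact subset_iUnion (fun n => (s n).mt) (k j)
        refine ⟨h3.1.trans (hδ1 _), h3.2.1.trans h4, ?_⟩
        obtain ⟨ζ, hζ1, hζ2⟩ := h3.2.2
        exact ⟨ζ, h4 hζ1, hζ2⟩
      · rw [e1] at hβ
        obtain ⟨n, hn⟩ := hδ2 β hβ
        exact ⟨(s n).len, hlen n, by rw [(hdm _ (hlen n) n le_rfl).1]; exact hn⟩
      · rw [e2, hM] at hη
        obtain ⟨n, hn⟩ := mem_iUnion.1 hη
        exact ⟨(s n).len, hlen n, by rw [(hdm _ (hlen n) n le_rfl).2]; exact hn⟩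
  refine ⟨Nd.mk' α d m hst, rfl, fun n => ?_, ?_, ?_⟩
  · refine Nd.le_def.2 ⟨(hlen n).le, fun i hi => ?_⟩
    have hi' : i < α := hi.trans_lt (hlen n)
    rw [Nd.mk'_d hst hi'.le, Nd.mk'_m hst hi'.le]
    have := hdm i hi' n hi
    exact ⟨this.1.symm, this.2.symm⟩
  · exact (Nd.mk'_d hst le_rfl).trans (if_neg (lt_irrefl _))
  · exact (Nd.mk'_m hst le_rfl).trans (if_neg (lt_irrefl _))

end Pool.Agent.NST
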