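import Pool.Agent.Lib.MP_2e4b78_lc.Mod.Stm

set_option autoImplicit false

/-!
# MP_2e4b78_lc : the levels are nonempty
-/

open Set Order
open scoped Ordinal

namespace Pool.Agent.NST

open Pool.Agent.MP2e4b78 (W1 W2)
open Pool.Agent.FW (Ev ev_rel ev_below ev_sub)

theorem p_LV (ok : S_OK) (ex : S_EX) : S_LV := by
  obtain ⟨_, _, _, o4, _, _, o7, _⟩ := ok
  refine ((ev_below (π := pp) (fun l => {q | ∃ ν i, l = [.nm ν, .w1 i] ∧
    ∃ t : Nd, t.len = i ∧ Ok ν q t})).and ((ev_rel (π := pp) (fun l x =>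
    ∃ ν i q t, l = [.nm ν, .w1 i, .cn q] ∧ x = .nd t ∧ t.len = i ∧ Ok ν q t)).and
    ev_sub)).mono ?_
  rintro M G ⟨h1, h2, h3⟩ ν hν ⟨p, hpG, hp⟩ i hi
  have hν' : Ob.nm ν ∈ M := hν
  obtain ⟨q, hqG, _, ν', i', e1, t, ht1, ht2⟩ := h1 [.nm ν, .w1 i] (by
      intro x hx
      simp only [List.mem_cons, List.not_mem_nil, or_false] at hx
      rcases hx with rfl | rfl
      · exact hν'
      · exact hi) p hpG (by
      intro q hq
      obtain ⟨r, hr, t, _, ht2, ht3⟩ := ex ν q (o7 ν p q hq hp) Nd.root i (o4 ν q) bot_le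
      exact ⟨r, hr, ν, i, rfl, t, ht2, ht3⟩)
  simp only [List.cons.injEq, Ob.nm.injEq, Ob.w1.injEq, and_true] at e1
  obtain ⟨rfl, rfl⟩ := e1
  have hqM : Ob.cn q ∈ M := h3 hqG
  obtain ⟨x, hx, ν', i', q', t', e2, rfl, ht3, ht4⟩ := h2 [.nm ν, .w1 i, .cn q] (by
      intro x hx
      simp only [List.mem_cons, List.not_mem_nil, or_false] at hx
      rcases hx with rfl | rfl | rfl
      · exact hν'
      · exact hi
      · exact hqM) ⟨.nd t, ν, i, q, t, rfl, rfl, ht1, ht2⟩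
  simp only [List.cons.injEq, Ob.nm.injEq, Ob.w1.injEq, Ob.cn.injEq, and_true] at e2
  obtain ⟨rfl, rfl, rfl⟩ := e2
  exact ⟨t', ⟨hx, q, hqG, ht4⟩, ht3⟩

end Pool.Agent.NST
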