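import Pool.Agent.Lib.MP_2e4b78_lc.Mod.Stm

set_option autoImplicit false

/-!
# MP_2e4b78_lc : closed pairs (piece MD)
-/

open Cardinal Set Order
open scoped Ordinal

namespace Pool.Agent.NST

open Pool.Agent.MP2e4b78 (W1 W2 Lim exists_gt_of_countable countable_Iio)

/-- one step of the closure -/
private noncomputable def md_nx (b : W1) (F : Set W2) : Set W2 :=
  F ∪ ⋃ ξ ∈ F, {η | η < ξ ∧ e ξ η < b}

private theorem md_nx_ct (b : W1) (F : Set W2) (hF : F.Countable) : (md_nx b F).Countable := by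
  refine hF.union (hF.biUnion fun ξ _ => ?_)
  have h1 : MapsTo (e ξ) {η | η < ξ ∧ e ξ η < b} (Iio b) := fun η hη => hη.2
  exact h1.countable_of_injOn ((e_inj ξ).mono fun η hη => hη.1) (countable_Iio b)

private theorem md_gt (b : W1) (F : Set W2) (hF : F.Countable) :
    ∃ b', b < b' ∧ ∀ ξ ∈ F, ∀ η ∈ F, e ξ η < b' := by
  obtain ⟨c, hc⟩ := exists_gt_of_countable ((hF.image2 hF e).insert b)
  exact ⟨c, hc b (mem_insert _ _), fun ξ hξ η hη => hc _ (Or.inr (mem_image2_of_mem hξ hη))⟩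

theorem p_MD : S_MD := by
  intro A β hA
  obtain ⟨b0, hb0⟩ := exists_gt_of_countable (countable_singleton β)
  have hgt : ∀ (F : {F : Set W2 // F.Countable}) (b : W1),
      ∃ b', b < b' ∧ ∀ ξ ∈ F.1, ∀ η ∈ F.1, e ξ η < b' := fun F b => md_gt b F.1 F.2
  choose g hg1 hg2 using hgt
  let s : ℕ → {F : Set W2 // F.Countable} × W1 := fun n => Nat.rec (⟨A, hA⟩, b0)
    (fun _ p => (⟨md_nx p.2 p.1.1, md_nx_ct _ _ p.1.2⟩, g p.1 p.2)) n
  have hs0 : s 0 = (⟨A, hA⟩, b0) := rfl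
  have hF : ∀ n, (s (n + 1)).1.1 = md_nx (s n).2 (s n).1.1 := fun n => rfl
  have hb : ∀ n, (s (n + 1)).2 = g (s n).1 (s n).2 := fun n => rfl
  have hFm : Monotone (fun n => (s n).1.1) := monotone_nat_of_le_succ fun n => by
    change (s n).1.1 ⊆ (s (n + 1)).1.1
    rw [hF]
    exact subset_union_left
  have hbm : StrictMono (fun n => (s n).2) := strictMono_nat_of_lt_succ fun n => by
    change (s n).2 < (s (n + 1)).2
    rw [hb]
    exact hg1 _ _
  have hne : {x : W1 | ∀ n, (s n).2 < x}.Nonempty := by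
    obtain ⟨c, hc⟩ := exists_gt_of_countable (countable_range fun n => (s n).2)
    exact ⟨c, fun n => hc _ ⟨n, rfl⟩⟩
  obtain ⟨δ, hδ, hmin⟩ := WellFounded.has_min (wellFounded_lt (α := W1)) _ hne
  have hlub : ∀ x < δ, ∃ n, x < (s n).2 := by
    intro x hx
    by_contra hcon
    push Not at hcon
    exact hmin x (fun n => lt_of_lt_of_le (hbm (Nat.lt_succ_self n)) (hcon (n + 1))) hx
  refine ⟨δ, ⋃ n, (s n).1.1, countable_iUnion fun n => (s n).1.2, ?_, ?_, ?_⟩
  · intro ξ hξ η hη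
    obtain ⟨n, hn⟩ := mem_iUnion.1 hξ
    constructor
    · intro hM
      obtain ⟨m, hm⟩ := mem_iUnion.1 hM
      have h1 := hFm (le_max_left n m) hn
      have h2 := hFm (le_max_right n m) hm
      have h3 := hg2 (s (max n m)).1 (s (max n m)).2 ξ h1 η h2
      rw [← hb] at h3
      exact h3.trans (hδ (max n m + 1))
    · intro hlt
      obtain ⟨m, hm⟩ := hlub _ hlt
      have h1 := hFm (le_max_left n m) hn
      have h2 : e ξ η < (s (max n m)).2 := lt_of_lt_of_le hm (hbm.monotone (le_max_right n m))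
      refine mem_iUnion.2 ⟨max n m + 1, ?_⟩
      rw [hF]
      exact Or.inr (mem_iUnion₂.2 ⟨ξ, h1, hη, h2⟩)
  · exact (hb0 β rfl).trans (hδ 0)
  · intro η hη
    exact mem_iUnion.2 ⟨0, hη⟩

end Pool.Agent.NST
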