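import Pool.Agent.Lib.MP_2e4b78_lc.Mod.Stm

set_option autoImplicit false

/-! # Piece ML: sets outside of the ideal are positive -/

open Cardinal Set Order
open scoped Ordinal

namespace Pool.Agent.NST

open Pool.Agent.MP2e4b78 (W1 W2 Lim IsNormalIdeal)
open Pool.Agent.CR (V Nm nat natN Memf Eqf IsTransModelZFC)
open Pool.Agent.FW (Ev)

/-- the name `σ` shows that the fibre of `s` is special -/
def ml_AV (ν : Nm Cn) (S : Set W1) (Fv : Cn → Nd → Nd → Prop)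
    (An : Cn → Nm Cn → ℕ → Nd → Prop) (r : Cn) (σ : Nm Cn) (s : Nd) : Prop :=
  (∀ r' ≤ r, ∀ n t t', t < t' → Ok ν r' t' → An r' σ n t → ¬ An r' σ n t') ∧
    ∀ r' ≤ r, ∀ t, Ok ν r' t → t.len ∈ S → Fv r' t s → ∃ r'' ≤ r', ∃ n, An r'' σ n t

theorem ml_AV_mono {ν : Nm Cn} {S : Set W1} {Fv : Cn → Nd → Nd → Prop}
    {An : Cn → Nm Cn → ℕ → Nd → Prop} {q r : Cn} (h : q ≤ r) {σ : Nm Cn} {s : Nd}
    (h1 : ml_AV ν S Fv An r σ s) : ml_AV ν S Fv An q σ s :=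
  ⟨fun r' hr' => h1.1 r' (hr'.trans h), fun r' hr' => h1.2 r' (hr'.trans h)⟩

/-- the requests -/
def ml_Rq (ν : Nm Cn) (S : Set W1) (Fv : Cn → Nd → Nd → Prop)
    (An : Cn → Nm Cn → ℕ → Nd → Prop) : ℕ → List Ob → Cn → Ob → Prop
  | 0, l, r, b => ∃ (s : Nd) (β : W1) (s' : Nd), l = [.nd s, .w1 β] ∧ b = .nd s' ∧ Ok ν r s ∧
      s ≤ s' ∧ s'.len = β ∧ Ok ν r s'
  | 1, l, r, b => ∃ (s : Nd) (σ : Nm Cn), l = [.nd s] ∧ b = .nm σ ∧ ml_AV ν S Fv An r σ s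
  | n + 2, l, r, b => ∃ (σ : Nm Cn) (t t' : Nd), l = [.nm σ, .nd t] ∧ b = .nd t' ∧ t ≤ t' ∧
      Ok ν r t' ∧ An r σ n t'

theorem ml_Rq_mono (ok : S_OK) {ν : Nm Cn} {S : Set W1} {Fv : Cn → Nd → Nd → Prop}
    {An : Cn → Nm Cn → ℕ → Nd → Prop}
    (hA : ∀ p q σ n t, q ≤ p → An p σ n t → An q σ n t) :
    ∀ k l p q b, q ≤ p → ml_Rq ν S Fv An k l p b → ml_Rq ν S Fv An k l q b := by
  intro k l p q b hqp h
  match k, h with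
  | 0, ⟨s, β, s', h1, h2, h3, h4, h5, h6⟩ =>
    exact ⟨s, β, s', h1, h2, ok.1 ν p q s hqp h3, h4, h5, ok.1 ν p q s' hqp h6⟩
  | 1, ⟨s, σ, h1, h2, h3⟩ => exact ⟨s, σ, h1, h2, ml_AV_mono hqp h3⟩
  | n + 2, ⟨σ, t, t', h1, h2, h3, h4, h5⟩ =>
    exact ⟨σ, t, t', h1, h2, h3, ok.1 ν p q t' hqp h4, hA p q σ n t' hqp h5⟩

theorem p_ML (ok : S_OK) (hu : S_HU) (fu : S_FU) (ex : S_EX) : S_ML := by
  intro ν p S Fv An hN hO _ hA h1 h2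
  obtain ⟨q, N, δ, γ, hqp, hA₀, hδS, hHu, halt⟩ := hu (ml_Rq ν S Fv An) (ml_Rq_mono ok hA) ν p hN S
    hO {Ob.nd Nd.root} (countable_singleton _)
  have hroot : Ob.nd Nd.root ∈ N := hA₀ rfl
  have hNq : Norm ν q := ok.2.2.2.2.2.2.1 ν p q hqp hN
  -- names for the fibres
  have F1 : ∀ s, Ob.nd s ∈ N → Ok ν q s → ∃ σ, Ob.nm σ ∈ N ∧ ml_AV ν S Fv An q σ s := by
    intro s hs hok
    rcases halt 1 [.nd s] (by simpa using hs) with ⟨b, hb, s', σ, h3, h4, h5⟩ | h3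
    · have h6 : s = s' := by simpa using h3
      subst h6
      subst h4
      exact ⟨σ, hb, h5⟩
    · obtain ⟨r, hr, σ, h4⟩ := h2 q hqp s hok
      exact absurd ⟨s, σ, rfl, rfl, h4⟩ (h3 r hr (.nm σ))
  -- extensions
  have F2 : ∀ t, Ob.nd t ∈ N → Ok ν q t → ∀ β < δ, t.len ≤ β →
      ∃ t', Ob.nd t' ∈ N ∧ Ok ν q t' ∧ t ≤ t' ∧ t'.len = β := by
    intro t ht hok β hβ hle
    have hw : Ob.w1 β ∈ N := (hHu.w1 β).2 hβ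
    rcases halt 0 [.nd t, .w1 β] (by simp [ht, hw]) with ⟨b, hb, s, β', s', h3, h4, h5, h6, h7, h8⟩ | h3
    · have h9 : t = s ∧ β = β' := by simpa using h3
      obtain ⟨rfl, rfl⟩ := h9
      subst h4
      exact ⟨s', hb, h8, h6, h7⟩
    · obtain ⟨r, hr, t', h4, h5, h6⟩ := ex ν q hNq t β hok hle
      exact absurd ⟨t, β, t', rfl, rfl, ok.1 ν q r t hr hok, h4, h5, h6⟩ (h3 r hr (.nd t'))
  -- the dense sets
  let DD : Nm Cn × ℕ → Set Nd := fun x => {t' | An q x.1 x.2 t' ∨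
    ∀ r ≤ q, ∀ t'', t' ≤ t'' → Ok ν r t'' → ¬ An r x.1 x.2 t''}
  have F3 : ∀ x : Nm Cn × ℕ, Ob.nm x.1 ∈ N → ∀ s, Ob.nd s ∈ N → Ok ν q s → s.len < δ →
      ∃ s', Ob.nd s' ∈ N ∧ Ok ν q s' ∧ s'.len < δ ∧ s ≤ s' ∧ s' ∈ DD x := by
    rintro ⟨σ, n⟩ hσ s hs hok hlt
    rcases halt (n + 2) [.nm σ, .nd s] (by simp [hs, hσ]) with ⟨b, hb, σ', t, t', h3, h4, h5, h6, h7⟩ | h3
    · have h9 : σ = σ' ∧ s = t := by simpa using h3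
      obtain ⟨rfl, rfl⟩ := h9
      subst h4
      exact ⟨t', hb, h6, (Nd.le_d _ le_rfl).trans_lt (hHu.dt t' hb).1, h5, Or.inl h7⟩
    · exact ⟨s, hs, hok, hlt, le_rfl, Or.inr fun r hr t'' ht'' hok' hAn =>
        h3 r hr (.nd t'') ⟨σ, s, t'', rfl, rfl, ht'', hok', hAn⟩⟩
  obtain ⟨σ₀, hσ₀, _⟩ := F1 Nd.root hroot (ok.2.2.2.1 ν q)
  have hcnt : {x : Nm Cn × ℕ | Ob.nm x.1 ∈ N}.Countable := by
    have h3 : {τ : Nm Cn | Ob.nm τ ∈ N}.Countable :=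
      hHu.cnt.preimage (fun a b h => by simpa using h)
    exact (h3.prod (countable_univ (α := ℕ))).mono fun x hx => Set.mem_prod.2 ⟨hx, mem_univ _⟩
  obtain ⟨e, he⟩ := hcnt.exists_eq_range ⟨(σ₀, 0), hσ₀⟩
  have he' : ∀ k, Ob.nm (e k).1 ∈ N := by
    intro k
    have : e k ∈ {x : Nm Cn × ℕ | Ob.nm x.1 ∈ N} := by
      rw [he]
      exact ⟨k, rfl⟩
    exact this
  have hδ0 : ⊥ < δ := by
    obtain ⟨j, hj⟩ := hHu.lim.1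
    exact bot_le.trans_lt hj
  obtain ⟨t, -, htl, htok, hcof, hD⟩ := fu ν q N δ γ hHu δ hHu.lim le_rfl F2 (fun k => DD (e k))
    (fun k s hs hok hlt => F3 (e k) (he' k) s hs hok hlt) Nd.root hroot (ok.2.2.2.1 ν q) hδ0
  obtain ⟨r, hr, s, hst, hF⟩ := h1 q hqp t htok (htl ▸ hδS) (htl ▸ hδ0.ne')
  obtain ⟨s1, hs1, hok1, hle1, hlt1⟩ := hcof s.len (htl ▸ Nd.len_lt hst)
  have hss1 : s ≤ s1 := Nd.le_of_le_of_len hst.le hle1 hlt1.le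
  have hsN : Ob.nd s ∈ N := by
    rw [Nd.eq_res hss1]
    exact hHu.res s1 hs1 s.len hlt1.le
  have hoks : Ok ν q s := ok.2.1 ν q s s1 hss1 hok1
  obtain ⟨σ, hσ, hAV⟩ := F1 s hsN hoks
  obtain ⟨r'', hr'', n, hAn⟩ := hAV.2 r hr t (ok.1 ν q r t hr htok) (htl ▸ hδS) hF
  obtain ⟨k, hk⟩ : (σ, n) ∈ range e := by
    rw [← he]
    exact hσ
  obtain ⟨s', _, _, hs't, hs'l, hs'D⟩ := hD k
  have hlt' : s' < t := Nd.lt_of_len hs't (htl ▸ hs'l)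
  have hrq : r'' ≤ q := hr''.trans hr
  simp only [DD, hk] at hs'D
  rcases hs'D with h3 | h3
  · exact hAV.1 r'' hrq n s' t hlt' (ok.1 ν q r'' t hrq htok) (hA q r'' σ n s' hrq h3) hAn
  · exact h3 r'' hrq t hs't (ok.1 ν q r'' t hrq htok) hAn

end Pool.Agent.NST
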