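import Pool.Agent.Lib.MP_2e4b78_lc.Mod.Stm

set_option autoImplicit false

/-!
# MP_2e4b78_lc : special fibres in the model are forced to be special
-/

open Cardinal Set Order
open scoped Ordinal

namespace Pool.Agent.NST

open Pool.Agent.MP2e4b78 (W1 W2 Lim IsNormalIdeal)
open Pool.Agent.CR (V Nm nat natN Memf Eqf IsTransModelZFC)
open Pool.Agent.FW (Ev)

private theorem nb_ok {ν : Nm Cn} {p : Cn} {s t : Nd} (h : s ≤ t) (ht : Ok ν p t) :
    Ok ν p s := by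
  intro i hi hl
  obtain ⟨h1, h2⟩ := ht i (hi.trans h.1) hl
  obtain ⟨e1, e2⟩ := h.2 i hi
  rw [e1, e2]
  exact ⟨h1, h2⟩

/-- the conclusion -/
private def nb_AV (ν φ : Nm Cn) (S : Set W1) (r : Cn) (σ : Nm Cn) (s : Nd) : Prop :=
  (∀ r' ≤ r, ∀ (n : ℕ) (t t' : Nd), t < t' → Ok ν r' t' →
      Memf (FW.opN (natN Cn n) (elN t)) σ r' → ¬ Memf (FW.opN (natN Cn n) (elN t')) σ r') ∧
    ∀ r' ≤ r, ∀ t, Ok ν r' t → t.len ∈ S → Memf (FW.opN (elN t) (elN s)) φ r' →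
      ∃ r'' ≤ r', ∃ n : ℕ, Memf (FW.opN (natN Cn n) (elN t)) σ r''

theorem p_NB (el : S_EL) (av : S_AV) : S_NB := by
  have hD := FW.ev_gen (π := pp) (fun l => {q | ∃ (ν φ : Nm Cn) (S : Set W1) (s : Nd),
    l = [.nm ν, .nm φ, .s1 S] ∧ Ok ν q s ∧ ∀ r ≤ q, ∀ σ, ¬ nb_AV ν φ S r σ s})
  have hDs := FW.ev_rel (π := pp) (fun l x => ∃ (q : Cn) (ν φ : Nm Cn) (S : Set W1) (s : Nd),
    l = [.cn q, .nm ν, .nm φ, .s1 S] ∧ x = .nd s ∧ Ok ν q s ∧ ∀ r ≤ q, ∀ σ,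
      ¬ nb_AV ν φ S r σ s)
  have hD1 := FW.ev_gen (π := pp) (fun l => {r | ∃ (ν σ : Nm Cn) (n : ℕ) (t t' : Nd),
    l = [.nm ν, .nm σ] ∧ t < t' ∧ Ok ν r t' ∧ Memf (FW.opN (natN Cn n) (elN t)) σ r ∧
      Memf (FW.opN (natN Cn n) (elN t')) σ r})
  have hD1t := FW.ev_rel (π := pp) (fun l x => ∃ (r : Cn) (ν σ : Nm Cn) (n : ℕ) (t t' : Nd),
    l = [.cn r, .nm ν, .nm σ] ∧ x = .nd t ∧ t < t' ∧ Ok ν r t' ∧
      Memf (FW.opN (natN Cn n) (elN t)) σ r ∧ Memf (FW.opN (natN Cn n) (elN t')) σ r)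
  have hD1s := FW.ev_rel (π := pp) (fun l x => ∃ (r : Cn) (ν σ : Nm Cn) (n : ℕ) (t t' : Nd),
    l = [.cn r, .nm ν, .nm σ, .nd t] ∧ x = .nd t' ∧ t < t' ∧ Ok ν r t' ∧
      Memf (FW.opN (natN Cn n) (elN t)) σ r ∧ Memf (FW.opN (natN Cn n) (elN t')) σ r)
  have hD2 := FW.ev_gen (π := pp) (fun l => {r | ∃ (ν φ σ : Nm Cn) (S : Set W1) (s t : Nd),
    l = [.nm ν, .nm φ, .s1 S, .nd s, .nm σ] ∧ Ok ν r t ∧ t.len ∈ S ∧
      Memf (FW.opN (elN t) (elN s)) φ r ∧ ∀ r'' ≤ r, ∀ n : ℕ,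
        ¬ Memf (FW.opN (natN Cn n) (elN t)) σ r''})
  have hD2t := FW.ev_rel (π := pp) (fun l x => ∃ (r : Cn) (ν φ σ : Nm Cn) (S : Set W1)
    (s t : Nd), l = [.cn r, .nm ν, .nm φ, .s1 S, .nd s, .nm σ] ∧ x = .nd t ∧ Ok ν r t ∧
      t.len ∈ S ∧ Memf (FW.opN (elN t) (elN s)) φ r ∧ ∀ r'' ≤ r, ∀ n : ℕ,
        ¬ Memf (FW.opN (natN Cn n) (elN t)) σ r'')
  refine ((((hD.and hDs).and (hD1.and hD1t)).and ((hD1s.and hD2).and (hD2t.and el))).and
    ((FW.ev_natN.and FW.ev_opN).and (FW.ev_mem.and (FW.ev_dir.and FW.ev_sub)))).mono ?_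
  rintro M G ⟨⟨⟨⟨hD, hDs⟩, hD1, hD1t⟩, ⟨hD1s, hD2⟩, hD2t, hel1, -⟩, ⟨hnat, hop⟩, hmem, hdir,
    hsub⟩
  intro ν hν φ hφ S hS hyp
  have hpn : ∀ (n : ℕ) (t : Nd), Ob.nd t ∈ M → FW.opN (natN Cn n) (elN t) ∈ pp.H M ∧
      pp.vl M G (FW.opN (natN Cn n) (elN t)) = ZFSet.pair (nat n) (pp.vl M G (elN t)) := by
    intro n t ht
    obtain ⟨h1, h2⟩ := hop _ (hnat n).1 _ (hel1 t ht)
    exact ⟨h1, by rw [h2, (hnat n).2]⟩
  rcases hD [.nm ν, .nm φ, .s1 S] (by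
    intro x hx
    simp only [List.mem_cons, List.not_mem_nil, or_false] at hx
    rcases hx with rfl | rfl | rfl
    · exact hν
    · exact hφ
    · exact hS) with ⟨q, hq, ν', φ', S', s0, h1, h2, h3⟩ | ⟨p, hp, hpD⟩
  · exfalso
    simp only [List.cons.injEq, Ob.nm.injEq, Ob.s1.injEq, and_true] at h1
    obtain ⟨rfl, rfl, rfl⟩ := h1
    obtain ⟨x, hx, q', ν', φ', S', s, h4, rfl, h5, h6⟩ := hDs [.cn q, .nm ν, .nm φ, .s1 S] (by
      intro x hx
      simp only [List.mem_cons, List.not_mem_nil, or_false] at hx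
      rcases hx with rfl | rfl | rfl | rfl
      · exact hsub hq
      · exact hν
      · exact hφ
      · exact hS) ⟨.nd s0, q, ν, φ, S, s0, rfl, rfl, h2, h3⟩
    simp only [List.cons.injEq, Ob.nm.injEq, Ob.s1.injEq, Ob.cn.injEq, and_true] at h4
    obtain ⟨rfl, rfl, rfl, rfl⟩ := h4
    have hs : s ∈ TG ν M G := ⟨hx, q, hq, h5⟩
    obtain ⟨σ, hσ, h7, h8⟩ := hyp s hs
    rcases hD1 [.nm ν, .nm σ] (by
      intro x hx
      simp only [List.mem_cons, List.not_mem_nil, or_false] at hx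
      rcases hx with rfl | rfl
      · exact hν
      · exact hσ) with ⟨r, hr, ν', σ', n, t0, t0', h9, h10, h11, h12, h13⟩ | ⟨p1, hp1, hp1D⟩
    · simp only [List.cons.injEq, Ob.nm.injEq, and_true] at h9
      obtain ⟨rfl, rfl⟩ := h9
      obtain ⟨x, hxt, r', ν', σ', n', t, t1, h14, rfl, h15, h16, h17, h18⟩ :=
        hD1t [.cn r, .nm ν, .nm σ] (by
          intro x hx
          simp only [List.mem_cons, List.not_mem_nil, or_false] at hx
          rcases hx with rfl | rfl | rfl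
          · exact hsub hr
          · exact hν
          · exact hσ) ⟨.nd t0, r, ν, σ, n, t0, t0', rfl, rfl, h10, h11, h12, h13⟩
      simp only [List.cons.injEq, Ob.nm.injEq, Ob.cn.injEq, and_true] at h14
      obtain ⟨rfl, rfl, rfl⟩ := h14
      obtain ⟨x, hxt', r', ν', σ', m, t', t2, h19, rfl, h20, h21, h22, h23⟩ :=
        hD1s [.cn r, .nm ν, .nm σ, .nd t] (by
          intro x hx
          simp only [List.mem_cons, List.not_mem_nil, or_false] at hx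
          rcases hx with rfl | rfl | rfl | rfl
          · exact hsub hr
          · exact hν
          · exact hσ
          · exact hxt) ⟨.nd t1, r, ν, σ, n', t, t1, rfl, rfl, h15, h16, h17, h18⟩
      simp only [List.cons.injEq, Ob.nm.injEq, Ob.cn.injEq, Ob.nd.injEq, and_true] at h19
      obtain ⟨rfl, rfl, rfl, rfl⟩ := h19
      have ht' : t2 ∈ TG ν M G := ⟨hxt', r, hr, h21⟩
      have ht : t ∈ TG ν M G := ⟨hxt, r, hr, nb_ok h20.le h21⟩
      obtain ⟨h24, h25⟩ := hpn m t hxt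
      obtain ⟨h26, h27⟩ := hpn m t2 hxt'
      have h28 := (hmem _ h24 σ hσ).2 ⟨r, hr, h22⟩
      have h29 := (hmem _ h26 σ hσ).2 ⟨r, hr, h23⟩
      rw [h25] at h28
      rw [h27] at h29
      exact h7 m t ht t2 ht' h20 h28 h29
    · rcases hD2 [.nm ν, .nm φ, .s1 S, .nd s, .nm σ] (by
        intro x hx
        simp only [List.mem_cons, List.not_mem_nil, or_false] at hx
        rcases hx with rfl | rfl | rfl | rfl | rfl
        · exact hν
        · exact hφ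
        · exact hS
        · exact hs.1
        · exact hσ) with ⟨r, hr, ν', φ', σ', S', s', t0, h9, h10, h11, h12, h13⟩ | ⟨p2, hp2, hp2D⟩
      · simp only [List.cons.injEq, Ob.nm.injEq, Ob.s1.injEq, Ob.nd.injEq, and_true] at h9
        obtain ⟨rfl, rfl, rfl, rfl, rfl⟩ := h9
        obtain ⟨x, hxt, r', ν', φ', σ', S', s', t, h14, rfl, h15, h16, h17, h18⟩ :=
          hD2t [.cn r, .nm ν, .nm φ, .s1 S, .nd s, .nm σ] (by
            intro x hx
            simp only [List.mem_cons, List.not_mem_nil, or_false] at hx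
            rcases hx with rfl | rfl | rfl | rfl | rfl | rfl
            · exact hsub hr
            · exact hν
            · exact hφ
            · exact hS
            · exact hs.1
            · exact hσ) ⟨.nd t0, r, ν, φ, σ, S, s, t0, rfl, rfl, h10, h11, h12, h13⟩
        simp only [List.cons.injEq, Ob.nm.injEq, Ob.s1.injEq, Ob.nd.injEq, Ob.cn.injEq,
          and_true] at h14
        obtain ⟨rfl, rfl, rfl, rfl, rfl, rfl⟩ := h14
        have ht : t ∈ TG ν M G := ⟨hxt, r, hr, h15⟩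
        obtain ⟨h19, h20⟩ := hop _ (hel1 t hxt) _ (hel1 s hs.1)
        have h21 := (hmem _ h19 φ hφ).2 ⟨r, hr, h17⟩
        rw [h20] at h21
        obtain ⟨n, h22⟩ := h8 t ht h16 h21
        obtain ⟨h23, h24⟩ := hpn n t hxt
        rw [← h24] at h22
        obtain ⟨r0, hr0, h25⟩ := (hmem _ h23 σ hσ).1 h22
        obtain ⟨r1, _, hr1, hr2⟩ := hdir r hr r0 hr0
        exact h18 r1 hr1 n (CR.Memf_mono h25 hr2)
      · obtain ⟨r0, hr0, hr0q, hr0p⟩ := hdir q hq p1 hp1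
        obtain ⟨r, hr, hrr, hrp⟩ := hdir r0 hr0 p2 hp2
        refine h6 r (hrr.trans hr0q) σ ⟨?_, ?_⟩
        · intro r' hr' n t t' htt hok hm1 hm2
          exact hp1D r' ⟨ν, σ, n, t, t', rfl, htt, hok, hm1, hm2⟩ r'
            (hr'.trans (hrr.trans hr0p)) le_rfl
        · intro r' hr' t hok hlen hm
          by_contra hcon
          push Not at hcon
          exact hp2D r' ⟨ν, φ, σ, S, s, t, rfl, hok, hlen, hm, hcon⟩ r'
            (hr'.trans hrp) le_rfl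
  · refine ⟨p, hp, ?_⟩
    intro q hq s hok
    by_contra hcon
    push Not at hcon
    refine hpD q ⟨ν, φ, S, s, rfl, hok, ?_⟩ q hq le_rfl
    rintro r hr σ ⟨h1, h2⟩
    obtain ⟨r', hr', t, h3, h4, h5, h6⟩ := hcon r hr σ h1
    obtain ⟨r'', h7, n, h8⟩ := h2 r' hr' t h3 h4 h5
    exact h6 r'' h7 n h8

end Pool.Agent.NST
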