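import Pool.Agent.Lib.MP_2e4b78_lc.Mod.Stm

set_option autoImplicit false

/-!
# MP_2e4b78_lc : sets outside of the ideal are positive in the model
-/

open Cardinal Set Order
open scoped Ordinal

namespace Pool.Agent.NST

open Pool.Agent.MP2e4b78 (W1 W2 Lim IsNormalIdeal)
open Pool.Agent.CR (V Nm nat natN Memf Eqf IsTransModelZFC)
open Pool.Agent.FW (Ev)

theorem p_NG (ok : S_OK) (ml : S_ML) (ij : S_IJ) (el : S_EL) (_on : S_ON) (_wv : S_WV)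
    (av : S_AV) (na : S_NA) (nb : S_NB) : S_NG := by
  have hroot := FW.ev_fun (π := pp) (fun _ => .nd Nd.root)
  have hlen := FW.ev_fun (π := pp) (fun l => match l with
    | [.nd t] => .w1 t.len
    | _ => .no)
  refine ((((hroot.and hlen).and (el.and av)).and (na.and nb)).and
    (FW.ev_ne.and FW.ev_dir)).mono ?_
  rintro M G ⟨⟨⟨⟨hroot, hlen⟩, ⟨hel1, hel2⟩, hav⟩, hna, hnb⟩, hne, hdir⟩
  intro ν hν hN ht hht S hS hO hNS
  obtain ⟨-, -, -, -, -, -, ijr, -, ijs⟩ := ij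
  obtain ⟨ok1, ok2, -, ok4, -, ok6, ok7, -, -⟩ := ok
  obtain ⟨f, ⟨φ, hφ, hφf⟩, hf1, hf2⟩ := hNS
  have hφf' : pp.vl M G φ = fn f := hφf
  obtain ⟨-, hav2, -⟩ := hav ν hν
  have hnode : ∀ x : El (Av ν M G), ∃ t ∈ TG ν M G, x.1 = pp.vl M G (elN t) := fun x =>
    (hav2 x.1).1 x.2
  have helt : ∀ t ∈ TG ν M G, ∃ x : El (Av ν M G), x.1 = pp.vl M G (elN t) := fun t ht =>
    ⟨⟨_, (hav2 _).2 ⟨t, ht, rfl⟩⟩, rfl⟩
  have hB : ∀ (x : El (Av ν M G)) (t : Nd), t ∈ TG ν M G → x.1 = pp.vl M G (elN t) →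
      t.len ∈ S → ht x ∈ im1 M G S := by
    intro x t htG hx hlS
    exact ⟨t.len, hlS, hlen [.nd t] (by simpa using htG.1), hht x t htG hx⟩
  obtain ⟨p1, hp1, h1⟩ := hna ν hν φ hφ S hS (by
    intro t htG hlS hbot
    obtain ⟨x, hx⟩ := helt t htG
    obtain ⟨p, hp⟩ := hne
    have hr : Nd.root ∈ TG ν M G := ⟨hroot [] (by simp), p, hp, ok4 ν p⟩
    obtain ⟨r, hr2⟩ := helt _ hr
    have hlt : Nd.root < t := lt_of_le_of_ne (Nd.root_le t) (by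
      rintro rfl
      exact hbot Nd.root_len)
    obtain ⟨s, t', hs, ht', h2, h3, h4⟩ := hf1 x (hB x t htG hx hlS)
      ⟨r, Nd.root, t, hr, htG, hr2, hx, hlt⟩
    have h5 := hel2 t t' htG.1 ht'.1 (hx.symm.trans h3)
    subst h5
    refine ⟨s, hs, h4, ?_⟩
    rw [hφf', ← hx, ← h2]
    exact (ijr _ _ _ x (f x)).2 rfl)
  obtain ⟨p2, hp2, h2⟩ := hnb ν hν φ hφ S hS (by
    intro s hs
    obtain ⟨y, hy⟩ := helt s hs
    obtain ⟨F, ⟨σ, hσ, hσF⟩, hF1, hF2⟩ := hf2 y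
    have hσF' : pp.vl M G σ = sq F := hσF
    refine ⟨σ, hσ, ?_, ?_⟩
    · intro n t htG t' htG' hlt hm hm'
      obtain ⟨x, hx⟩ := helt t htG
      obtain ⟨x', hx'⟩ := helt t' htG'
      rw [hσF', ← hx] at hm
      rw [hσF', ← hx'] at hm'
      have h3 := (ijs _ F n x).1 hm
      have h4 := (ijs _ F n x').1 hm'
      exact hF1 n x h3 x' h4 ⟨t, t', htG, htG', hx, hx', hlt⟩
    · intro t htG hlS hm
      obtain ⟨x, hx⟩ := helt t htG
      rw [hφf', ← hx, ← hy] at hm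
      have h3 : f x = y := (ijr _ _ _ x y).1 hm
      have h4 : x ∈ {t | t ∈ {t | ht t ∈ im1 M G S} ∧ f t = y} := ⟨hB x t htG hx hlS, h3⟩
      rw [hF2] at h4
      obtain ⟨n, hn⟩ := Set.mem_iUnion.1 h4
      refine ⟨n, ?_⟩
      rw [hσF', ← hx]
      exact (ijs _ F n x).2 hn)
  obtain ⟨pN, hpN, hN⟩ := hN
  obtain ⟨pO, hpO, hO⟩ := hO
  obtain ⟨a, ha, ha1, ha2⟩ := hdir p1 hp1 p2 hp2
  obtain ⟨b, hb, hb1, hb2⟩ := hdir pN hpN pO hpO
  obtain ⟨p, hp, hpa, hpb⟩ := hdir a ha b hb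
  refine ml ν p S (fun p t s => Memf (FW.opN (elN t) (elN s)) φ p)
    (fun p σ n t => Memf (FW.opN (natN Cn n) (elN t)) σ p)
    (ok7 ν pN p (hpb.trans hb1) hN) (ok6 ν pO p S (hpb.trans hb2) hO)
    (fun p q t s h h' => CR.Memf_mono h' h) (fun p q σ n t h h' => CR.Memf_mono h' h) ?_ ?_
  · intro q hq t h3 h4 h5
    exact h1 q (hq.trans (hpa.trans ha1)) t h3 h4 h5
  · intro q hq s h3
    exact h2 q (hq.trans (hpa.trans ha2)) s h3

end Pool.Agent.NST
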