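import Pool.Agent.Lib.MP_2e4b78_lc.Mod.Stm

set_option autoImplicit false

/-!
# MP_2e4b78_lc : truth for `Norm`
-/

open Cardinal Set Order
open scoped Ordinal

namespace Pool.Agent.NST

open Pool.Agent.MP2e4b78 (W1 W2 Lim IsNormalIdeal)
open Pool.Agent.CR (V Nm nat natN Memf Eqf IsTransModelZFC)
open Pool.Agent.FW (Ev)

/-- either a counterexample in the world or none below a condition -/
theorem ni_gen (W : Nm Cn → Cn → Ob → Prop) : Ev pp (fun M G => ∀ ν ∈ pp.H M,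
    (∃ q ∈ G, ∃ x ∈ M, W ν q x) ∨ ∃ p ∈ G, ∀ q ≤ p, ∀ x, ¬ W ν q x) := by
  refine ((FW.ev_gen (π := pp) (fun l => {q : Cn | ∃ ν, l = [Ob.nm ν] ∧ ∃ x, W ν q x})).and
    ((FW.ev_rel (π := pp) (fun l x => ∃ q ν, l = [Ob.cn q, Ob.nm ν] ∧ W ν q x)).and
    FW.ev_sub)).mono ?_
  rintro M G ⟨h1, h2, h3⟩ ν hν
  rcases h1 [Ob.nm ν] (by
    intro x hx
    rw [List.mem_singleton] at hx
    subst hx
    exact hν) with ⟨s, hsG, ν', e1, x, hx⟩ | ⟨p, hpG, hp⟩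
  · have e2 : ν = ν' := by simpa using e1
    subst e2
    obtain ⟨y, hy, q, ν', e3, hq⟩ := h2 [Ob.cn s, Ob.nm ν] (by
      intro x hx
      rcases List.mem_cons.1 hx with rfl | hx
      · exact h3 hsG
      · rw [List.mem_singleton] at hx
        subst hx
        exact hν) ⟨x, s, ν, rfl, hx⟩
    have e4 : s = q ∧ ν = ν' := by simpa using e3
    obtain ⟨rfl, rfl⟩ := e4
    exact Or.inl ⟨s, hsG, y, hy, hq⟩
  · exact Or.inr ⟨p, hpG, fun q hq x hx => hp q ⟨ν, rfl, x, hx⟩ q hq le_rfl⟩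

/-- counterexamples -/
def ni_1 (ν : Nm Cn) (q : Cn) (x : Ob) : Prop :=
  ∃ X Y : Set W1, x = .pr (.s1 X) (.s1 Y) ∧ In ν q X ∧ Y ⊆ X ∧ Ou ν q Y

def ni_2 (ν : Nm Cn) (q : Cn) (x : Ob) : Prop :=
  ∃ X Y : Set W1, x = .pr (.s1 X) (.pr (.s1 Y) (.s1 (X ∪ Y))) ∧ In ν q X ∧ In ν q Y ∧
    Ou ν q (X ∪ Y)

def ni_3 (ν : Nm Cn) (q : Cn) (x : Ob) : Prop := x = .s1 Set.univ ∧ In ν q Set.univ

def ni_4 (ν : Nm Cn) (q : Cn) (x : Ob) : Prop :=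
  ∃ α : W1, x = .pr (.w1 α) (.s1 {α}) ∧ Ou ν q {α}

def ni_5 (ν : Nm Cn) (q : Cn) (x : Ob) : Prop :=
  ∃ F : W1 → Set W1, x = .pr (.f1 (fun i => .s1 (F i))) (.s1 {β | ∃ α < β, β ∈ F α}) ∧
    (∀ i, In ν q (F i)) ∧ Ou ν q {β | ∃ α < β, β ∈ F α}

/-- the absence of counterexamples below `p` -/
theorem ni_norm (ok : S_OK) (ν : Nm Cn) (p : Cn) (h1 : ∀ q ≤ p, ∀ x, ¬ ni_1 ν q x)
    (h2 : ∀ q ≤ p, ∀ x, ¬ ni_2 ν q x) (h3 : ∀ q ≤ p, ∀ x, ¬ ni_3 ν q x)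
    (h4 : ∀ q ≤ p, ∀ x, ¬ ni_4 ν q x) (h5 : ∀ q ≤ p, ∀ x, ¬ ni_5 ν q x) : Norm ν p := by
  obtain ⟨-, -, -, -, o5, -, -, o8, -⟩ := ok
  have key : ∀ q ≤ p, ∀ S, ¬ In ν q S → ∃ r ≤ q, Ou ν r S := by
    intro q _ S hS
    by_contra hcon
    exact hS (o8 ν q S fun r hr hO => hcon ⟨r, hr, hO⟩)
  intro q hq
  refine ⟨?_, ?_, ?_, ?_, ?_⟩
  · intro X Y hX hYX
    by_contra hY
    obtain ⟨r, hr, hO⟩ := key q hq Y hY
    exact h1 r (hr.trans hq) _ ⟨X, Y, rfl, o5 ν q r X hr hX, hYX, hO⟩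
  · intro X Y hX hY
    by_contra hU
    obtain ⟨r, hr, hO⟩ := key q hq (X ∪ Y) hU
    exact h2 r (hr.trans hq) _ ⟨X, Y, rfl, o5 ν q r X hr hX, o5 ν q r Y hr hY, hO⟩
  · intro hX
    exact h3 q hq _ ⟨rfl, hX⟩
  · intro α
    by_contra hU
    obtain ⟨r, hr, hO⟩ := key q hq {α} hU
    exact h4 r (hr.trans hq) _ ⟨α, rfl, hO⟩
  · intro F hF
    by_contra hU
    obtain ⟨r, hr, hO⟩ := key q hq _ hU
    exact h5 r (hr.trans hq) _ ⟨F, rfl, fun i => o5 ν q r _ hr (hF i), hO⟩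

theorem ni_inj : Function.Injective (fun x : W1 × W1 => Ob.pr (Ob.w1 x.1) (Ob.w1 x.2)) := by
  intro x y h
  have h' : x.1 = y.1 ∧ x.2 = y.2 := by simpa using h
  exact Prod.ext h'.1 h'.2

theorem p_NI (_e1 : S_E1) (ok : S_OK) (ij : S_IJ) (bg : S_BG) (cl : S_CL) (on : S_ON) (wv : S_WV)
    (ii : S_II) : S_NI := by
  refine ((ni_gen ni_1).and ((ni_gen ni_2).and ((ni_gen ni_3).and ((ni_gen ni_4).and
    ((ni_gen ni_5).and (FW.ev_dir.and (cl.and (on.and (wv.and (ii.and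
    ((bg (W1 × W1) (fun x => Ob.pr (Ob.w1 x.1) (Ob.w1 x.2)) ni_inj
      (fun _ x => FW.opN (oN x.1) (oN x.2))
      (fun l x => {_p | ∃ F : W1 → Set W1, l = [Ob.f1 (fun i => Ob.s1 (F i))] ∧
        x.2 ∈ F x.1})).and FW.ev_opN))))))))))).mono ?_
  rintro M G ⟨g1, g2, g3, g4, g5, hdir, hcl, hon, hwv, hii, hbg, hop⟩ ν hν I hI hN
  have hmem : ∀ S, Ob.s1 S ∈ M → (∃ p ∈ G, In ν p S) → im1 M G S ∈ I :=
    fun S hS h => (hii ν hν I hI S hS).1.2 h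
  have hnot : ∀ S, Ob.s1 S ∈ M → (∃ p ∈ G, Ou ν p S) → im1 M G S ∉ I :=
    fun S hS h => (hii ν hν I hI S hS).2.2 h
  have hcs : ∀ S, Ob.s1 S ∈ M → cs (im1 M G S) ∈ pp.N M G := by
    intro S hS
    obtain ⟨h1, h2⟩ := hwv.2.2.1 S hS
    exact ⟨sN S, h1, h2⟩
  have hz : ∀ z : El (Wv M G), ∃ i, Ob.w1 i ∈ M ∧ z.1 = pp.vl M G (oN i) :=
    fun z => (hwv.2.1 z.1).1 z.2
  have k1 : ∃ p ∈ G, ∀ q ≤ p, ∀ x, ¬ ni_1 ν q x := by
    rcases g1 ν hν with ⟨q, hq, x, hxM, X, Y, rfl, hX, hYX, hY⟩ | h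
    · exfalso
      obtain ⟨hXM, hYM⟩ := (hcl.1 _ _).1 hxM
      refine hnot Y hYM ⟨q, hq, hY⟩ (hN.subset_mem _ (hmem X hXM ⟨q, hq, hX⟩) _ ?_ (hcs Y hYM))
      rintro z ⟨i, hi, h1, h2⟩
      exact ⟨i, hYX hi, h1, h2⟩
    · exact h
  have k2 : ∃ p ∈ G, ∀ q ≤ p, ∀ x, ¬ ni_2 ν q x := by
    rcases g2 ν hν with ⟨q, hq, x, hxM, X, Y, rfl, hX, hY, hU⟩ | h
    · exfalso
      obtain ⟨hXM, hYU⟩ := (hcl.1 _ _).1 hxM
      obtain ⟨hYM, hUM⟩ := (hcl.1 _ _).1 hYU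
      have h1 := hN.union_mem _ (hmem X hXM ⟨q, hq, hX⟩) _ (hmem Y hYM ⟨q, hq, hY⟩)
      have h2 : im1 M G X ∪ im1 M G Y = im1 M G (X ∪ Y) := by
        ext z
        constructor
        · rintro (⟨i, hi, h1, h2⟩ | ⟨i, hi, h1, h2⟩)
          · exact ⟨i, Or.inl hi, h1, h2⟩
          · exact ⟨i, Or.inr hi, h1, h2⟩
        · rintro ⟨i, hi | hi, h1, h2⟩
          · exact Or.inl ⟨i, hi, h1, h2⟩
          · exact Or.inr ⟨i, hi, h1, h2⟩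
      rw [h2] at h1
      exact hnot _ hUM ⟨q, hq, hU⟩ h1
    · exact h
  have k3 : ∃ p ∈ G, ∀ q ≤ p, ∀ x, ¬ ni_3 ν q x := by
    rcases g3 ν hν with ⟨q, hq, x, hxM, rfl, hX⟩ | h
    · exfalso
      refine hN.proper ?_
      have h1 := hmem _ hxM ⟨q, hq, hX⟩
      have h2 : im1 M G Set.univ = Set.univ := by
        ext z
        refine ⟨fun _ => trivial, fun _ => ?_⟩
        obtain ⟨i, h3, h4⟩ := hz z
        exact ⟨i, trivial, h3, h4⟩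
      rwa [h2] at h1
    · exact h
  have k4 : ∃ p ∈ G, ∀ q ≤ p, ∀ x, ¬ ni_4 ν q x := by
    rcases g4 ν hν with ⟨q, hq, x, hxM, α, rfl, hX⟩ | h
    · exfalso
      obtain ⟨hα, hS⟩ := (hcl.1 _ _).1 hxM
      refine hnot _ hS ⟨q, hq, hX⟩ ?_
      have h1 : pp.vl M G (oN α) ∈ Wv M G := (hwv.2.1 _).2 ⟨α, hα, rfl⟩
      have h2 : im1 M G {α} = {⟨pp.vl M G (oN α), h1⟩} := by
        ext z
        constructor
        · rintro ⟨i, hi, h3, h4⟩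
          rw [Set.mem_singleton_iff] at hi
          subst hi
          exact Subtype.ext h4
        · intro h3
          rw [Set.mem_singleton_iff] at h3
          exact ⟨α, rfl, hα, by rw [h3]⟩
      rw [h2]
      exact hN.singleton_mem _
    · exact h
  have k5 : ∃ p ∈ G, ∀ q ≤ p, ∀ x, ¬ ni_5 ν q x := by
    rcases g5 ν hν with ⟨q, hq, x, hxM, F, rfl, hF, hU⟩ | h
    · exfalso
      obtain ⟨hFM, hUM⟩ := (hcl.1 _ _).1 hxM
      have hFi : ∀ i, Ob.w1 i ∈ M → Ob.s1 (F i) ∈ M := fun i hi => hcl.2.2.1 _ i hFM hi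
      let F' : El (Wv M G) → Set (El (Wv M G)) := fun z =>
        {y | ∃ i, Ob.w1 i ∈ M ∧ z.1 = pp.vl M G (oN i) ∧ y ∈ im1 M G (F i)}
      have hF' : ∀ z i, Ob.w1 i ∈ M → z.1 = pp.vl M G (oN i) → F' z = im1 M G (F i) := by
        intro z i hi hzi
        ext y
        constructor
        · rintro ⟨i', h1, h2, h3⟩
          have h4 : i = i' := hon.2.2.1 i i' hi h1 (hzi.symm.trans h2)
          rw [h4]
          exact h3
        · intro h1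
          exact ⟨i, hi, hzi, h1⟩
      have hI' : ∀ z, F' z ∈ I := by
        intro z
        obtain ⟨i, hi, hzi⟩ := hz z
        rw [hF' z i hi hzi]
        exact hmem _ (hFi i hi) ⟨q, hq, hF i⟩
      obtain ⟨b1, -, b3⟩ := hbg [Ob.f1 (fun i => Ob.s1 (F i))] (by
        intro x hx
        rw [List.mem_singleton] at hx
        subst hx
        exact hFM)
      have hrel : rel (fun α β => β ∈ F' α) ∈ pp.N M G := by
        refine ⟨_, b1, ?_⟩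
        apply ZFSet.ext
        intro w
        rw [ij.2.2.2.2.2.1]
        refine (b3 w).trans ?_
        constructor
        · rintro ⟨⟨i, j⟩, hob, ⟨p, hp, F₁, e2, hj⟩, hw⟩
          obtain ⟨hi, hj'⟩ := (hcl.1 _ _).1 hob
          have e3 : F₁ = F := by
            have e4 : (fun i => Ob.s1 (F i)) = fun i => Ob.s1 (F₁ i) := by simpa using e2
            funext i
            exact (Ob.s1.inj (congrFun e4 i)).symm
          subst e3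
          have hiW : pp.vl M G (oN i) ∈ Wv M G := (hwv.2.1 _).2 ⟨i, hi, rfl⟩
          have hjW : pp.vl M G (oN j) ∈ Wv M G := (hwv.2.1 _).2 ⟨j, hj', rfl⟩
          refine ⟨⟨_, hiW⟩, ⟨_, hjW⟩, ⟨i, hi, rfl, j, hj, hj', rfl⟩, ?_⟩
          rw [hw]
          exact (hop _ (hon.1 i hi) _ (hon.1 j hj')).2
        · rintro ⟨x, y, ⟨i, hi, hxi, j, hj, hj', hyj⟩, hw⟩
          refine ⟨(i, j), (hcl.1 _ _).2 ⟨hi, hj'⟩, ⟨q, hq, F, rfl, hj⟩, ?_⟩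
          rw [hw, hxi, hyj]
          exact (hop _ (hon.1 i hi) _ (hon.1 j hj')).2.symm
      have h1 := hN.diag_mem F' hrel hI'
      have h2 : {β : El (Wv M G) | ∃ α : El (Wv M G), α.1 ∈ β.1 ∧ β ∈ F' α} =
          im1 M G {β | ∃ α < β, β ∈ F α} := by
        ext z
        constructor
        · rintro ⟨α, hα, i, hi, hαi, j, hj, hj', hzj⟩
          refine ⟨j, ⟨i, ?_, hj⟩, hj', hzj⟩
          rw [hαi, hzj] at hα
          exact (hon.2.2.2 i j hi hj').1 hα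
        · rintro ⟨j, ⟨i, hij, hj⟩, hj', hzj⟩
          have hi : Ob.w1 i ∈ M := hcl.2.2.2.2.2.2.2.2.2.1 j i hj' hij
          have hiW : pp.vl M G (oN i) ∈ Wv M G := (hwv.2.1 _).2 ⟨i, hi, rfl⟩
          refine ⟨⟨_, hiW⟩, ?_, i, hi, rfl, j, hj, hj', hzj⟩
          rw [hzj]
          exact (hon.2.2.2 i j hi hj').2 hij
      rw [h2] at h1
      exact hnot _ hUM ⟨q, hq, hU⟩ h1
    · exact h
  obtain ⟨p1, hp1, k1⟩ := k1
  obtain ⟨p2, hp2, k2⟩ := k2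
  obtain ⟨p3, hp3, k3⟩ := k3
  obtain ⟨p4, hp4, k4⟩ := k4
  obtain ⟨p5, hp5, k5⟩ := k5
  obtain ⟨r1, hr1, a1, a2⟩ := hdir p1 hp1 p2 hp2
  obtain ⟨r2, hr2, a3, a4⟩ := hdir r1 hr1 p3 hp3
  obtain ⟨r3, hr3, a5, a6⟩ := hdir r2 hr2 p4 hp4
  obtain ⟨p, hp, a7, a8⟩ := hdir r3 hr3 p5 hp5
  refine ⟨p, hp, ni_norm ok ν p (fun q hq => k1 q ?_) (fun q hq => k2 q ?_)
    (fun q hq => k3 q ?_) (fun q hq => k4 q ?_) (fun q hq => k5 q ?_)⟩
  · exact hq.trans (a7.trans (a5.trans (a3.trans a1)))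
  · exact hq.trans (a7.trans (a5.trans (a3.trans a2)))
  · exact hq.trans (a7.trans (a5.trans a4))
  · exact hq.trans (a7.trans a6)
  · exact hq.trans a8

end Pool.Agent.NST
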