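import Pool.Agent.Lib.MP_2e4b78_lc.Mod.Stm

set_option autoImplicit false

/-!
# MP_2e4b78_lc : simple facts about the nodes decided by a condition
-/

open Cardinal Set Order
open scoped Ordinal

namespace Pool.Agent.NST

open Pool.Agent.MP2e4b78 (W1 W2 Lim IsNormalIdeal exists_inj)
open Pool.Agent.CR (Nm V nat natN Memf Eqf Memf_mono Memf_reg)

private theorem ok_in {ν : Nm Cn} {p q : Cn} {S : Set W1} (hq : q ≤ p) (h : In ν p S) :
    In ν q S := Memf_mono h hq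

private theorem ok_ou {ν : Nm Cn} {p q : Cn} {S : Set W1} (hq : q ≤ p) (h : Ou ν p S) :
    Ou ν q S := fun r hr => h r (le_trans hr hq)

private theorem ok_tp {p q : Cn} {M : Set W2} {γ : W2} (hq : q ≤ p) (h : Tp p M γ) :
    Tp q M γ := by
  obtain ⟨h1, h2, h3, h4⟩ := Cn.le_def.1 hq
  obtain ⟨a, b, c⟩ := h
  refine ⟨(h3 γ (p.E_lt γ a).le).2 a, b, fun y hy => ?_⟩
  obtain ⟨n, hn, hm⟩ := c y hy
  refine ⟨n, ?_, ?_⟩
  · rw [h4 γ a]; exact hn
  · rw [h4 γ a]; exact hm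

private theorem ok_mono {ν : Nm Cn} {p q : Cn} {t : Nd} (hq : q ≤ p) (h : Ok ν p t) :
    Ok ν q t := by
  intro i hi hl
  obtain ⟨⟨γ, hγ⟩, h2⟩ := h i hi hl
  refine ⟨⟨γ, ok_tp hq hγ⟩, fun ξ hξ hd => ?_⟩
  have hξγ : ξ < γ := hγ.2.1 ξ hξ
  have hξp : ξ < p.top := hξγ.trans (p.E_lt γ hγ.1)
  have hx : q.x ξ = p.x ξ := (Cn.le_def.1 hq).2.1 ξ hξp
  rw [hx] at hd ⊢
  exact ok_ou hq (h2 ξ hξ hd)

private theorem ok_le {ν : Nm Cn} {p : Cn} {s t : Nd} (hst : s ≤ t) (h : Ok ν p t) :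
    Ok ν p s := by
  intro i hi hl
  have h1 := h i (hi.trans hst.1) hl
  have h2 := hst.2 i hi
  rw [h2.1, h2.2]
  exact h1

private theorem ok_succ {ν : Nm Cn} {p : Cn} {t t' : Nd} (htt : t ≤ t')
    (hl' : t'.len = Order.succ t.len) (h : Ok ν p t) : Ok ν p t' := by
  intro i hi hl
  have hi' : i ≤ t.len := by
    by_contra hc
    push Not at hc
    have h1 : Order.succ t.len < i := by
      obtain ⟨k, hk1, hk2⟩ := hl.2 _ hc
      exact lt_of_le_of_lt (Order.succ_le_of_lt hk1) hk2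
    rw [hl'] at hi
    exact absurd h1 (not_lt.2 hi)
  have h2 := htt.2 i hi'
  rw [← h2.1, ← h2.2]
  exact h i hi' hl

private theorem ok_root (ν : Nm Cn) (p : Cn) : Ok ν p Nd.root := by
  intro i hi hl
  obtain ⟨j, hj⟩ := hl.1
  rw [Nd.root_len] at hi
  exact absurd (hj.trans_le hi) not_lt_bot

theorem p_OK : S_OK := by
  refine ⟨fun ν p q t hq h => ok_mono hq h, fun ν p s t hst h => ok_le hst h,
    fun ν p t t' htt hl h => ok_succ htt hl h, ok_root, fun ν p q S hq h => ok_in hq h,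
    fun ν p q S hq h => ok_ou hq h, fun ν p q hq h r hr => h r (le_trans hr hq),
    fun ν p S h => ?_, fun ν p h q hq => (h q hq).proper⟩
  refine Memf_reg (fun q hq => ?_)
  have h1 := h q hq
  unfold Ou at h1
  push Not at h1
  exact h1

end Pool.Agent.NST
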