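import Pool.Agent.Lib.MP_2e4b78_lc.Mod.Stm

set_option autoImplicit false

/-!
# MP_2e4b78_lc : the names of the ordinals
-/

namespace Pool.Agent.NST

open Pool.Agent.MP2e4b78 (W1 W2 Lim IsNormalIdeal exists_inj)
open Pool.Agent.CR (V Nm nat natN Memf Eqf IsTransModelZFC mem_val)
open Pool.Agent.FW (Ev ev_fun ev_rel ev_sub ev_ne)

theorem on_eq (i : W1) : oN i =
    .mk {z : W1 × Cn // z.1 < i} (fun z => oN z.1.1) (fun z => z.1.2) := by
  conv_lhs => rw [oN, WellFounded.fix_eq]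
  rfl

private theorem on_child {i j : W1} (h : i < j) (p : Cn) :
    ∃ b : (oN j).Ix, (oN j).fn b = oN i ∧ (oN j).cd b = p := by
  rw [on_eq j]
  exact ⟨⟨(i, p), h⟩, rfl, rfl⟩

private theorem on_child' {j : W1} : ∀ b : (oN j).Ix, ∃ i < j, (oN j).fn b = oN i := by
  rw [on_eq j]
  rintro ⟨⟨i, p⟩, h⟩
  exact ⟨i, h, rfl⟩

theorem p_ON : S_ON := by
  refine ((ev_ne (π := pp)).and
    ((ev_rel fun l o => ∃ i : W1, l = [Ob.w1 i] ∧ o = Ob.nm (oN i)).and
    (ev_rel fun l o => ∃ (τ : Nm Cn) (i j : W1), l = [Ob.nm τ, Ob.w1 i] ∧ o = Ob.w1 j ∧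
      j < i ∧ oN j = τ))).mono ?_
  rintro M G ⟨⟨p, hp⟩, h2, h3⟩
  have hto : ∀ i : W1, Ob.w1 i ∈ M → oN i ∈ pp.H M := by
    intro x hx
    obtain ⟨o, ho, x', e, e'⟩ := h2 [Ob.w1 x] (by simpa using hx) ⟨_, x, rfl, rfl⟩
    obtain rfl : x = x' := by simpa using e
    subst e'
    exact ho
  have hmem : ∀ i j : W1, Ob.w1 i ∈ M → i < j → pp.vl M G (oN i) ∈ pp.vl M G (oN j) := by
    intro i j hi hij
    obtain ⟨b, hb1, hb2⟩ := on_child hij p
    unfold FW.Pr.vl
    rw [mem_val]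
    exact ⟨b, by rw [hb1]; exact hto i hi, by rw [hb2]; exact hp, by rw [hb1]⟩
  have hval : ∀ i, Ob.w1 i ∈ M → ∀ z, z ∈ pp.vl M G (oN i) ↔
      ∃ j < i, Ob.w1 j ∈ M ∧ z = pp.vl M G (oN j) := by
    intro i hi z
    constructor
    · intro hz
      unfold FW.Pr.vl at hz
      rw [mem_val] at hz
      obtain ⟨b, hb1, _, hb3⟩ := hz
      obtain ⟨j, hj, hbj⟩ := on_child' b
      rw [hbj] at hb1 hb3
      obtain ⟨o, ho, τ, i', j', e1, e2, e3, e4⟩ := h3 [Ob.nm (oN j), Ob.w1 i] (by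
        intro x hx
        simp only [List.mem_cons, List.not_mem_nil, or_false] at hx
        rcases hx with rfl | rfl
        · exact hb1
        · exact hi) ⟨Ob.w1 j, oN j, i, j, rfl, rfl, hj, rfl⟩
      have h5 : oN j = τ ∧ i = i' := by simpa using e1
      obtain ⟨rfl, rfl⟩ := h5
      subst e2
      refine ⟨j', e3, ho, ?_⟩
      rw [e4]
      exact hb3
    · rintro ⟨j, hj, hjM, rfl⟩
      exact hmem j i hjM hj
  refine ⟨hto, hval, ?_, ?_⟩
  · intro i j hi hj hv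
    rcases lt_trichotomy i j with h | h | h
    · have h1 := hmem i j hi h
      rw [hv] at h1
      exact (ZFSet.mem_irrefl _ h1).elim
    · exact h
    · have h1 := hmem j i hj h
      rw [hv] at h1
      exact (ZFSet.mem_irrefl _ h1).elim
  · intro i j hi hj
    refine ⟨fun h => ?_, fun h => hmem i j hi h⟩
    rcases lt_trichotomy i j with h1 | h1 | h1
    · exact h1
    · subst h1
      exact (ZFSet.mem_irrefl _ h).elim
    · exact (ZFSet.mem_asymm h (hmem j i hj h1)).elim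

end Pool.Agent.NST
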