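import Pool.Agent.Lib.MP_2e4b78_lc.Mod.Stm

set_option autoImplicit false

/-!
# MP_2e4b78_lc : members of the ideal are small
-/

open Set Order

namespace Pool.Agent.NST

open Pool.Agent.MP2e4b78 (W1 W2 Lim)
open Pool.Agent.CR (V Nm nat natN Memf Eqf IsTransModelZFC)
open Pool.Agent.FW (Ev ev_rel ev_sub ev_dir)

private def po_H (p : Cn) (h : W2 → ℕ) : Prop :=
  ∀ γ ∈ p.E, ∀ γ' ∈ p.E, γ ≠ γ' → ∀ n ≥ h γ, ∀ m ≥ h γ', p.c γ n ≠ p.c γ' m

private def po_G (p : Cn) (ξ : W2) (h : W2 → ℕ) (g : Nd → W1) : Prop :=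
  ∀ t : Nd, g t ≤ t.len ∧
  (t.len ≠ ⊥ → g t < t.len) ∧ (Lim t.len → (∃ j < t.len, Qr p ξ h t j) → Qr p ξ h t (g t)) ∧
  (¬ Lim t.len → t.len ≠ ⊥ → t.len = Order.succ (g t))

private def po_A (p : Cn) (ξ : W2) (h : W2 → ℕ) (s : Nd) (A : ℕ → Set Nd) : Prop :=
  (∀ n, ∀ t ∈ A n, ∀ t' ∈ A n, ¬ t < t') ∧
    ∀ t, s ≤ t → (t.len = ⊥ ∨ t.len = Order.succ s.len ∨ Qr p ξ h t s.len) → ∃ n, t ∈ A n

private def po_E (l : List Ob) (s t : Nd) : Set Cn :=
  {_p | ∀ g, l = [.gf g] → t = s.res (g s)}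

private def po_F (l : List Ob) (n : ℕ) (t : Nd) : Set Cn :=
  {_p | ∀ A S g s, l = [.ab A, .s1 S, .gf g, .nd s] → t ∈ A n ∧ t.len ∈ S ∧ t.res (g t) = s}

private theorem po_w (fb : S_FB) (gs : S_GS) : Ev pp (fun M _ =>
    (∀ p, Ob.cn p ∈ M → ∃ h, Ob.hh h ∈ M ∧ po_H p h) ∧
    (∀ p ξ h, Ob.cn p ∈ M → Ob.od ξ ∈ M → Ob.hh h ∈ M → ∃ g, Ob.gf g ∈ M ∧ po_G p ξ h g) ∧
    ∀ p ξ h s, Ob.cn p ∈ M → Ob.od ξ ∈ M → Ob.hh h ∈ M → Ob.nd s ∈ M → po_H p h →
      ∃ A, Ob.ab A ∈ M ∧ po_A p ξ h s A) := by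
  refine ((ev_rel (π := pp) fun l y => ∃ p h, l = [.cn p] ∧ y = .hh h ∧ po_H p h).and
    ((ev_rel (π := pp) fun l y => ∃ p ξ h g, l = [.cn p, .od ξ, .hh h] ∧ y = .gf g ∧
      po_G p ξ h g).and
    (ev_rel (π := pp) fun l y => ∃ p ξ h s A, l = [.cn p, .od ξ, .hh h, .nd s] ∧ y = .ab A ∧
      po_A p ξ h s A))).mono ?_
  rintro M G ⟨h1, h2, h3⟩
  refine ⟨fun p hp => ?_, fun p ξ h hp hξ hh => ?_, fun p ξ h s hp hξ hh hs hH => ?_⟩
  · obtain ⟨h0, hh0⟩ := p.free
    obtain ⟨y, hy, p', h', e1, rfl, e3⟩ := h1 [.cn p] (by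
      intro x hx
      simp only [List.mem_cons, List.not_mem_nil, or_false] at hx
      subst hx
      exact hp) ⟨_, p, h0, rfl, rfl, hh0⟩
    injection e1 with e1 _
    injection e1 with e1
    subst e1
    exact ⟨h', hy, e3⟩
  · obtain ⟨g0, hg0⟩ := gs p ξ h
    obtain ⟨y, hy, p', ξ', h', g', e1, rfl, e3⟩ := h2 [.cn p, .od ξ, .hh h] (by
      intro x hx
      simp only [List.mem_cons, List.not_mem_nil, or_false] at hx
      rcases hx with rfl | rfl | rfl
      · exact hp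
      · exact hξ
      · exact hh) ⟨_, p, ξ, h, g0, rfl, rfl, hg0⟩
    injection e1 with e1 e2
    injection e1 with e1
    injection e2 with e2 e4
    injection e2 with e2
    injection e4 with e4 _
    injection e4 with e4
    subst e1 e2 e4
    exact ⟨g', hy, e3⟩
  · obtain ⟨A0, hA0⟩ := fb p ξ h hH s
    obtain ⟨y, hy, p', ξ', h', s', A', e1, rfl, e3⟩ := h3 [.cn p, .od ξ, .hh h, .nd s] (by
      intro x hx
      simp only [List.mem_cons, List.not_mem_nil, or_false] at hx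
      rcases hx with rfl | rfl | rfl | rfl
      · exact hp
      · exact hξ
      · exact hh
      · exact hs) ⟨_, p, ξ, h, s, A0, rfl, rfl, hA0⟩
    injection e1 with e1 e2
    injection e1 with e1
    injection e2 with e2 e4
    injection e2 with e2
    injection e4 with e4 e5
    injection e4 with e4
    injection e5 with e5 _
    injection e5 with e5
    subst e1 e2 e4 e5
    exact ⟨A', hy, e3⟩

private theorem po_eE {G : Set Cn} {p : Cn} (hp : p ∈ G) (g : Nd → W1) (s t : Nd) :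
    (∃ p ∈ G, p ∈ po_E [.gf g] s t) ↔ t = s.res (g s) := by
  constructor
  · rintro ⟨_, _, h⟩
    exact h g rfl
  · intro h
    refine ⟨p, hp, fun g' e => ?_⟩
    injection e with e _
    injection e with e
    subst e
    exact h

private theorem po_eF {G : Set Cn} {p : Cn} (hp : p ∈ G) (A : ℕ → Set Nd) (S : Set W1)
    (g : Nd → W1) (s : Nd) (n : ℕ) : {t | ∃ p ∈ G, p ∈ po_F [.ab A, .s1 S, .gf g, .nd s] n t} =
      {t | t ∈ A n ∧ t.len ∈ S ∧ t.res (g t) = s} := by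
  ext t
  constructor
  · rintro ⟨_, _, h⟩
    exact h A S g s rfl
  · intro h
    refine ⟨p, hp, fun A' S' g' s' e => ?_⟩
    injection e with e1 e
    injection e with e2 e
    injection e with e3 e
    injection e with e4 _
    injection e1 with e1
    injection e2 with e2
    injection e3 with e3
    injection e4 with e4
    subst e1 e2 e3 e4
    exact h

theorem p_PO (e1 : S_E1) (ok : S_OK) (ij : S_IJ) (cl : S_CL) (el : S_EL) (on : S_ON)
    (wv : S_WV) (av : S_AV) (rl : S_RL) (sc : S_SC) (xi : S_XI) (qe : S_QE) (fb : S_FB)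
    (gs : S_GS) : S_PO := by
  refine ((cl.and (el.and wv)).and ((av.and (rl po_E)).and ((sc po_F).and
    ((xi.and (po_w fb gs)).and ((ev_dir (π := pp)).and (ev_sub (π := pp))))))).mono ?_
  rintro M G ⟨⟨hcl, hel, hwv⟩, ⟨hav, hrl⟩, hsc, ⟨hxi, hwh, hwg, hwA⟩, hdir, hsub⟩ ν hν ht hfn hht
    S hS ⟨p0, hp0, hIn0⟩
  obtain ⟨p1, hp1, ξ, hξM, hξt1, hx1⟩ := hxi S hS
  obtain ⟨p, hp, hpp0, hpp1⟩ := hdir p0 hp0 p1 hp1
  have hcn : Ob.cn p ∈ M := hsub hp
  have hξt : ξ < p.top := lt_of_lt_of_le hξt1 hpp1.1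
  have hx : p.x ξ = S := (hpp1.2.1 ξ hξt1).trans hx1
  have hIn : In ν p S := ok.2.2.2.2.1 ν p0 p S hpp0 hIn0
  obtain ⟨h, hhM, hH⟩ := hwh p hcn
  obtain ⟨g, hgM, hG⟩ := hwg p ξ h hcn hξM hhM
  obtain ⟨-, hAv, him⟩ := hav ν hν
  -- nodes of elements
  have hN : ∀ z : El (Av ν M G), ∃ t ∈ TG ν M G, z.1 = pp.vl M G (elN t) := fun z =>
    (hAv z.1).1 z.2
  choose N hN1 hN2 using hN
  have hNu : ∀ (z : El (Av ν M G)) (t : Nd), t ∈ TG ν M G → z.1 = pp.vl M G (elN t) →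
      t = N z := fun z t ht1 ht2 =>
    hel.2 _ _ ht1.1 (hN1 z).1 (ht2.symm.trans (hN2 z))
  have hres : ∀ t ∈ TG ν M G, t.res (g t) ∈ TG ν M G := by
    rintro t ⟨h1, q, hq, h2⟩
    exact ⟨hcl.2.2.2.2.2.2.1 t (g t) h1 (hcl.2.2.2.2.2.2.2.2.2.2 g t hgM h1), q, hq,
      ok.2.1 ν q _ _ (Nd.res_le _ _) h2⟩
  have hf : ∀ z : El (Av ν M G), ∃ w : El (Av ν M G),
      w.1 = pp.vl M G (elN ((N z).res (g (N z)))) := fun z =>
    ⟨⟨_, (hAv _).2 ⟨_, hres _ (hN1 z), rfl⟩⟩, rfl⟩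
  choose f hf using hf
  refine ⟨f, ?_, ?_, ?_⟩
  · have h1 := hrl ν hν [.gf g] (by
      intro x hx
      simp only [List.mem_cons, List.not_mem_nil, or_false] at hx
      subst hx
      exact hgM)
    have h2 : (NST.rl ν M G (fun s t => ∃ p ∈ G, p ∈ po_E [.gf g] s t)) =
        fun x y => f x = y := by
      funext x y
      apply propext
      constructor
      · rintro ⟨s, t, hs, ht, h3, h4, h5⟩
        rw [po_eE hp] at h5
        have h6 := hNu x s hs h3
        subst h6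
        subst h5
        exact Subtype.ext ((hf x).trans h4.symm)
      · rintro rfl
        exact ⟨N x, _, hN1 x, hres _ (hN1 x), hN2 x, hf x, (po_eE hp _ _ _).2 rfl⟩
    rw [h2] at h1
    exact h1
  · rintro z - ⟨y, s, t, hs, ht, h3, h4, h5⟩
    have h6 := hNu z t ht h4
    subst h6
    have h7 : (N z).len ≠ ⊥ := (lt_of_le_of_lt bot_le (Nd.len_lt h5)).ne'
    have h8 := (hG (N z)).2.1 h7
    refine ⟨_, _, hres _ (hN1 z), hN1 z, hf z, hN2 z, ?_⟩
    refine Nd.lt_of_len (Nd.res_le _ _) ?_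
    rw [Nd.res_len (hG (N z)).1]
    exact h8
  · intro w
    obtain ⟨A, hAM, hA1, hA2⟩ := hwA p ξ h (N w) hcn hξM hhM (hN1 w).1 hH
    refine ⟨fun n => im ν M G {t | ∃ p ∈ G, p ∈ po_F [.ab A, .s1 S, .gf g, .nd (N w)] n t},
      ?_, ?_, ?_⟩
    · refine hsc ν hν _ ?_
      intro x hx
      simp only [List.mem_cons, List.not_mem_nil, or_false] at hx
      rcases hx with rfl | rfl | rfl | rfl
      · exact hAM
      · exact hS
      · exact hgM
      · exact (hN1 w).1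
    · rintro n x hx y hy ⟨s, t, hs, ht, h3, h4, h5⟩
      simp only [po_eF hp] at hx hy
      rw [him _ x s hs h3] at hx
      rw [him _ y t ht h4] at hy
      exact hA1 n s hx.1 t hy.1 h5
    · ext z
      simp only [po_eF hp, mem_iUnion]
      have hB : ht z ∈ im1 M G S ↔ (N z).len ∈ S := by
        have h3 := hht z (N z) (hN1 z) (hN2 z)
        have h4 := hwv.2.2.2.1 S (N z).len (hcl.2.2.2.2.2.1 _ (hN1 z).1)
        rw [← h4]
        constructor
        · intro h5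
          exact ⟨_, h5, h3⟩
        · rintro ⟨z', h5, h6⟩
          have : z' = ht z := Subtype.ext (h6.trans h3.symm)
          rwa [← this]
      have hF : f z = w ↔ (N z).res (g (N z)) = N w := by
        constructor
        · intro h3
          refine hNu w _ (hres _ (hN1 z)) ?_
          rw [← h3]
          exact hf z
        · intro h3
          apply Subtype.ext
          rw [hf z, h3]
          exact (hN2 w).symm
      have hm : ∀ n, z ∈ im ν M G {t | t ∈ A n ∧ t.len ∈ S ∧ t.res (g t) = N w} ↔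
          N z ∈ A n ∧ (N z).len ∈ S ∧ (N z).res (g (N z)) = N w := fun n =>
        him _ z (N z) (hN1 z) (hN2 z)
      simp only [hm]
      constructor
      · rintro ⟨h3, h4⟩
        have h3' : (N z).len ∈ S := hB.1 h3
        have h4' := hF.1 h4
        have h5 : N w ≤ N z := h4' ▸ Nd.res_le _ _
        have h6 : (N w).len = g (N z) := by
          rw [← h4']
          exact Nd.res_len (hG (N z)).1
        obtain ⟨n, hn⟩ := hA2 (N z) h5 (by
          by_cases h7 : (N z).len = ⊥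
          · exact Or.inl h7
          right
          by_cases h8 : Lim (N z).len
          · right
            rw [h6]
            obtain ⟨-, q, hq, hq2⟩ := hN1 z
            obtain ⟨r, hr, hr1, hr2⟩ := hdir p hp q hq
            exact (hG (N z)).2.2.1 h8 (qe ν p r ξ h (N z) hr1 hξt (hx.symm ▸ hIn)
              (ok.1 ν q r _ hr2 hq2) h8 (hx.symm ▸ h3'))
          · left
            rw [h6]
            exact (hG (N z)).2.2.2 h8 h7)
        exact ⟨n, hn, h3', h4'⟩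
      · rintro ⟨n, h3, h4, h5⟩
        exact ⟨hB.2 h4, hF.2 h5⟩

end Pool.Agent.NST
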