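import Pool.Agent.Lib.MP_2e4b78_lc.Mod.Stm

set_option autoImplicit false

/-!
# MP_2e4b78_lc : the regressive choice exists
-/

open Set Order
open scoped Ordinal

namespace Pool.Agent.NST

open Pool.Agent.CR (Memf_mono)

theorem p_QE : S_QE := by
  intro ν p r ξ h t hrp hξ hin hok hlim hx
  obtain ⟨⟨γ, hγ⟩, hgood⟩ := hok t.len le_rfl hlim
  have hst := t.st t.len le_rfl
  obtain ⟨hl1, hl2⟩ := hst.lim hlim
  obtain ⟨_, r2, r3, r4⟩ := Cn.le_def.1 hrp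
  rcases (Nd.le_d (t := t) t.len le_rfl).lt_or_eq with h1 | h1
  · obtain ⟨j, hj, hj2⟩ := hl1 t.len h1
    exact ⟨j, hj, Or.inl hj2⟩
  · have hξm : ξ ∉ t.m t.len := by
      intro hm
      have h2 := hgood ξ hm (by rw [← h1, r2 ξ hξ]; exact hx)
      rw [r2 ξ hξ] at h2
      exact h2 r le_rfl (Memf_mono hin hrp)
    rcases lt_or_ge ξ γ with h2 | h2
    · obtain ⟨n, hn1, hn2⟩ := hγ.2.2 ξ h2
      obtain ⟨j, hj, hj2⟩ := hl2 _ hn2
      refine ⟨j, hj, Or.inr (Or.inl ⟨_, hj2, hn1, ?_⟩)⟩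
      by_contra hc
      push Not at hc
      exact hξm ((hst.clo _ hn2 ξ hn1).2 (by rw [← h1]; exact hc))
    · have hγp : γ ≤ p.top := h2.trans hξ.le
      have hγE : γ ∈ p.E := (r3 γ hγp).1 hγ.1
      have hc : r.c γ = p.c γ := r4 γ hγE
      have hT : Tp p t.mt γ := ⟨hγE, hγ.2.1, fun y hy => by rw [← hc]; exact hγ.2.2 y hy⟩
      obtain ⟨n, hn1, hn2⟩ := hT.2.2 (p.c γ (h γ)) (p.c2 γ hγE _)
      obtain ⟨j, hj, hj2⟩ := hl2 _ hn2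
      exact ⟨j, hj, Or.inr (Or.inr ⟨γ, h2, hT, n, ((p.c1 γ hγE).lt_iff_lt.1 hn1).le, hj2⟩)⟩

end Pool.Agent.NST
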