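import Pool.Agent.Lib.MP_2e4b78_lc.Mod.Stm

set_option autoImplicit false

/-!
# MP_2e4b78_lc : piece RL, relations between nodes given by the world
-/

open Cardinal Set Order
open scoped Ordinal

namespace Pool.Agent.NST

open Pool.Agent.MP2e4b78 (W1 W2 Lim IsNormalIdeal)
open Pool.Agent.CR (V Nm nat natN Memf Eqf IsTransModelZFC)
open Pool.Agent.FW (Ev ev_rel ev_sub ev_up ev_dir ev_opN opN)

private theorem rl_ok {ν : Nm Cn} {p q : Cn} {t : Nd} (h : q ≤ p) (ht : Ok ν p t) : Ok ν q t := by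
  intro i hi hl
  obtain ⟨⟨γ, hγ, h1, h2⟩, h3⟩ := ht i hi hl
  obtain ⟨-, e2, e3, e4⟩ := Cn.le_def.1 h
  have hγt : γ < p.top := p.E_lt γ hγ
  refine ⟨⟨γ, (e3 γ hγt.le).2 hγ, h1, ?_⟩, ?_⟩
  · rw [e4 γ hγ]
    exact h2
  · intro ξ hξ hd
    have hξt : ξ < p.top := (h1 ξ hξ).trans hγt
    rw [e2 ξ hξt] at hd ⊢
    intro r hr
    exact h3 ξ hξ hd r (le_trans hr h)

theorem p_RL (ij : S_IJ) (bg : S_BG) (cl : S_CL) (el : S_EL) (av : S_AV) : S_RL := by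
  obtain ⟨-, -, -, -, -, ij6, -⟩ := ij
  intro E
  let ob : Nd × Nd → Ob := fun x => Ob.pr (Ob.nd x.1) (Ob.nd x.2)
  have hob : Function.Injective ob := by
    rintro ⟨s, t⟩ ⟨s', t'⟩ h
    have h' : Ob.pr (Ob.nd s) (Ob.nd t) = Ob.pr (Ob.nd s') (Ob.nd t') := h
    simp only [Ob.pr.injEq, Ob.nd.injEq] at h'
    exact Prod.ext h'.1 h'.2
  let D : List Ob → Nd × Nd → Set Cn := fun L x => {p | ∃ ν, L.head? = some (Ob.nm ν) ∧
    Ok ν p x.1 ∧ Ok ν p x.2 ∧ ∃ p', p ≤ p' ∧ p' ∈ E L.tail x.1 x.2}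
  refine ((bg (Nd × Nd) ob hob (fun _ x => opN (elN x.1) (elN x.2)) D).and
    ((ev_rel (π := pp) fun L y => ∃ p s t p', L.head? = some (Ob.cn p) ∧
      L.tail.head? = some (Ob.nd s) ∧ L.tail.tail.head? = some (Ob.nd t) ∧ y = Ob.cn p' ∧
      p ≤ p' ∧ p' ∈ E L.tail.tail.tail s t).and
    (cl.and (el.and (av.and (ev_opN.and (ev_sub.and (ev_up.and ev_dir)))))))).mono ?_
  rintro M G ⟨h1, h2, ⟨hcl, -⟩, ⟨hel, -⟩, hav, hop, hsub, hup, hdir⟩ ν hν l hl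
  obtain ⟨-, hA, -⟩ := hav ν hν
  obtain ⟨hb1, -, hb2⟩ := h1 (Ob.nm ν :: l) (by
    intro x hx
    rcases List.mem_cons.1 hx with rfl | hx
    · exact hν
    · exact hl x hx)
  have hpair : ∀ s t, Ob.nd s ∈ M → Ob.nd t ∈ M → pp.vl M G (opN (elN s) (elN t)) =
      ZFSet.pair (pp.vl M G (elN s)) (pp.vl M G (elN t)) := fun s t hs ht =>
    (hop _ (hel s hs) _ (hel t ht)).2
  have key : rel (rl ν M G (fun s t => ∃ p ∈ G, p ∈ E l s t)) =
      pp.vl M G (bag (fun x : Nd × Nd => opN (elN x.1) (elN x.2)) (D (Ob.nm ν :: l))) := by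
    apply ZFSet.ext
    intro z
    rw [ij6, hb2]
    constructor
    · rintro ⟨x, y, ⟨s, t, ⟨hs, p1, hp1, ho1⟩, ⟨ht, p2, hp2, ho2⟩, hx, hy, p, hp, hpE⟩, rfl⟩
      obtain ⟨r, hr, hr1, hr2⟩ := hdir p1 hp1 p2 hp2
      obtain ⟨r', hr', hr3, hr4⟩ := hdir r hr p hp
      refine ⟨(s, t), (hcl _ _).2 ⟨hs, ht⟩, ⟨r', hr', ν, rfl, rl_ok (hr3.trans hr1) ho1,
        rl_ok (hr3.trans hr2) ho2, p, hr4, hpE⟩, ?_⟩
      show _ = pp.vl M G (opN (elN s) (elN t))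
      rw [hpair s t hs ht, hx, hy]
    · rintro ⟨⟨s, t⟩, hst, ⟨p, hp, ν', e1, ho1, ho2, hpE⟩, hz⟩
      have e1' : ν = ν' := Ob.nm.inj (Option.some.inj e1)
      subst e1'
      obtain ⟨hs, ht⟩ := (hcl _ _).1 hst
      obtain ⟨y, hy, q, s', t', p', f1, f2, f3, rfl, f5, f6⟩ :=
        h2 (Ob.cn p :: Ob.nd s :: Ob.nd t :: l) (by
          intro x hx
          rcases List.mem_cons.1 hx with rfl | hx
          · exact hsub hp
          · rcases List.mem_cons.1 hx with rfl | hx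
            · exact hs
            · rcases List.mem_cons.1 hx with rfl | hx
              · exact ht
              · exact hl x hx) (by
          obtain ⟨p', hp', hp''⟩ := hpE
          exact ⟨Ob.cn p', p, s, t, p', rfl, rfl, rfl, rfl, hp', hp''⟩)
      have g1 : p = q := Ob.cn.inj (Option.some.inj f1)
      have g2 : s = s' := Ob.nd.inj (Option.some.inj f2)
      have g3 : t = t' := Ob.nd.inj (Option.some.inj f3)
      subst g1 g2 g3
      have hp' : p' ∈ G := hup p hp p' hy f5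
      have hsT : s ∈ TG ν M G := ⟨hs, p, hp, ho1⟩
      have htT : t ∈ TG ν M G := ⟨ht, p, hp, ho2⟩
      refine ⟨⟨pp.vl M G (elN s), (hA _).2 ⟨s, hsT, rfl⟩⟩, ⟨pp.vl M G (elN t),
        (hA _).2 ⟨t, htT, rfl⟩⟩, ⟨s, t, hsT, htT, rfl, rfl, p', hp', f6⟩, ?_⟩
      rw [hz]
      exact hpair s t hs ht
  rw [key]
  exact ⟨_, hb1, rfl⟩

end Pool.Agent.NST
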