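import Pool.Agent.Lib.MP_2e4b78_lc.Mod.Stm

set_option autoImplicit false

/-!
# MP_2e4b78_lc : sequences of sets of nodes given by the world
-/

open Cardinal Set Order
open scoped Ordinal

namespace Pool.Agent.NST

open Pool.Agent.MP2e4b78 (W1 W2 Lim IsNormalIdeal)
open Pool.Agent.CR (V Nm nat natN Memf Eqf IsTransModelZFC)
open Pool.Agent.FW (Ev opN)

/-- the objects of the indices -/
private def scOb (i : ℕ × Nd) : Ob := .pr (.kk i.1) (.nd i.2)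

private theorem sc_inj : Function.Injective scOb := by
  rintro ⟨n, t⟩ ⟨m, s⟩ h
  simpa [scOb] using h

/-- the names of the elements -/
private noncomputable def scA (_ : List Ob) (i : ℕ × Nd) : Nm Cn := opN (natN Cn i.1) (elN i.2)

/-- the conditions of the elements -/
private def scE (E : List Ob → ℕ → Nd → Set Cn) (l : List Ob) (i : ℕ × Nd) : Set Cn :=
  {p | Ok (Ob.un (l.headD .no)) p i.2 ∧ ∃ p', p ≤ p' ∧ p' ∈ E l.tail i.1 i.2}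

/-- weaker conditions can be chosen in the world -/
private theorem sc_rel (E : List Ob → ℕ → Nd → Set Cn) : Ev pp (fun M _ =>
    ∀ l : List Ob, (∀ x ∈ l, x ∈ M) → ∀ p n t, Ob.cn p ∈ M → Ob.kk n ∈ M → Ob.nd t ∈ M →
      (∃ p', p ≤ p' ∧ p' ∈ E l n t) → ∃ p', Ob.cn p' ∈ M ∧ p ≤ p' ∧ p' ∈ E l n t) := by
  refine (FW.ev_rel (π := pp) fun l' x => ∃ p n t l p', l' = Ob.cn p :: Ob.kk n :: Ob.nd t :: l ∧
    x = Ob.cn p' ∧ p ≤ p' ∧ p' ∈ E l n t).mono ?_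
  rintro M G h l hl p n t hp hn ht ⟨p', h1, h2⟩
  obtain ⟨x, hx, q, m, s, l2, q', e1, rfl, e3, e4⟩ := h (Ob.cn p :: Ob.kk n :: Ob.nd t :: l) (by
    intro x hx
    rcases List.mem_cons.1 hx with rfl | hx
    · exact hp
    rcases List.mem_cons.1 hx with rfl | hx
    · exact hn
    rcases List.mem_cons.1 hx with rfl | hx
    · exact ht
    · exact hl x hx) ⟨_, p, n, t, l, p', rfl, rfl, h1, h2⟩
  have e5 : p = q ∧ n = m ∧ t = s ∧ l = l2 := by simpa using e1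
  obtain ⟨rfl, rfl, rfl, rfl⟩ := e5
  exact ⟨q', hx, e3, e4⟩

theorem p_SC (ok : S_OK) (ij : S_IJ) (bg : S_BG) (cl : S_CL) (el : S_EL) (av : S_AV) :
    S_SC := by
  intro E
  refine ((bg (ℕ × Nd) scOb sc_inj scA (scE E)).and (cl.and (el.and (av.and
    ((FW.ev_opN (π := pp)).and ((FW.ev_natN (π := pp)).and ((FW.ev_dir (π := pp)).and
    ((FW.ev_up (π := pp)).and ((FW.ev_sub (π := pp)).and (sc_rel E)))))))))).mono ?_
  rintro M G ⟨h1, ⟨c1, -, -, c4, -⟩, ⟨l1, -⟩, h4, h5, h6, h7, h8, h9, h10⟩ ν hν l hl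
  obtain ⟨-, a2, -⟩ := h4 ν hν
  obtain ⟨b1, -, b3⟩ := h1 (Ob.nm ν :: l) (by
    intro x hx
    rcases List.mem_cons.1 hx with rfl | hx
    · exact hν
    · exact hl x hx)
  have hval : ∀ n t, Ob.nd t ∈ M → pp.vl M G (opN (natN Cn n) (elN t)) =
      ZFSet.pair (nat n) (pp.vl M G (elN t)) := by
    intro n t ht
    rw [(h5 _ (h6 n).1 _ (l1 t ht)).2, (h6 n).2]
  have key : sq (fun n => im ν M G {t | ∃ p ∈ G, p ∈ E l n t}) =
      pp.vl M G (bag (scA (Ob.nm ν :: l)) (scE E (Ob.nm ν :: l))) := by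
    apply ZFSet.ext
    intro z
    obtain ⟨-, -, -, -, -, -, -, i8, -⟩ := ij
    rw [b3, i8]
    constructor
    · rintro ⟨n, x, ⟨t, ⟨p, hp, hpE⟩, ht, hx⟩, rfl⟩
      obtain ⟨htM, p1, hp1, hok⟩ := ht
      obtain ⟨r, hr, hr1, hr2⟩ := h7 p hp p1 hp1
      refine ⟨(n, t), (c1 _ _).2 ⟨c4 n, htM⟩, ⟨r, hr, ok.1 _ _ _ _ hr2 hok, p, hr1, hpE⟩, ?_⟩
      rw [hx]
      exact (hval n t htM).symm
    · rintro ⟨⟨n, t⟩, hi, ⟨p, hp, hok, hp'⟩, rfl⟩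
      have htM : Ob.nd t ∈ M := ((c1 _ _).1 hi).2
      obtain ⟨p', e1, e2, e3⟩ := h10 l hl p n t (h9 hp) (c4 n) htM hp'
      have ht : t ∈ TG ν M G := ⟨htM, p, hp, hok⟩
      exact ⟨n, ⟨pp.vl M G (elN t), (a2 _).2 ⟨t, ht, rfl⟩⟩,
        ⟨t, ⟨p', h8 p hp p' e1 e2, e3⟩, ht, rfl⟩, hval n t htM⟩
  rw [key]
  exact ⟨_, b1, rfl⟩

end Pool.Agent.NST
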