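import Pool.Agent.Lib.MP_2e4b78_lc.Mod.Stm

set_option autoImplicit false

/-!
# MP_2e4b78_lc : in the model no sequence enumerates ω₁ different sets
-/

open scoped Ordinal Cardinal

namespace Pool.Agent.NST

open Pool.Agent.MP2e4b78 (W1 W2)
open Pool.Agent.CR (V Nm nat natN Memf Memf_mono)
open Pool.Agent.FW (Ev ev_rel ev_fun ev_dense ev_mem ev_natN ev_opN ev_dir ev_sub)

private theorem sq_unc (F : ℕ → Ob) : ∃ i : W1, ∀ n, F n ≠ .w1 i := by
  by_contra h
  push Not at h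
  choose g hg using h
  have hinj : Function.Injective g := by
    intro i j hij
    have h1 := hg i
    have h2 := hg j
    rw [hij, h2] at h1
    exact ((Ob.w1.injEq _ _).mp h1).symm
  have hc : Countable W1 := hinj.countable
  have h2 : #W1 ≤ ℵ₀ := Cardinal.mk_le_aleph0
  rw [Cardinal.mk_toType, Ordinal.card_omega] at h2
  exact absurd h2 (not_le.2 (by
    rw [← Cardinal.aleph_zero]
    exact Cardinal.aleph_lt_aleph.2 zero_lt_one))

private def sq_R (a : List Ob → W1 → Nm Cn) (L : List Ob) (n : ℕ) (x : Ob) (p : Cn) : Prop :=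
  match L with
  | .nm τ :: l => (∃ i, x = .w1 i ∧ Memf (FW.opN (natN Cn n) (a l i)) τ p) ∨
      (x = .no ∧ ∀ i, ∀ r ≤ p, ¬ Memf (FW.opN (natN Cn n) (a l i)) τ r)
  | _ => False

theorem p_SQ (ge : S_GE) : S_SQ := by
  intro a
  have hmono : ∀ l n x p q, q ≤ p → sq_R a l n x p → sq_R a l n x q := by
    intro L n x p q hq h
    unfold sq_R at h ⊢
    split at h
    · rcases h with ⟨i, rfl, hi⟩ | ⟨rfl, hi⟩
      · exact Or.inl ⟨i, rfl, Memf_mono hi hq⟩
      · exact Or.inr ⟨rfl, fun i r hr => hi i r (hr.trans hq)⟩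
    · exact h
  have hge := ge (sq_R a) hmono
  refine (hge.and ((Ev.all fun n : ℕ => ev_dense (π := pp)
      (fun L => {p | ∃ x, sq_R a L n x p})).and
    ((ev_rel (π := pp) (fun L x => ∃ F i, L = [.sq F] ∧ x = .w1 i ∧ ∀ n, F n ≠ .w1 i)).and
    ((ev_fun (π := pp) (fun L => match L with
      | .w1 i :: l => .nm (a l i)
      | _ => .no)).and
    ((Ev.all fun n : ℕ => ev_fun (π := pp) (fun L => match L with
      | [.sq F] => F n
      | _ => .no)).and
    (ev_mem.and (ev_natN.and (ev_opN.and (ev_dir.and ev_sub))))))))).mono ?_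
  rintro M G ⟨h1, h2, h3, h4, h5, h6, h7, h8, h9, h10⟩ l hl w ⟨τ, hτ, rfl⟩ hw1 hw2
  have hτ' : Ob.nm τ ∈ M := hτ
  have hL : ∀ x ∈ Ob.nm τ :: l, x ∈ M := by
    intro x hx
    rcases List.mem_cons.1 hx with rfl | hx
    · exact hτ'
    · exact hl x hx
  obtain ⟨F, hF, p, hp, hR⟩ := h1 (.nm τ :: l) hL (by
    intro n
    obtain ⟨s, hs, x, hx⟩ := h2 n (.nm τ :: l) hL (by
      intro p
      by_cases h : ∃ i, ∃ r ≤ p, Memf (FW.opN (natN Cn n) (a l i)) τ r
      · obtain ⟨i, r, hr, hm⟩ := h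
        exact ⟨r, hr, .w1 i, Or.inl ⟨i, rfl, hm⟩⟩
      · push Not at h
        exact ⟨p, le_rfl, .no, Or.inr ⟨rfl, h⟩⟩)
    exact ⟨x, s, hs, hx⟩)
  obtain ⟨x, hx, F', i, h11, rfl, hi⟩ := h3 [.sq F] (by simpa using hF) (by
    obtain ⟨i, hi⟩ := sq_unc F
    exact ⟨.w1 i, F, i, rfl, rfl, hi⟩)
  simp only [List.cons.injEq, Ob.sq.injEq, and_true] at h11
  subst h11
  have haH : ∀ j, Ob.w1 j ∈ M → a l j ∈ pp.H M := by
    intro j hj
    exact h4 (.w1 j :: l) (by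
      intro x hx
      rcases List.mem_cons.1 hx with rfl | hx
      · exact hj
      · exact hl x hx)
  have hpair : ∀ (n : ℕ) (j : W1), Ob.w1 j ∈ M →
      (ZFSet.pair (nat n) (pp.vl M G (a l j)) ∈ pp.vl M G τ ↔
        ∃ q ∈ G, Memf (FW.opN (natN Cn n) (a l j)) τ q) := by
    intro n j hj
    obtain ⟨h12, h13⟩ := h8 _ (h7 n).1 _ (haH j hj)
    rw [← h6 _ h12 _ hτ, h13, (h7 n).2]
  obtain ⟨n, hn⟩ := hw1 i hx
  have hn' := (hpair n i hx).1 hn
  rcases hR n with ⟨j, hj1, hj2⟩ | ⟨_, hj2⟩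
  · have hjM : Ob.w1 j ∈ M := by
      have := h5 n [.sq F] (by simpa using hF)
      change F n ∈ M at this
      rwa [hj1] at this
    have hij := hw2 i j hx hjM n hn ((hpair n j hjM).2 ⟨p, hp, hj2⟩)
    subst hij
    exact hi n hj1
  · obtain ⟨q, hq, hq'⟩ := hn'
    obtain ⟨r, _, hr1, hr2⟩ := h9 p hp q hq
    exact hj2 i r hr1 (Memf_mono hq' hr2)

end Pool.Agent.NST
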