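import Pool.Agent.Lib.MP_2e4b78_lc.Mod.Stm

set_option autoImplicit false

/-!
# MP_2e4b78_lc : the sets of countable ordinals in the model are given by sets of the world
-/

open scoped Ordinal Cardinal

namespace Pool.Agent.NST

open Pool.Agent.MP2e4b78 (W1 W2)
open Pool.Agent.CR (V Nm nat natN Memf Eqf IsTransModelZFC Memf_mono)
open Pool.Agent.FW (Ev)

/-- `p` decides whether `i` belongs to the set named by the parameter -/
private def su_R (l : List Ob) (i : W1) (x : Ob) (p : Cn) : Prop :=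
  ∃ σ, l = [Ob.nm σ] ∧ ((x = Ob.kk 1 ∧ Memf (oN i) σ p) ∨
    (x = Ob.kk 0 ∧ ∀ q ≤ p, ¬ Memf (oN i) σ q))

private theorem su_mono (l : List Ob) (i : W1) (x : Ob) (p q : Cn) (hq : q ≤ p)
    (h : su_R l i x p) : su_R l i x q := by
  obtain ⟨σ, h1, h2⟩ := h
  refine ⟨σ, h1, ?_⟩
  rcases h2 with ⟨h3, h4⟩ | ⟨h3, h4⟩
  · exact Or.inl ⟨h3, Memf_mono h4 hq⟩
  · exact Or.inr ⟨h3, fun r hr => h4 r (hr.trans hq)⟩

private theorem su_dense (σ : Nm Cn) (i : W1) (p : Cn) :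
    ∃ q ≤ p, q ∈ {q : Cn | ∃ (σ' : Nm Cn) (i' : W1), [Ob.nm σ, Ob.w1 i] = [Ob.nm σ', Ob.w1 i'] ∧
      ∃ x, su_R [Ob.nm σ'] i' x q} := by
  by_cases h : ∃ q ≤ p, Memf (oN i) σ q
  · obtain ⟨q, hq, h1⟩ := h
    exact ⟨q, hq, σ, i, rfl, Ob.kk 1, σ, rfl, Or.inl ⟨rfl, h1⟩⟩
  · refine ⟨p, le_rfl, σ, i, rfl, Ob.kk 0, σ, rfl, Or.inr ⟨rfl, fun q hq h1 => h ⟨q, hq, h1⟩⟩⟩

/-- the set given by a decided family -/
private def su_F (l : List Ob) : Ob :=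
  match l with
  | [Ob.f1 F] => Ob.s1 {i | F i = Ob.kk 1}
  | _ => Ob.no

theorem p_SU (ij : S_IJ) (_cl : S_CL) (on : S_ON) (wv : S_WV) (gw : S_GW) : S_SU := by
  refine (on.and (wv.and ((gw su_R su_mono).and ((FW.ev_dense (π := pp) (fun l => {q : Cn |
    ∃ (σ' : Nm Cn) (i' : W1), l = [Ob.nm σ', Ob.w1 i'] ∧ ∃ x, su_R [Ob.nm σ'] i' x q})).and
    ((FW.ev_fun (π := pp) su_F).and (FW.ev_mem.and FW.ev_dir)))))).mono ?_
  rintro M G ⟨⟨o1, -, o3, -⟩, ⟨-, w2, -⟩, g, d, f, m, dir⟩ X hX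
  obtain ⟨σ, hσ, hσX⟩ := hX
  have hσ' : Ob.nm σ ∈ M := hσ
  have hl : ∀ x ∈ [Ob.nm σ], x ∈ M := by
    intro x hx
    rw [List.mem_singleton] at hx
    rw [hx]
    exact hσ'
  obtain ⟨F, hF, p, hp, hR⟩ := g [Ob.nm σ] hl (by
    intro i hi
    obtain ⟨s, hs, σ', i', e1, x, hx⟩ := d [Ob.nm σ, Ob.w1 i] (by
      intro x hx
      rcases List.mem_cons.1 hx with rfl | hx
      · exact hσ'
      · rw [List.mem_singleton] at hx
        rw [hx]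
        exact hi) (su_dense σ i)
    simp only [List.cons.injEq, Ob.nm.injEq, Ob.w1.injEq, and_true] at e1
    obtain ⟨rfl, rfl⟩ := e1
    exact ⟨x, s, hs, hx⟩)
  have hS : Ob.s1 {i | F i = Ob.kk 1} ∈ M := f [Ob.f1 F] (by
    intro x hx
    rw [List.mem_singleton] at hx
    rw [hx]
    exact hF)
  refine ⟨{i | F i = Ob.kk 1}, hS, ?_⟩
  -- the truth value at `i`
  have key : ∀ i, Ob.w1 i ∈ M → (pp.vl M G (oN i) ∈ cs X ↔ F i = Ob.kk 1) := by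
    intro i hi
    obtain ⟨σ', e1, h2⟩ := hR i
    simp only [List.cons.injEq, Ob.nm.injEq, and_true] at e1
    subst e1
    have h3 : pp.vl M G (oN i) ∈ cs X ↔ ∃ p' ∈ G, Memf (oN i) σ p' := by
      rw [← m _ (o1 i hi) _ hσ]
      have : pp.vl M G σ = cs X := hσX
      rw [this]
    rw [h3]
    constructor
    · rintro ⟨p', hp', h4⟩
      rcases h2 with ⟨h5, -⟩ | ⟨-, h6⟩
      · exact h5
      · obtain ⟨r, -, hr1, hr2⟩ := dir p hp p' hp'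
        exact absurd (Memf_mono h4 hr2) (h6 r hr1)
    · intro h4
      rcases h2 with ⟨-, h6⟩ | ⟨h5, -⟩
      · exact ⟨p, hp, h6⟩
      · rw [h4] at h5
        simp only [Ob.kk.injEq] at h5
        exact absurd h5 one_ne_zero
  apply Set.ext
  intro z
  obtain ⟨i, hi, hz⟩ := (w2 z.1).1 z.2
  have h5 : z ∈ X ↔ z.1 ∈ cs X := by
    rw [ij.2.2.1 (Wv M G) X z.1]
    exact ⟨fun h => ⟨z.2, h⟩, fun ⟨_, h⟩ => h⟩
  rw [h5, hz, key i hi]
  constructor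
  · intro h6
    exact ⟨i, h6, hi, hz⟩
  · rintro ⟨j, h6, hj, h7⟩
    have : i = j := o3 i j hi hj (by rw [← hz, ← h7])
    rw [this]
    exact h6

end Pool.Agent.NST
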