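import Pool.Agent.Lib.MP_2e4b78_lc.Mod.Stm

set_option autoImplicit false

/-!
# MP_2e4b78_lc : the tree in the model
-/

open Cardinal Set Order
open scoped Ordinal

namespace Pool.Agent.NST

open Pool.Agent.MP2e4b78 (W1 W2 Lim IsNormalIdeal)
open Pool.Agent.CR (V Nm nat natN Memf Eqf IsTransModelZFC)
open Pool.Agent.FW (Ev)

theorem p_TR (ok : S_OK) (cl : S_CL) (el : S_EL) (on : S_ON) (wv : S_WV) (av : S_AV)
    (rl : S_RL) (lv : S_LV) : S_TR := by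
  have hrl := rl (fun _ s t => {_p | s < t})
  refine ((((cl.and el).and (on.and wv)).and ((av.and hrl).and (lv.and FW.ev_ne))).and
    FW.ev_ne).mono ?_
  rintro M G ⟨⟨⟨⟨⟨-, -, -, -, -, clen, cres, croot, -, -, -⟩, hel1, hel2⟩,
    ⟨hon1, hon2, hon3, hon4⟩, -, hwv2, -⟩, ⟨hav, hrl⟩, hlv, hne⟩, -⟩
  intro ν hν hN ht hht hht2
  obtain ⟨-, hav2, -⟩ := hav ν hν
  have hnode : ∀ x : El (Av ν M G), ∃ t ∈ TG ν M G, x.1 = pp.vl M G (elN t) := fun x =>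
    (hav2 x.1).1 x.2
  have hRR : ∀ (x y : El (Av ν M G)) (s t : Nd), s ∈ TG ν M G → t ∈ TG ν M G →
      x.1 = pp.vl M G (elN s) → y.1 = pp.vl M G (elN t) → (RR ν M G x y ↔ s < t) := by
    intro x y s t hs ht hx hy
    constructor
    · rintro ⟨s', t', hs', ht', hx', hy', hlt⟩
      have h1 := hel2 s s' hs.1 hs'.1 (hx.symm.trans hx')
      have h2 := hel2 t t' ht.1 ht'.1 (hy.symm.trans hy')
      rw [h1, h2]
      exact hlt
    · intro hlt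
      exact ⟨s, t, hs, ht, hx, hy, hlt⟩
  have hel : ∀ t ∈ TG ν M G, ∃ x : El (Av ν M G), x.1 = pp.vl M G (elN t) := fun t ht =>
    ⟨⟨_, (hav2 _).2 ⟨t, ht, rfl⟩⟩, rfl⟩
  refine ⟨?_, hht, ?_, ?_, ?_, ?_, ?_, ?_, ?_⟩
  · have h1 := hrl ν hν [] (by simp)
    have h2 : (fun s t : Nd => ∃ p ∈ G, p ∈ ({_p | s < t} : Set Cn)) = (fun s t => s < t) := by
      funext s t
      apply propext
      constructor
      · rintro ⟨p, _, hp⟩
        exact hp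
      · intro h
        obtain ⟨p, hp⟩ := hne
        exact ⟨p, hp, h⟩
    rw [h2] at h1
    exact h1
  · intro x y z h1 h2
    obtain ⟨a, ha, hxa⟩ := hnode x
    obtain ⟨b, hb, hyb⟩ := hnode y
    obtain ⟨c, hc, hzc⟩ := hnode z
    exact (hRR x z a c ha hc hxa hzc).2 (((hRR x y a b ha hb hxa hyb).1 h1).trans
      ((hRR y z b c hb hc hyb hzc).1 h2))
  · obtain ⟨p, hp⟩ := hne
    have hr : Nd.root ∈ TG ν M G := ⟨croot, p, hp, ok.2.2.2.1 ν p⟩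
    obtain ⟨r, hr2⟩ := hel _ hr
    refine ⟨r, fun x hx => ?_⟩
    obtain ⟨a, ha, hxa⟩ := hnode x
    refine (hRR r x Nd.root a hr ha hr2 hxa).2 (lt_of_le_of_ne (Nd.root_le a) ?_)
    rintro rfl
    exact hx (Subtype.ext (hxa.trans hr2.symm))
  · intro x y h
    obtain ⟨a, ha, hxa⟩ := hnode x
    obtain ⟨b, hb, hyb⟩ := hnode y
    rw [hht2 x a ha hxa, hht2 y b hb hyb, hon4 _ _ (clen a ha.1) (clen b hb.1)]
    exact Nd.len_lt ((hRR x y a b ha hb hxa hyb).1 h)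
  · intro x x' y h h' he
    obtain ⟨a, ha, hxa⟩ := hnode x
    obtain ⟨a', ha', hxa'⟩ := hnode x'
    obtain ⟨b, hb, hyb⟩ := hnode y
    have h1 := (hRR x y a b ha hb hxa hyb).1 h
    have h2 := (hRR x' y a' b ha' hb hxa' hyb).1 h'
    have h3 : a.len = a'.len := by
      apply hon3 _ _ (clen a ha.1) (clen a' ha'.1)
      rw [← hht2 x a ha hxa, ← hht2 x' a' ha' hxa', he]
    have h4 : a = a' := Nd.eq_of_le_of_len (Nd.le_of_le_of_len h1.le h2.le h3.le) h3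
    exact Subtype.ext (by rw [hxa, hxa', h4])
  · intro y α hα
    obtain ⟨b, hb, hyb⟩ := hnode y
    rw [hht2 y b hb hyb, hon2 _ (clen b hb.1)] at hα
    obtain ⟨j, hj, hjM, hαj⟩ := hα
    obtain ⟨p, hp, hpb⟩ := hb.2
    have ha : b.res j ∈ TG ν M G :=
      ⟨cres b j hb.1 hjM, p, hp, ok.2.1 ν p _ _ (Nd.res_le b j) hpb⟩
    have hlen : (b.res j).len = j := Nd.res_len hj.le
    obtain ⟨x, hx⟩ := hel _ ha
    refine ⟨x, (hRR x y _ b ha hb hx hyb).2 (Nd.lt_of_len (Nd.res_le b j) (by rwa [hlen])), ?_⟩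
    apply Subtype.ext
    rw [hht2 x _ ha hx, hlen, hαj]
  · intro x x' y h h' hlt
    obtain ⟨a, ha, hxa⟩ := hnode x
    obtain ⟨a', ha', hxa'⟩ := hnode x'
    obtain ⟨b, hb, hyb⟩ := hnode y
    have h1 := (hRR x y a b ha hb hxa hyb).1 h
    have h2 := (hRR x' y a' b ha' hb hxa' hyb).1 h'
    rw [hht2 x a ha hxa, hht2 x' a' ha' hxa', hon4 _ _ (clen a ha.1) (clen a' ha'.1)] at hlt
    exact (hRR x x' a a' ha ha' hxa hxa').2
      (Nd.lt_of_len (Nd.le_of_le_of_len h1.le h2.le hlt.le) hlt)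
  · intro α
    obtain ⟨i, hi, hαi⟩ := (hwv2 α.1).1 α.2
    obtain ⟨t, ht2, hti⟩ := hlv ν hν hN i hi
    obtain ⟨x, hx⟩ := hel t ht2
    refine ⟨x, Subtype.ext ?_⟩
    rw [hht2 x t ht2 hx, hti, hαi]

end Pool.Agent.NST
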