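import Pool.Agent.Lib.MP_2e4b78_lc.Mod.Stm

set_option autoImplicit false

/-!
# MP_2e4b78_lc : piece WV, `ω₁` of the model and its subsets
-/

open Cardinal Set Order
open scoped Ordinal

namespace Pool.Agent.NST

open Pool.Agent.MP2e4b78 (W1 W2 Lim IsNormalIdeal)
open Pool.Agent.CR (V Nm nat natN Memf Eqf IsTransModelZFC)
open Pool.Agent.FW (Ev ev_rel ev_ne)

theorem p_WV (ij : S_IJ) (bg : S_BG) (on : S_ON) : S_WV := by
  obtain ⟨-, -, ij3, -⟩ := ij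
  have hinj : Function.Injective (fun i : W1 => Ob.w1 i) := fun a b h => Ob.w1.inj h
  refine ((bg W1 (fun i => Ob.w1 i) hinj (fun _ i => oN i) (fun _ _ => Set.univ)).and
    ((bg W1 (fun i => Ob.w1 i) hinj (fun _ i => oN i)
      (fun L i => {_p | ∃ S, L.head? = some (Ob.s1 S) ∧ i ∈ S})).and
    ((ev_rel (π := pp) fun L x => ∃ S S' i, L.head? = some (Ob.s1 S) ∧
      L.tail.head? = some (Ob.s1 S') ∧ x = Ob.w1 i ∧ ¬ (i ∈ S ↔ i ∈ S')).and
    (on.and ev_ne)))).mono ?_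
  rintro M G ⟨h1, h2, h3, ⟨-, -, hon, -⟩, p0, hp0⟩
  obtain ⟨h4, -, h5⟩ := h1 [] (by simp)
  have hW : ∀ z, z ∈ Wv M G ↔ ∃ i, Ob.w1 i ∈ M ∧ z = pp.vl M G (oN i) := by
    intro z
    rw [Wv, WN, h5]
    exact ⟨fun ⟨i, hi, _, hz⟩ => ⟨i, hi, hz⟩, fun ⟨i, hi, hz⟩ => ⟨i, hi, ⟨p0, hp0, trivial⟩, hz⟩⟩
  have hIm : ∀ S i, Ob.w1 i ∈ M → ((∃ z ∈ im1 M G S, z.1 = pp.vl M G (oN i)) ↔ i ∈ S) := by
    intro S i hi
    constructor
    · rintro ⟨z, ⟨i', hi', hi'M, hz⟩, hz'⟩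
      have : i = i' := hon i i' hi hi'M (hz'.symm.trans hz)
      rw [this]
      exact hi'
    · intro hiS
      exact ⟨⟨pp.vl M G (oN i), (hW _).2 ⟨i, hi, rfl⟩⟩, ⟨i, hiS, hi, rfl⟩, rfl⟩
  refine ⟨⟨WN, h4, rfl⟩, hW, ?_, hIm, ?_⟩
  · intro S hS
    have e : bag (fun i : W1 => oN i) (fun i => {_p : Cn | ∃ S', ([Ob.s1 S] : List Ob).head? =
        some (Ob.s1 S') ∧ i ∈ S'}) = sN S := by
      have e' : (fun i : W1 => {_p : Cn | ∃ S', ([Ob.s1 S] : List Ob).head? =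
          some (Ob.s1 S') ∧ i ∈ S'}) = fun i => {_p : Cn | i ∈ S} := by
        funext i
        ext p
        constructor
        · rintro ⟨S', hS', hi⟩
          have : S = S' := Ob.s1.inj (Option.some.inj hS')
          rw [this]
          exact hi
        · intro hi
          exact ⟨S, rfl, hi⟩
      rw [sN, e']
    obtain ⟨h6, -, h7⟩ := h2 [Ob.s1 S] (by simpa using hS)
    change bag (fun i : W1 => oN i) (fun i => {_p : Cn | ∃ S', ([Ob.s1 S] : List Ob).head? =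
        some (Ob.s1 S') ∧ i ∈ S'}) ∈ pp.H M at h6
    change ∀ z, z ∈ pp.vl M G (bag (fun i : W1 => oN i) (fun i => {_p : Cn | ∃ S',
      ([Ob.s1 S] : List Ob).head? = some (Ob.s1 S') ∧ i ∈ S'})) ↔ _ at h7
    rw [e] at h6 h7
    refine ⟨h6, ?_⟩
    apply ZFSet.ext
    intro z
    rw [h7, ij3]
    constructor
    · rintro ⟨i, hi, ⟨p, hp, S', hS', hiS⟩, hz⟩
      have : S = S' := Ob.s1.inj (Option.some.inj hS')
      subst this
      exact ⟨(hW z).2 ⟨i, hi, hz⟩, i, hiS, hi, hz⟩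
    · rintro ⟨hz, i, hiS, hi, hz'⟩
      exact ⟨i, hi, ⟨p0, hp0, S, rfl, hiS⟩, hz'⟩
  · intro S S' hS hS' he
    by_contra hne
    have hex : ∃ i, ¬ (i ∈ S ↔ i ∈ S') := by
      by_contra hcon
      push Not at hcon
      exact hne (Set.ext hcon)
    obtain ⟨i, hi⟩ := hex
    obtain ⟨x, hx, S1, S2, i', g1, g2, rfl, g4⟩ := h3 [Ob.s1 S, Ob.s1 S'] (by
      intro x hx
      rcases List.mem_cons.1 hx with rfl | hx
      · exact hS
      · rcases List.mem_cons.1 hx with rfl | hx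
        · exact hS'
        · exact absurd hx List.not_mem_nil) ⟨Ob.w1 i, S, S', i, rfl, rfl, rfl, hi⟩
    have g1' : S = S1 := Ob.s1.inj (Option.some.inj g1)
    have g2' : S' = S2 := Ob.s1.inj (Option.some.inj g2)
    subst g1' g2'
    apply g4
    rw [← hIm S i' hx, ← hIm S' i' hx, he]

end Pool.Agent.NST
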