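import Pool.Agent.Lib.MP_2e4b78_lc.Mod.Stm

set_option autoImplicit false

/-!
# MP_2e4b78_lc : every set of countable ordinals is listed
-/

open Cardinal Set Order
open scoped Ordinal

namespace Pool.Agent.NST

open Pool.Agent.MP2e4b78 (W1 W2 Lim IsNormalIdeal)
open Pool.Agent.CR (V Nm nat natN Memf Eqf IsTransModelZFC)
open Pool.Agent.FW (Ev)

theorem p_XI (e1 : S_E1) : S_XI := by
  obtain ⟨-, -, -, -, h5⟩ := e1
  refine ((FW.ev_dense (π := pp) fun l => {p | ∃ S ξ, l = [Ob.s1 S] ∧ ξ < p.top ∧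
    p.x ξ = S}).and ((FW.ev_rel (π := pp) fun l x => ∃ p S ξ, l = [Ob.cn p, Ob.s1 S] ∧
      x = Ob.od ξ ∧ ξ < p.top ∧ p.x ξ = S).and (FW.ev_sub (π := pp)))).mono ?_
  rintro M G ⟨h1, h2, h3⟩ S hS
  obtain ⟨p, hp, S', ξ, e, hξ, hx⟩ := h1 [Ob.s1 S] (by simpa using hS) (by
    intro p
    obtain ⟨q, hq, -, -, ξ, hξ, hx⟩ := h5 p ⊥ S
    exact ⟨q, hq, S, ξ, rfl, hξ, hx⟩)
  have e' : S = S' := by simpa using e
  subst e'
  obtain ⟨x, hxM, q, S', ξ', e2, rfl, h6, h7⟩ := h2 [Ob.cn p, Ob.s1 S] (by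
    intro x hx
    simp only [List.mem_cons, List.not_mem_nil, or_false] at hx
    rcases hx with rfl | rfl
    · exact h3 hp
    · exact hS) ⟨_, p, S, ξ, rfl, rfl, hξ, hx⟩
  have e3 : p = q ∧ S = S' := by simpa using e2
  obtain ⟨rfl, rfl⟩ := e3
  exact ⟨p, hp, ξ', hxM, h6, h7⟩

end Pool.Agent.NST
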