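import Pool.Agent.Lib.MP_2e4b78_lc.Mod.Stm

set_option autoImplicit false

/-!
# MP_2e4b78_lc : piece EX, every node has extensions of every length
-/

open Cardinal Set Order
open scoped Ordinal

namespace Pool.Agent.NST

open Pool.Agent.MP2e4b78 (W1 W2 Lim IsNormalIdeal lim_or)
open Pool.Agent.CR (V Nm nat natN Memf Eqf IsTransModelZFC)

theorem p_EX (ok : S_OK) (ap : S_AP) (hu : S_HU) (fu : S_FU) : S_EX := by
  obtain ⟨ok1, ok2, ok3, -, -, -, ok7, -, ok9⟩ := ok
  intro ν p hp t β
  induction β using WellFoundedLT.induction generalizing p t with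
  | _ β ih =>
    intro ht htβ
    rcases htβ.eq_or_lt with rfl | h
    · exact ⟨p, le_refl p, t, le_rfl, rfl, ht⟩
    · rcases lim_or β with h1 | ⟨j, hj, h1⟩ | hl
      · exact absurd h (not_lt.2 (h1 _))
      · have hβ : β = Order.succ j :=
          le_antisymm (h1 _ (Order.lt_succ j)) (Order.succ_le_of_lt hj)
        have h2 : t.len ≤ j := by rw [hβ] at h; exact Order.lt_succ_iff.1 h
        obtain ⟨q, hq, t', h3, h4, h5⟩ := ih j hj p hp t ht h2
        obtain ⟨t'', h6, h7, -, -⟩ := ap t' ⊥ ⊥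
        exact ⟨q, hq, t'', h3.trans h6, by rw [h7, h4, hβ], ok3 ν q t' t'' h6 h7 h5⟩
      · let Rq : ℕ → List Ob → Cn → Ob → Prop := fun _ l r b =>
          ∃ (s : Nd) (β' : W1) (s' : Nd), l = [Ob.nd s, Ob.w1 β'] ∧ b = Ob.nd s' ∧ Ok ν r s ∧
            s ≤ s' ∧ s'.len = β' ∧ Ok ν r s'
        have hRq : ∀ k l (p q : Cn) b, q ≤ p → Rq k l p b → Rq k l q b := by
          rintro k l p q b hqp ⟨s, β', s', e1, e2, e3, e4, e5, e6⟩
          exact ⟨s, β', s', e1, e2, ok1 ν p q s hqp e3, e4, e5, ok1 ν p q s' hqp e6⟩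
        obtain ⟨q, N, δ, γ, hq, hA, -, H, hR⟩ := hu Rq hRq ν p hp Set.univ (ok9 ν p hp)
          {Ob.nd t, Ob.w1 β} ((Set.finite_singleton (Ob.w1 β)).insert (Ob.nd t)).countable
        have htN : Ob.nd t ∈ N := hA (Or.inl rfl)
        have hβN : Ob.w1 β ∈ N := hA (Or.inr rfl)
        have hβδ : β < δ := (H.w1 β).1 hβN
        have htq : Ok ν q t := ok1 ν p q t hq ht
        have hnq : Norm ν q := ok7 ν p q hq hp
        obtain ⟨t', h2, h3, h4, -, -⟩ := fu ν q N δ γ H β hl hβδ.le (by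
          intro s hs hso β' hβ' hsβ
          rcases hR 0 [Ob.nd s, Ob.w1 β'] (by
            intro a ha
            rcases List.mem_cons.1 ha with rfl | ha
            · exact hs
            · rcases List.mem_cons.1 ha with rfl | ha
              · exact (H.w1 β').2 (hβ'.trans hβδ)
              · exact absurd ha List.not_mem_nil) with ⟨b, hb, s1, β1, s', e1, e2, e3, e4, e5, e6⟩ | hno
          · simp only [List.cons.injEq, Ob.nd.injEq, Ob.w1.injEq, and_true] at e1
            obtain ⟨rfl, rfl⟩ := e1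
            subst e2
            exact ⟨s', hb, e6, e4, e5⟩
          · exfalso
            obtain ⟨r, hr, s', e1, e2, e3⟩ := ih β' hβ' q hnq s hso hsβ
            exact hno r hr (Ob.nd s') ⟨s, β', s', rfl, rfl, ok1 ν q r s hr hso, e1, e2, e3⟩)
          (fun _ => Set.univ) (fun _ s hs hso hsl => ⟨s, hs, hso, hsl, le_rfl, Set.mem_univ _⟩)
          t htN htq h
        exact ⟨q, hq, t', h2, h3, h4⟩

end Pool.Agent.NST
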