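import Pool.Agent.Lib.MP_2e4b78_lc.Mod.Stm

set_option autoImplicit false

/-!
# MP_2e4b78_lc : the height function
-/

open Cardinal Set Order
open scoped Ordinal

namespace Pool.Agent.NST

open Pool.Agent.MP2e4b78 (W1 W2 Lim IsNormalIdeal)
open Pool.Agent.CR (V Nm nat natN Memf Eqf IsTransModelZFC)
open Pool.Agent.FW (Ev)

theorem ht_inj : Function.Injective Ob.nd := by
  intro x y h
  simpa using h

theorem p_HT (_ok : S_OK) (ij : S_IJ) (bg : S_BG) (cl : S_CL) (el : S_EL) (on : S_ON)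
    (wv : S_WV) (av : S_AV) : S_HT := by
  refine (cl.and (el.and (on.and (wv.and (av.and
    ((bg Nd Ob.nd ht_inj (fun _ t => FW.opN (elN t) (oN t.len))
      (fun l t => {p | ∃ ν, l = [Ob.nm ν] ∧ Ok ν p t})).and FW.ev_opN)))))).mono ?_
  rintro M G ⟨hcl, hel, hon, hwv, hav, hbg, hop⟩ ν hν
  have hlen : ∀ t, Ob.nd t ∈ M → Ob.w1 t.len ∈ M := hcl.2.2.2.2.2.1
  obtain ⟨-, hA, -⟩ := hav ν hν
  have hx : ∀ x : El (Av ν M G), ∃ t ∈ TG ν M G, x.1 = pp.vl M G (elN t) :=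
    fun x => (hA x.1).1 x.2
  choose T hT1 hT2 using hx
  have hW : ∀ t, Ob.nd t ∈ M → pp.vl M G (oN t.len) ∈ Wv M G :=
    fun t ht => (hwv.2.1 _).2 ⟨t.len, hlen t ht, rfl⟩
  have hu : ∀ x t, t ∈ TG ν M G → x.1 = pp.vl M G (elN t) → T x = t := by
    intro x t ht hxt
    exact hel.2 (T x) t (hT1 x).1 ht.1 ((hT2 x).symm.trans hxt)
  refine ⟨fun x => ⟨pp.vl M G (oN (T x).len), hW (T x) (hT1 x).1⟩, ?_, ?_⟩
  · obtain ⟨b1, -, b3⟩ := hbg [Ob.nm ν] (by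
      intro x hx
      rw [List.mem_singleton] at hx
      subst hx
      exact hν)
    refine ⟨_, b1, ?_⟩
    apply ZFSet.ext
    intro w
    rw [fn, ij.2.2.2.2.2.1]
    refine (b3 w).trans ?_
    constructor
    · rintro ⟨t, htM, ⟨p, hp, ν', e1, hOk⟩, hw⟩
      have e2 : ν = ν' := by simpa using e1
      subst e2
      have htT : t ∈ TG ν M G := ⟨htM, p, hp, hOk⟩
      have htA : pp.vl M G (elN t) ∈ Av ν M G := (hA _).2 ⟨t, htT, rfl⟩
      refine ⟨⟨_, htA⟩, ⟨_, hW t htM⟩, ?_, ?_⟩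
      · have e3 : T ⟨_, htA⟩ = t := hu _ t htT rfl
        exact Subtype.ext (congrArg (fun t : Nd => pp.vl M G (oN t.len)) e3)
      · rw [hw]
        exact (hop _ (hel.1 t htM) _ (hon.1 _ (hlen t htM))).2
    · rintro ⟨x, y, hxy, hw⟩
      obtain ⟨htM, p, hp, hOk⟩ := hT1 x
      refine ⟨T x, htM, ⟨p, hp, ν, rfl, hOk⟩, ?_⟩
      rw [hw, hT2 x, ← hxy]
      exact (hop _ (hel.1 _ htM) _ (hon.1 _ (hlen _ htM))).2.symm
  · intro x t ht hxt
    show pp.vl M G (oN (T x).len) = pp.vl M G (oN t.len)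
    rw [hu x t ht hxt]

end Pool.Agent.NST
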