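import Pool.Agent.Lib.MP_2e4b78_lc.Mod.Stm

set_option autoImplicit false

/-!
# MP_2e4b78_lc : the codes (piece IJ)
-/

namespace Pool.Agent.NST

open Pool.Agent.CR (V nat)

private theorem ij_mem_of_lt {m n : ℕ} (h : m < n) : nat m ∈ nat n := by
  induction n with
  | zero => exact absurd h (Nat.not_lt_zero m)
  | succ n ih =>
    change nat m ∈ insert (nat n) (nat n)
    rw [ZFSet.mem_insert_iff]
    rcases Nat.lt_succ_iff_lt_or_eq.1 h with h | h
    · exact Or.inr (ih h)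
    · exact Or.inl (by rw [h])

private theorem ij_nat {m n : ℕ} (h : nat m = nat n) : m = n := by
  rcases lt_trichotomy m n with h1 | h1 | h1
  · have h2 := ij_mem_of_lt h1
    rw [h] at h2
    exact absurd h2 (ZFSet.mem_irrefl _)
  · exact h1
  · have h2 := ij_mem_of_lt h1
    rw [h] at h2
    exact absurd h2 (ZFSet.mem_irrefl _)

private theorem ij_omega (n : ℕ) : nat n ∈ (ZFSet.omega : V) := by
  induction n with
  | zero => exact ZFSet.omega_zero
  | succ n ih => exact ZFSet.omega_succ ih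

private theorem ij_mem_cs {A : V} (O : Set (El A)) (z : V) : z ∈ cs O ↔ ∃ h : z ∈ A, ⟨z, h⟩ ∈ O := by
  unfold cs
  rw [ZFSet.mem_sep]
  constructor
  · rintro ⟨_, h⟩
    exact h
  · rintro ⟨h, h'⟩
    exact ⟨h, h, h'⟩

private theorem ij_cs {A : V} (O O' : Set (El A)) (h : cs O = cs O') : O = O' := by
  ext ⟨z, hz⟩
  have h1 := ij_mem_cs O z
  have h2 := ij_mem_cs O' z
  rw [h] at h1
  constructor
  · intro h3
    obtain ⟨_, h4⟩ := h2.1 (h1.2 ⟨hz, h3⟩)
    exact h4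
  · intro h3
    obtain ⟨_, h4⟩ := h1.1 (h2.2 ⟨hz, h3⟩)
    exact h4

private theorem ij_mem_fam {A : V} (F : Set (Set (El A))) (z : V) :
    z ∈ fam F ↔ ∃ O ∈ F, z = cs O := by
  unfold fam
  rw [ZFSet.mem_sep]
  constructor
  · rintro ⟨_, O, hO, h⟩
    exact ⟨O, hO, h.symm⟩
  · rintro ⟨O, hO, rfl⟩
    refine ⟨?_, O, hO, rfl⟩
    rw [ZFSet.mem_powerset]
    intro y hy
    obtain ⟨h, _⟩ := (ij_mem_cs O y).1 hy
    exact h

private theorem ij_mem_rel {A B : V} (R : El A → El B → Prop) (z : V) : z ∈ rel R ↔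
    ∃ x y, R x y ∧ z = ZFSet.pair x.1 y.1 := by
  unfold rel
  rw [ZFSet.mem_sep]
  constructor
  · rintro ⟨_, h⟩
    exact h
  · rintro ⟨x, y, h, rfl⟩
    refine ⟨?_, x, y, h, rfl⟩
    rw [ZFSet.mem_prod]
    exact ⟨x.1, x.2, y.1, y.2, rfl⟩

private theorem ij_mem_sq {A : V} (F : ℕ → Set (El A)) (z : V) : z ∈ sq F ↔
    ∃ (n : ℕ) (x : El A), x ∈ F n ∧ z = ZFSet.pair (nat n) x.1 := by
  unfold sq
  rw [ZFSet.mem_sep]
  constructor
  · rintro ⟨_, h⟩
    exact h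
  · rintro ⟨n, x, h, rfl⟩
    refine ⟨?_, n, x, h, rfl⟩
    rw [ZFSet.mem_prod]
    exact ⟨nat n, ij_omega n, x.1, x.2, rfl⟩

theorem p_IJ : S_IJ := by
  refine ⟨fun _ _ => ij_nat, fun _ => ij_cs, fun _ => ij_mem_cs, ?_, fun _ => ij_mem_fam,
    fun _ _ => ij_mem_rel, ?_, fun _ => ij_mem_sq, ?_⟩
  · intro A F O
    rw [ij_mem_fam]
    constructor
    · rintro ⟨O', h1, h2⟩
      rwa [ij_cs _ _ h2]
    · intro h
      exact ⟨O, h, rfl⟩
  · intro A B R x y
    rw [ij_mem_rel]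
    constructor
    · rintro ⟨x', y', h, he⟩
      obtain ⟨h1, h2⟩ := ZFSet.pair_inj.1 he
      rwa [Subtype.ext h1, Subtype.ext h2]
    · intro h
      exact ⟨x, y, h, rfl⟩
  · intro A F n x
    rw [ij_mem_sq]
    constructor
    · rintro ⟨m, x', h, he⟩
      obtain ⟨h1, h2⟩ := ZFSet.pair_inj.1 he
      rwa [ij_nat h1, Subtype.ext h2]
    · intro h
      exact ⟨n, x, h, rfl⟩

end Pool.Agent.NST
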