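import Pool.Agent.Lib.MP_2e4b78_lc.Mod.Stm

set_option autoImplicit false

/-!
# MP_2e4b78_lc : piece NA, a regressive function of the model is forced to be regressive
-/

open Cardinal Set Order
open scoped Ordinal

namespace Pool.Agent.NST

open Pool.Agent.MP2e4b78 (W1 W2 Lim IsNormalIdeal)
open Pool.Agent.CR (V Nm nat natN Memf Eqf IsTransModelZFC Memf_mono)
open Pool.Agent.FW (Ev ev_rel ev_gen ev_sub ev_dir ev_opN ev_mem opN)

theorem p_NA (el : S_EL) (av : S_AV) : S_NA := by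
  have _ := av
  let D : List Ob → Set Cn := fun L => {q | ∃ ν φ S, L = [Ob.nm ν, Ob.nm φ, Ob.s1 S] ∧
    ∃ t, Ok ν q t ∧ t.len ∈ S ∧ t.len ≠ ⊥ ∧
      ∀ r ≤ q, ∀ s, s < t → ¬ Memf (opN (elN t) (elN s)) φ r}
  refine ((ev_gen (π := pp) D).and
    ((ev_rel (π := pp) fun L x => ∃ q ν φ S t, L = [Ob.cn q, Ob.nm ν, Ob.nm φ, Ob.s1 S] ∧
      x = Ob.nd t ∧ Ok ν q t ∧ t.len ∈ S ∧ t.len ≠ ⊥ ∧
      ∀ r ≤ q, ∀ s, s < t → ¬ Memf (opN (elN t) (elN s)) φ r).and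
    (el.and (ev_opN.and (ev_mem.and (ev_sub.and ev_dir)))))).mono ?_
  rintro M G ⟨h1, h2, ⟨hel, -⟩, hop, hmem, hsub, hdir⟩ ν hν φ hφ S hS H
  have hL : ∀ x ∈ [Ob.nm ν, Ob.nm φ, Ob.s1 S], x ∈ M := by
    intro x hx
    rcases List.mem_cons.1 hx with rfl | hx
    · exact hν
    · rcases List.mem_cons.1 hx with rfl | hx
      · exact hφ
      · rcases List.mem_cons.1 hx with rfl | hx
        · exact hS
        · exact absurd hx List.not_mem_nil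
  rcases h1 [Ob.nm ν, Ob.nm φ, Ob.s1 S] hL with ⟨q, hq, ν1, φ1, S1, e, t, ht⟩ | ⟨p, hp, hpD⟩
  · exfalso
    have e' : ν = ν1 ∧ φ = φ1 ∧ S = S1 := by
      simpa using e
    obtain ⟨rfl, rfl, rfl⟩ := e'
    obtain ⟨x, hx, q', ν', φ', S', t', e2, rfl, g1, g2, g3, g4⟩ :=
      h2 [Ob.cn q, Ob.nm ν, Ob.nm φ, Ob.s1 S] (by
        intro x hx
        rcases List.mem_cons.1 hx with rfl | hx
        · exact hsub hq
        · exact hL x hx) ⟨Ob.nd t, q, ν, φ, S, t, rfl, rfl, ht⟩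
    have e2' : q = q' ∧ ν = ν' ∧ φ = φ' ∧ S = S' := by
      simpa using e2
    obtain ⟨rfl, rfl, rfl, rfl⟩ := e2'
    have ht' : t' ∈ TG ν M G := ⟨hx, q, hq, g1⟩
    obtain ⟨s, hs, hst, hpair⟩ := H t' ht' g2 g3
    obtain ⟨k1, k2⟩ := hop _ (hel t' hx) _ (hel s hs.1)
    rw [← k2, hmem _ k1 _ hφ] at hpair
    obtain ⟨p, hp, hpM⟩ := hpair
    obtain ⟨r, hr, hr1, hr2⟩ := hdir q hq p hp
    exact g4 r hr1 s hst (Memf_mono hpM hr2)
  · refine ⟨p, hp, fun q hq t ht htS ht0 => ?_⟩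
    by_contra hcon
    push Not at hcon
    exact hpD q ⟨ν, φ, S, rfl, t, ht, htS, ht0, hcon⟩ q hq le_rfl

end Pool.Agent.NST
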